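import Mathlib

/-!
# Twisted copies of a finite group (MP_fe7b28_co)

For `u : H → A` the permutations `(t, z) ↦ (h t, z + u (h t) - u t)` of `H × A` are a copy of `H`.
Copies belonging to the indicator functions of a subgroup `J` agree exactly on `J`.
-/

set_option autoImplicit false

open Equiv

namespace Pool.SID

/-- The copy of `H` inside the permutations of `H × A` twisted by `u`. -/
def eps {H A : Type} [Group H] [AddCommGroup A] (u : H → A) : H →* Perm (H × A) where
  toFun h :=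
    { toFun := fun p => (h * p.1, p.2 + (u (h * p.1) - u p.1))
      invFun := fun p => (h⁻¹ * p.1, p.2 + (u (h⁻¹ * p.1) - u p.1))
      left_inv := by
        intro p
        ext
        · simp
        · simp only [inv_mul_cancel_left]
          abel
      right_inv := by
        intro p
        ext
        · simp
        · simp only [mul_inv_cancel_left]
          abel }
  map_one' := by
    ext p <;> simp
  map_mul' := by
    intro g h
    ext p
    · simp [mul_assoc]
    · simp only [coe_fn_mk, Perm.coe_mul, Function.comp_apply, mul_assoc]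
      abel

theorem eps_apply {H A : Type} [Group H] [AddCommGroup A] (u : H → A) (h : H) (p : H × A) :
    eps u h p = (h * p.1, p.2 + (u (h * p.1) - u p.1)) := rfl

theorem eps_injective {H A : Type} [Group H] [AddCommGroup A] (u : H → A) :
    Function.Injective (eps u) := by
  intro g h hgh
  have h1 := congrArg (fun f => (f ((1 : H), (0 : A))).1) hgh
  simpa [eps_apply] using h1

theorem eps_rel {H A : Type} [Group H] [AddCommGroup A] (u : H → A) (x : H) :
    eps (0 : H → A) x * (eps u x)⁻¹ * eps (0 : H → A) x = eps (-u) x := by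
  rw [← map_inv]
  ext p
  · simp only [Perm.coe_mul, Function.comp_apply, eps_apply, inv_mul_cancel_left]
  · simp only [Perm.coe_mul, Function.comp_apply, eps_apply, inv_mul_cancel_left, Pi.zero_apply,
      Pi.neg_apply, sub_zero, add_zero]
    abel

open Classical in
/-- `c` times the indicator function of the subgroup `J`. -/
noncomputable def ind {H A : Type} [Group H] [AddCommGroup A] (J : Subgroup H) (c : A) : H → A :=
  fun t => if t ∈ J then c else 0

theorem neg_ind {H A : Type} [Group H] [AddCommGroup A] (J : Subgroup H) (c : A) :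
    -(ind J c) = ind J (-c) := by
  funext t
  by_cases h : t ∈ J <;> simp [ind, h]

theorem ind_zero {H A : Type} [Group H] [AddCommGroup A] (J : Subgroup H) :
    ind J (0 : A) = 0 := by
  funext t
  by_cases h : t ∈ J <;> simp [ind, h]

theorem eps_ind_of_mem {H A : Type} [Group H] [AddCommGroup A] (J : Subgroup H) (c c' : A)
    (k : H) (hk : k ∈ J) : eps (ind J c) k = eps (ind J c') k := by
  ext p
  · simp [eps_apply]
  · have h1 : k * p.1 ∈ J ↔ p.1 ∈ J := Subgroup.mul_mem_cancel_left J hk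
    by_cases hp : p.1 ∈ J
    · simp [eps_apply, ind, h1.2 hp, hp]
    · have : k * p.1 ∉ J := fun h => hp (h1.1 h)
      simp [eps_apply, ind, this, hp]

theorem mem_of_eps_eq {H A : Type} [Group H] [AddCommGroup A] (J : Subgroup H) (c c' : A)
    (hc : c ≠ c') (h h' : H) (he : eps (ind J c) h = eps (ind J c') h') : h ∈ J := by
  have h1 := congrArg (fun f => (f ((1 : H), (0 : A))).1) he
  have h2 := congrArg (fun f => (f ((1 : H), (0 : A))).2) he
  simp only [eps_apply, mul_one, zero_add] at h1 h2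
  subst h1
  by_contra hh
  simp only [ind, hh, if_false, J.one_mem, if_true, zero_sub, neg_inj] at h2
  exact hc h2

/-- Every finite group embeds into the permutations of some `Fin N`. -/
theorem exists_perm_fin (P : Type) [Group P] [Finite P] :
    ∃ (N : ℕ) (c : P →* Perm (Fin N)), Function.Injective c := by
  obtain ⟨N, ⟨e⟩⟩ := Finite.exists_equiv_fin P
  refine ⟨N, (e.permCongrHom.toMonoidHom).comp (MulAction.toPermHom P P), ?_⟩
  rw [MonoidHom.coe_comp]
  refine Function.Injective.comp ?_ MulAction.toPerm_injective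
  exact e.permCongrHom.injective

/-- The product group in which three copies of `H` live. -/
abbrev PP (H : Type) [Group H] (K0 : Subgroup H) : Type :=
  (J : {J : Subgroup H // K0 ≤ J}) → Perm (H × ZMod 4) × Perm (H × ZMod 2)

/-- The copy of `H` with parameter `c`. -/
noncomputable def EE (H : Type) [Group H] (K0 : Subgroup H) (c : ℤ) : H →* PP H K0 :=
  MonoidHom.pi (fun J => (eps (ind J.1 (c : ZMod 4))).prod (eps (ind J.1 (c : ZMod 2))))

theorem EE_fst (H : Type) [Group H] (K0 : Subgroup H) (c : ℤ) (h : H)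
    (J : {J : Subgroup H // K0 ≤ J}) : (EE H K0 c h J).1 = eps (ind J.1 (c : ZMod 4)) h := rfl

theorem EE_snd (H : Type) [Group H] (K0 : Subgroup H) (c : ℤ) (h : H)
    (J : {J : Subgroup H // K0 ≤ J}) : (EE H K0 c h J).2 = eps (ind J.1 (c : ZMod 2)) h := rfl

/-- Projection to the first coordinate at `J`. -/
def pr1 (H : Type) [Group H] (K0 : Subgroup H) (J : {J : Subgroup H // K0 ≤ J}) :
    PP H K0 →* Perm (H × ZMod 4) where
  toFun f := (f J).1
  map_one' := rfl
  map_mul' _ _ := rfl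

/-- Projection to the second coordinate at `J`. -/
def pr2 (H : Type) [Group H] (K0 : Subgroup H) (J : {J : Subgroup H // K0 ≤ J}) :
    PP H K0 →* Perm (H × ZMod 2) where
  toFun f := (f J).2
  map_one' := rfl
  map_mul' _ _ := rfl

theorem EE_injective (H : Type) [Group H] (K0 : Subgroup H) (m : ℤ) :
    Function.Injective (EE H K0 m) := by
  intro g h hgh
  have h1 := congrArg (fun f => (f ⟨⊤, le_top⟩).1) hgh
  simp only [EE_fst] at h1
  exact eps_injective _ h1

theorem EE_agree (H : Type) [Group H] (K0 : Subgroup H) (m m' : ℤ) (k : H) (hk : k ∈ K0) :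
    EE H K0 m k = EE H K0 m' k := by
  funext J
  refine Prod.ext ?_ ?_
  · rw [EE_fst, EE_fst]
    exact eps_ind_of_mem J.1 _ _ k (J.2 hk)
  · rw [EE_snd, EE_snd]
    exact eps_ind_of_mem J.1 _ _ k (J.2 hk)

theorem EE_rel (H : Type) [Group H] (K0 : Subgroup H) (x : H) :
    EE H K0 0 x * (EE H K0 1 x)⁻¹ * EE H K0 0 x = EE H K0 (-1) x := by
  funext J
  have h4 := eps_rel (ind J.1 (1 : ZMod 4)) x
  have h2 := eps_rel (ind J.1 (1 : ZMod 2)) x
  rw [neg_ind] at h4 h2
  refine Prod.ext ?_ ?_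
  · have a0 : (EE H K0 0 x J).1 = eps (0 : H → ZMod 4) x := by
      rw [EE_fst, Int.cast_zero, ind_zero]
    have a1 : (EE H K0 1 x J).1 = eps (ind J.1 (1 : ZMod 4)) x := by
      rw [EE_fst, Int.cast_one]
    have am : (EE H K0 (-1) x J).1 = eps (ind J.1 (-1 : ZMod 4)) x := by
      rw [EE_fst, Int.cast_neg, Int.cast_one]
    rw [am, ← h4, ← a0, ← a1]
    rfl
  · have a0 : (EE H K0 0 x J).2 = eps (0 : H → ZMod 2) x := by
      rw [EE_snd, Int.cast_zero, ind_zero]
    have a1 : (EE H K0 1 x J).2 = eps (ind J.1 (1 : ZMod 2)) x := by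
      rw [EE_snd, Int.cast_one]
    have am : (EE H K0 (-1) x J).2 = eps (ind J.1 (-1 : ZMod 2)) x := by
      rw [EE_snd, Int.cast_neg, Int.cast_one]
    rw [am, ← h2, ← a0, ← a1]
    rfl

theorem EE_sepA (H : Type) [Group H] (K0 : Subgroup H) (J : Subgroup H) (hJ : K0 ≤ J) (h : H)
    (hh : EE H K0 (-1) h ∈ J.map (EE H K0 (-1)) ⊔ (EE H K0 1).range) : h ∈ J := by
  have h2 : J.map (EE H K0 (-1)) ⊔ (EE H K0 1).range ≤
      Subgroup.comap (pr1 H K0 ⟨J, hJ⟩) (eps (ind J (1 : ZMod 4))).range := by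
    refine sup_le ?_ ?_
    · rintro _ ⟨k, hk, rfl⟩
      refine ⟨k, ?_⟩
      exact eps_ind_of_mem J _ _ k hk
    · rintro _ ⟨k, rfl⟩
      refine ⟨k, ?_⟩
      change eps (ind J (1 : ZMod 4)) k = (EE H K0 1 k ⟨J, hJ⟩).1
      rw [EE_fst, Int.cast_one]
  obtain ⟨h', hh'⟩ := h2 hh
  refine mem_of_eps_eq J ((-1 : ℤ) : ZMod 4) 1 (by decide) h h' ?_
  exact hh'.symm

theorem EE_sepB (H : Type) [Group H] (K0 : Subgroup H) (J : Subgroup H) (hJ : K0 ≤ J) (h : H)
    (hh : EE H K0 0 h ∈ J.map (EE H K0 0) ⊔ ((EE H K0 1).range ⊔ (EE H K0 (-1)).range)) :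
    h ∈ J := by
  have h2 : J.map (EE H K0 0) ⊔ ((EE H K0 1).range ⊔ (EE H K0 (-1)).range) ≤
      Subgroup.comap (pr2 H K0 ⟨J, hJ⟩) (eps (ind J (1 : ZMod 2))).range := by
    refine sup_le ?_ (sup_le ?_ ?_)
    · rintro _ ⟨k, hk, rfl⟩
      refine ⟨k, ?_⟩
      exact eps_ind_of_mem J _ _ k hk
    · rintro _ ⟨k, rfl⟩
      refine ⟨k, ?_⟩
      change eps (ind J (1 : ZMod 2)) k = (EE H K0 1 k ⟨J, hJ⟩).2
      rw [EE_snd, Int.cast_one]
    · rintro _ ⟨k, rfl⟩
      refine ⟨k, ?_⟩
      change eps (ind J (1 : ZMod 2)) k = (EE H K0 (-1) k ⟨J, hJ⟩).2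
      rw [EE_snd]
      have : ((-1 : ℤ) : ZMod 2) = 1 := by decide
      rw [this]
  obtain ⟨h', hh'⟩ := h2 hh
  refine mem_of_eps_eq J ((0 : ℤ) : ZMod 2) 1 (by decide) h h' ?_
  exact hh'.symm

/-- Three copies of a finite group. -/
theorem three_copies (H : Type) [Group H] [Finite H] (K0 : Subgroup H) (x : H) :
    ∃ (N : ℕ) (e0 e1 em : H →* Perm (Fin N)),
      Function.Injective e0 ∧ Function.Injective e1 ∧ Function.Injective em ∧
      (∀ k ∈ K0, e0 k = e1 k) ∧ (∀ k ∈ K0, em k = e1 k) ∧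
      e0 x * (e1 x)⁻¹ * e0 x = em x ∧
      (∀ J : Subgroup H, K0 ≤ J → ∀ h, em h ∈ J.map em ⊔ e1.range → h ∈ J) ∧
      (∀ J : Subgroup H, K0 ≤ J → ∀ h, e0 h ∈ J.map e0 ⊔ (e1.range ⊔ em.range) → h ∈ J) := by
  obtain ⟨N, c, hc⟩ := exists_perm_fin (PP H K0)
  refine ⟨N, c.comp (EE H K0 0), c.comp (EE H K0 1), c.comp (EE H K0 (-1)),
    hc.comp (EE_injective H K0 0), hc.comp (EE_injective H K0 1),
    hc.comp (EE_injective H K0 (-1)), ?_, ?_, ?_, ?_, ?_⟩
  · intro k hk
    exact congrArg c (EE_agree H K0 0 1 k hk)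
  · intro k hk
    exact congrArg c (EE_agree H K0 (-1) 1 k hk)
  · simp only [MonoidHom.comp_apply]
    rw [← map_inv, ← map_mul, ← map_mul, EE_rel]
  · intro J hJ h hh
    have h1 : J.map (c.comp (EE H K0 (-1))) ⊔ (c.comp (EE H K0 1)).range =
        Subgroup.map c (J.map (EE H K0 (-1)) ⊔ (EE H K0 1).range) := by
      rw [Subgroup.map_sup, Subgroup.map_map, MonoidHom.range_comp]
    rw [h1] at hh
    obtain ⟨g, hg, hgh⟩ := hh
    have hg' : g = EE H K0 (-1) h := hc hgh
    subst hg'
    exact EE_sepA H K0 J hJ h hg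
  · intro J hJ h hh
    have h1 : J.map (c.comp (EE H K0 0)) ⊔
          ((c.comp (EE H K0 1)).range ⊔ (c.comp (EE H K0 (-1))).range) =
        Subgroup.map c (J.map (EE H K0 0) ⊔ ((EE H K0 1).range ⊔ (EE H K0 (-1)).range)) := by
      rw [Subgroup.map_sup, Subgroup.map_sup, Subgroup.map_map, MonoidHom.range_comp,
        MonoidHom.range_comp]
    rw [h1] at hh
    obtain ⟨g, hg, hgh⟩ := hh
    have hg' : g = EE H K0 0 h := hc hgh
    subst hg'
    exact EE_sepB H K0 J hJ h hg

end Pool.SID
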