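import Pool.Agent.H82.SID.Free

/-!
# Amalgams of finite groups (MP_fe7b28_co)
-/

set_option autoImplicit false

open Equiv

namespace Pool.SID

/-- Coordinates with respect to a subgroup. -/
theorem coset_coords {A C : Type} [Group A] [Group C] (a : C →* A) (ha : Function.Injective a) :
    ∃ E : A ≃ (A ⧸ a.range) × C, ∀ x c, E (x * a c) = ((E x).1, (E x).2 * c) := by
  classical
  have hmem : ∀ x : A, (Quotient.out (QuotientGroup.mk x : A ⧸ a.range))⁻¹ * x ∈ a.range := by
    intro x
    rw [← QuotientGroup.eq]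
    exact Quotient.out_eq _
  choose g hg using hmem
  refine ⟨
    { toFun := fun x => (QuotientGroup.mk x, g x)
      invFun := fun p => Quotient.out p.1 * a p.2
      left_inv := ?_
      right_inv := ?_ }, ?_⟩
  · intro x
    simp only [hg x, mul_inv_cancel_left]
  · rintro ⟨q, c⟩
    have h1 : (QuotientGroup.mk (Quotient.out q * a c) : A ⧸ a.range) = q := by
      have h2 : (QuotientGroup.mk (Quotient.out q * a c) : A ⧸ a.range) =
          QuotientGroup.mk (Quotient.out q) := by
        rw [eq_comm, QuotientGroup.eq, inv_mul_cancel_left]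
        exact ⟨c, rfl⟩
      rw [h2]
      exact Quotient.out_eq _
    refine Prod.ext h1 ?_
    simp only
    apply ha
    rw [hg, h1, inv_mul_cancel_left]
  · intro x c
    have h1 : (QuotientGroup.mk (x * a c) : A ⧸ a.range) = QuotientGroup.mk x := by
      rw [eq_comm, QuotientGroup.eq, inv_mul_cancel_left]
      exact ⟨c, rfl⟩
    refine Prod.ext h1 ?_
    simp only [Equiv.coe_fn_mk]
    apply ha
    rw [hg, h1, map_mul, hg x, mul_assoc]

/-- Right multiplication by the inverse, as a homomorphism into the permutations. -/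
def rmul (A : Type) [Group A] : A →* Perm A where
  toFun g :=
    { toFun := fun x => x * g⁻¹
      invFun := fun x => x * g
      left_inv := by intro x; simp
      right_inv := by intro x; simp }
  map_one' := by ext x; simp
  map_mul' := by intro g h; ext x; simp [mul_assoc]

theorem rmul_apply (A : Type) [Group A] (g x : A) : rmul A g x = x * g⁻¹ := rfl

/-- The basic amalgam. -/
theorem basic_amalgam {A B C : Type} [Group A] [Group B] [Group C] [Finite A] [Finite B]
    [Finite C] (a : C →* A) (b : C →* B) (ha : Function.Injective a) (hb : Function.Injective b) :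
    ∃ (X : Type) (_ : Finite X) (f : A →* Perm X) (g : B →* Perm X),
      Function.Injective f ∧ Function.Injective g ∧ ∀ c, f (a c) = g (b c) := by
  obtain ⟨E, hE⟩ := coset_coords a ha
  obtain ⟨E', hE'⟩ := coset_coords b hb
  -- X = (A/C × B/C) × C
  let ea : (A × (B ⧸ b.range)) ≃ ((A ⧸ a.range) × (B ⧸ b.range)) × C :=
    { toFun := fun p => (((E p.1).1, p.2), (E p.1).2)
      invFun := fun p => (E.symm (p.1.1, p.2), p.1.2)
      left_inv := by rintro ⟨x, q⟩; simp
      right_inv := by rintro ⟨⟨x, q⟩, c⟩; simp }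
  let eb : (B × (A ⧸ a.range)) ≃ ((A ⧸ a.range) × (B ⧸ b.range)) × C :=
    { toFun := fun p => ((p.2, (E' p.1).1), (E' p.1).2)
      invFun := fun p => (E'.symm (p.1.2, p.2), p.1.1)
      left_inv := by rintro ⟨x, q⟩; simp
      right_inv := by rintro ⟨⟨x, q⟩, c⟩; simp }
  let ra : A →* Perm (A × (B ⧸ b.range)) :=
    { toFun := fun g => Equiv.prodCongr (rmul A g) (Equiv.refl _)
      map_one' := by ext p <;> simp
      map_mul' := by intro g h; ext p <;> simp [rmul_apply] }
  let rb : B →* Perm (B × (A ⧸ a.range)) :=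
    { toFun := fun g => Equiv.prodCongr (rmul B g) (Equiv.refl _)
      map_one' := by ext p <;> simp
      map_mul' := by intro g h; ext p <;> simp [rmul_apply] }
  have hra : ∀ g p, ra g p = (p.1 * g⁻¹, p.2) := fun g p => rfl
  have hrb : ∀ g p, rb g p = (p.1 * g⁻¹, p.2) := fun g p => rfl
  refine ⟨((A ⧸ a.range) × (B ⧸ b.range)) × C, inferInstance,
    (ea.permCongrHom.toMonoidHom).comp ra, (eb.permCongrHom.toMonoidHom).comp rb, ?_, ?_, ?_⟩
  · rw [MonoidHom.coe_comp]
    refine Function.Injective.comp ea.permCongrHom.injective ?_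
    intro g h hgh
    have h1 := congrArg (fun f => (f ((1 : A), (QuotientGroup.mk (1 : B)))).1) hgh
    simp only [hra, one_mul] at h1
    exact inv_injective h1
  · rw [MonoidHom.coe_comp]
    refine Function.Injective.comp eb.permCongrHom.injective ?_
    intro g h hgh
    have h1 := congrArg (fun f => (f ((1 : B), (QuotientGroup.mk (1 : A)))).1) hgh
    simp only [hrb, one_mul] at h1
    exact inv_injective h1
  · intro c
    apply Equiv.ext
    rintro ⟨⟨p, q⟩, c'⟩
    have h1 : ((ea.permCongrHom.toMonoidHom).comp ra) (a c) ((p, q), c') =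
        ea (ra (a c) (ea.symm ((p, q), c'))) := rfl
    have h2 : ((eb.permCongrHom.toMonoidHom).comp rb) (b c) ((p, q), c') =
        eb (rb (b c) (eb.symm ((p, q), c'))) := rfl
    rw [h1, h2, hra, hrb]
    have h3 := hE (E.symm (p, c')) c⁻¹
    have h4 := hE' (E'.symm (q, c')) c⁻¹
    rw [map_inv, Equiv.apply_symm_apply] at h3 h4
    change (((E (E.symm (p, c') * (a c)⁻¹)).1, q), (E (E.symm (p, c') * (a c)⁻¹)).2) =
      ((p, (E' (E'.symm (q, c') * (b c)⁻¹)).1), (E' (E'.symm (q, c') * (b c)⁻¹)).2)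
    rw [h3, h4]

/-- Amalgams with control of all subgroups above the amalgamated one. -/
theorem amalgam {A B C : Type} [Group A] [Group B] [Group C] [Finite A] [Finite B]
    [Finite C] (a : C →* A) (b : C →* B) (ha : Function.Injective a) (hb : Function.Injective b) :
    ∃ (N : ℕ) (f : A →* Perm (Fin N)) (g : B →* Perm (Fin N)),
      Function.Injective f ∧ Function.Injective g ∧ (∀ c, f (a c) = g (b c)) ∧
      ∀ J : Subgroup A, a.range ≤ J → ∀ h, f h ∈ J.map f ⊔ g.range → h ∈ J := by
  classical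
  -- for every J an amalgam of two copies of A (glued along J) with B
  have hJ : ∀ J : {J : Subgroup A // a.range ≤ J}, ∃ (X : Type) (_ : Finite X)
      (q : Perm (A × ZMod 2) →* Perm X) (r : B →* Perm X), Function.Injective q ∧
      Function.Injective r ∧ ∀ c, q (eps (ind J.1 (0 : ZMod 2)) (a c)) = r (b c) := by
    intro J
    have : Finite (Perm (A × ZMod 2)) := inferInstance
    exact basic_amalgam ((eps (ind J.1 (0 : ZMod 2))).comp a) b
      ((eps_injective _).comp ha) hb
  choose X hX q r hq hr hqr using hJ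
  have hXf : ∀ J, Finite (X J) := hX
  let P : Type := (J : {J : Subgroup A // a.range ≤ J}) → Perm (X J) × Perm (X J)
  let f0 : A →* ((J : {J : Subgroup A // a.range ≤ J}) → Perm (X J) × Perm (X J)) :=
    MonoidHom.pi (fun J => ((q J).comp (eps (ind J.1 (0 : ZMod 2)))).prod
      ((q J).comp (eps (ind J.1 (1 : ZMod 2)))))
  let g0 : B →* ((J : {J : Subgroup A // a.range ≤ J}) → Perm (X J) × Perm (X J)) :=
    MonoidHom.pi (fun J => (r J).prod (r J))
  obtain ⟨N, c, hc⟩ := exists_perm_fin
    ((J : {J : Subgroup A // a.range ≤ J}) → Perm (X J) × Perm (X J))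
  have hf0 : Function.Injective f0 := by
    intro x y hxy
    have h1 := congrArg (fun f => (f ⟨⊤, le_top⟩).1) hxy
    exact eps_injective _ (hq _ h1)
  have hg0 : Function.Injective g0 := by
    intro x y hxy
    have h1 := congrArg (fun f => (f ⟨⊤, le_top⟩).1) hxy
    exact hr _ h1
  have hfg : ∀ z, f0 (a z) = g0 (b z) := by
    intro z
    funext J
    refine Prod.ext ?_ ?_
    · exact hqr J z
    · have h1 : eps (ind J.1 (1 : ZMod 2)) (a z) = eps (ind J.1 (0 : ZMod 2)) (a z) :=
        eps_ind_of_mem J.1 _ _ (a z) (J.2 ⟨z, rfl⟩)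
      change q J (eps (ind J.1 (1 : ZMod 2)) (a z)) = r J (b z)
      rw [h1]
      exact hqr J z
  refine ⟨N, c.comp f0, c.comp g0, hc.comp hf0, hc.comp hg0,
    fun z => congrArg c (hfg z), ?_⟩
  intro J hJ h hh
  have h1 : J.map (c.comp f0) ⊔ (c.comp g0).range = Subgroup.map c (J.map f0 ⊔ g0.range) := by
    rw [Subgroup.map_sup, Subgroup.map_map, MonoidHom.range_comp]
  rw [h1] at hh
  obtain ⟨y, hy, hyh⟩ := hh
  have hy' : y = f0 h := hc hyh
  subst hy'
  let D : Subgroup ((J : {J : Subgroup A // a.range ≤ J}) → Perm (X J) × Perm (X J)) :=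
    { carrier := {p | (p ⟨J, hJ⟩).1 = (p ⟨J, hJ⟩).2}
      one_mem' := rfl
      mul_mem' := by
        intro x y hx hy
        change (x ⟨J, hJ⟩).1 * (y ⟨J, hJ⟩).1 = (x ⟨J, hJ⟩).2 * (y ⟨J, hJ⟩).2
        have hx' : (x ⟨J, hJ⟩).1 = (x ⟨J, hJ⟩).2 := hx
        have hy' : (y ⟨J, hJ⟩).1 = (y ⟨J, hJ⟩).2 := hy
        rw [hx', hy']
      inv_mem' := by
        intro x hx
        change ((x ⟨J, hJ⟩).1)⁻¹ = ((x ⟨J, hJ⟩).2)⁻¹
        have hx' : (x ⟨J, hJ⟩).1 = (x ⟨J, hJ⟩).2 := hx
        rw [hx'] }
  have h2 : J.map f0 ⊔ g0.range ≤ D := by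
    refine sup_le ?_ ?_
    · rintro _ ⟨k, hk, rfl⟩
      change q ⟨J, hJ⟩ (eps (ind J (0 : ZMod 2)) k) = q ⟨J, hJ⟩ (eps (ind J (1 : ZMod 2)) k)
      rw [eps_ind_of_mem J _ 1 k hk]
    · rintro _ ⟨k, rfl⟩
      rfl
  have h3 : q ⟨J, hJ⟩ (eps (ind J (0 : ZMod 2)) h) = q ⟨J, hJ⟩ (eps (ind J (1 : ZMod 2)) h) :=
    h2 hy
  exact mem_of_eps_eq J (0 : ZMod 2) 1 (by decide) h h (hq _ h3)

end Pool.SID
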