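import Pool.Agent.H82.SID.Free

/-!
# The ambient group: germs at infinity of sequences of permutations of `ℕ` (MP_fe7b28_co)
-/

set_option autoImplicit false

open Equiv Filter

namespace Pool.SID

/-- The ambient group. -/
abbrev SS : Type := Filter.Germ (Filter.atTop : Filter ℕ) (Perm ℕ)

/-- A representing sequence. -/
noncomputable def rep (s : SS) : ℕ → Perm ℕ := Quotient.out s

theorem rep_eq (s : SS) : ((rep s : ℕ → Perm ℕ) : SS) = s := Quotient.out_eq s

theorem rep_coe (f : ℕ → Perm ℕ) : rep (f : SS) =ᶠ[atTop] f :=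
  Filter.Germ.coe_eq.1 (rep_eq (f : SS))

/-- Eventually without fixed points. -/
def EvFree (s : SS) : Prop := ∀ᶠ n in atTop, ∀ z, rep s n z ≠ z

theorem evFree_coe (f : ℕ → Perm ℕ) (h : ∀ᶠ n in atTop, ∀ z, f n z ≠ z) : EvFree (f : SS) := by
  filter_upwards [rep_coe f, h] with n h1 h2 z
  rw [h1]
  exact h2 z

/-- Locally finite. -/
def LF {S : Type} [Group S] (V : Subgroup S) : Prop :=
  ∀ K : Subgroup S, K ≤ V → (K : Set S).Finite → ∀ u ∈ V,
    ((K ⊔ Subgroup.zpowers u : Subgroup S) : Set S).Finite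

/-- A countable locally finite group acting eventually freely. -/
structure Good (U : Subgroup SS) : Prop where
  count : (U : Set SS).Countable
  lf : LF U
  free : ∀ u ∈ U, u ≠ 1 → EvFree u

/-- An exhausting chain of finite subgroups. -/
theorem exhaust {S : Type} [Group S] (V : Subgroup S) (hc : (V : Set S).Countable) (hlf : LF V) :
    ∃ L : ℕ → Subgroup S, Monotone L ∧ (∀ m, L m ≤ V) ∧ (∀ m, (L m : Set S).Finite) ∧
      ∀ v ∈ V, ∃ m, v ∈ L m := by
  obtain ⟨v, hv⟩ := hc.exists_eq_range ⟨1, V.one_mem⟩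
  let L : ℕ → Subgroup S := fun m => Nat.rec ⊥ (fun k K => K ⊔ Subgroup.zpowers (v k)) m
  have hL0 : L 0 = ⊥ := rfl
  have hLs : ∀ m, L (m + 1) = L m ⊔ Subgroup.zpowers (v m) := fun m => rfl
  have hvV : ∀ m, v m ∈ V := fun m => by
    have : v m ∈ (V : Set S) := by rw [hv]; exact ⟨m, rfl⟩
    exact this
  have hle : ∀ m, L m ≤ V := by
    intro m
    induction m with
    | zero => rw [hL0]; exact bot_le
    | succ m ih => rw [hLs]; exact sup_le ih (Subgroup.zpowers_le.2 (hvV m))
  refine ⟨L, monotone_nat_of_le_succ (fun m => by rw [hLs]; exact le_sup_left), hle, ?_, ?_⟩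
  · intro m
    induction m with
    | zero => rw [hL0]; simp
    | succ m ih => rw [hLs]; exact hlf _ (hle m) ih _ (hvV m)
  · intro w hw
    have : w ∈ Set.range v := by rw [← hv]; exact hw
    obtain ⟨m, rfl⟩ := this
    refine ⟨m + 1, ?_⟩
    rw [hLs]
    exact Subgroup.mem_sup_right (Subgroup.mem_zpowers _)

/-- The ambient group is injective for countable locally finite extensions of good subgroups. -/
theorem embed_over (U : Subgroup SS) (hUf : ∀ u ∈ U, u ≠ 1 → EvFree u)
    (V : Subgroup (Perm ℕ)) (hVc : (V : Set (Perm ℕ)).Countable) (hVlf : LF V)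
    (io : SS → Perm ℕ) (hio : Emb U io) (hioV : ∀ u ∈ U, io u ∈ V) :
    ∃ rho : Perm ℕ → SS, Emb V rho ∧ (∀ u ∈ U, rho (io u) = u) ∧
      (∀ v ∈ V, v ≠ 1 → EvFree (rho v)) := by
  classical
  obtain ⟨L, hLmono, hLV, hLf, hLex⟩ := exhaust V hVc hVlf
  -- the finite subgroups of U
  let FU : ℕ → Subgroup SS := fun m =>
    { carrier := {u | u ∈ U ∧ io u ∈ L m}
      one_mem' := ⟨U.one_mem, by rw [hio.one]; exact (L m).one_mem⟩
      mul_mem' := by
        rintro a b ⟨ha, ha'⟩ ⟨hb, hb'⟩
        exact ⟨U.mul_mem ha hb, by rw [hio.mul a ha b hb]; exact (L m).mul_mem ha' hb'⟩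
      inv_mem' := by
        rintro a ⟨ha, ha'⟩
        exact ⟨U.inv_mem ha, by rw [hio.inv ha]; exact (L m).inv_mem ha'⟩ }
  have hFU : ∀ m u, u ∈ FU m ↔ u ∈ U ∧ io u ∈ L m := fun m u => Iff.rfl
  have hFUf : ∀ m, (FU m : Set SS).Finite := by
    intro m
    refine Set.Finite.of_injOn (f := io) (t := (L m : Set (Perm ℕ))) ?_ ?_ (hLf m)
    · intro u hu
      exact hu.2
    · intro u hu u' hu' h
      exact hio.injOn hu.1 hu'.1 h
  let OK : ℕ → ℕ → Prop := fun m n =>
    (∀ u ∈ FU m, ∀ u' ∈ FU m, rep (u * u') n = rep u n * rep u' n) ∧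
    (∀ u ∈ FU m, u ≠ 1 → ∀ z, rep u n z ≠ z)
  have hOKev : ∀ m, ∀ᶠ n in atTop, OK m n := by
    intro m
    refine Filter.Eventually.and ?_ ?_
    · have h1 : ∀ᶠ n in atTop, ∀ u ∈ (FU m : Set SS), ∀ u' ∈ (FU m : Set SS),
          rep (u * u') n = rep u n * rep u' n := by
        rw [Filter.eventually_all_finite (hFUf m)]
        intro u hu
        rw [Filter.eventually_all_finite (hFUf m)]
        intro u' hu'
        have h2 : ((rep (u * u') : ℕ → Perm ℕ) : SS) = ((rep u * rep u' : ℕ → Perm ℕ) : SS) := by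
          rw [rep_eq, Filter.Germ.coe_mul, rep_eq, rep_eq]
        exact Filter.Germ.coe_eq.1 h2
      exact h1
    · have h1 : ∀ᶠ n in atTop, ∀ u ∈ (FU m : Set SS), u ≠ 1 → ∀ z, rep u n z ≠ z := by
        rw [Filter.eventually_all_finite (hFUf m)]
        intro u hu
        by_cases hu1 : u = 1
        · exact Filter.Eventually.of_forall (fun n h => absurd hu1 h)
        · filter_upwards [hUf u hu.1 hu1] with n hn _
          exact hn
      exact h1
  have hOKmono : ∀ m m' n, m ≤ m' → OK m' n → OK m n := by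
    intro m m' n hmm' h
    have hle : ∀ u, u ∈ FU m → u ∈ FU m' := fun u hu => ⟨hu.1, hLmono hmm' hu.2⟩
    exact ⟨fun u hu u' hu' => h.1 u (hle u hu) u' (hle u' hu'),
      fun u hu => h.2 u (hle u hu)⟩
  have hth : ∀ n, ∃ th : Perm ℕ → Perm ℕ, ∀ m, m ≤ n → OK m n →
      (∀ v ∈ L m, ∀ w ∈ L m, th (v * w) = th v * th w) ∧
      (∀ v ∈ L m, v ≠ 1 → ∀ z, th v z ≠ z) ∧ (∀ u ∈ FU m, th (io u) = rep u n) := by
    intro n
    by_cases hne : ∃ m, m ≤ n ∧ OK m n
    · obtain ⟨m1, hm1, hok1⟩ := hne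
      let m0 := Nat.findGreatest (fun m => OK m n) n
      have hm0 : OK m0 n := Nat.findGreatest_spec (P := fun m => OK m n) hm1 hok1
      have hm0max : ∀ m, m ≤ n → OK m n → m ≤ m0 := fun m h1 h2 =>
        Nat.le_findGreatest (P := fun m => OK m n) h1 h2
      have : Finite (FU m0) := hFUf m0
      have : Finite (L m0) := hLf m0
      have hrep1 : rep (1 : SS) n = 1 := by
        have h1 := hm0.1 1 (FU m0).one_mem 1 (FU m0).one_mem
        rw [mul_one] at h1
        exact mul_left_cancel (a := rep (1 : SS) n) (by rw [mul_one]; exact h1.symm)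
      let al : FU m0 →* Perm ℕ :=
        { toFun := fun u => rep u n
          map_one' := hrep1
          map_mul' := fun u u' => hm0.1 u u.2 u' u'.2 }
      let e : FU m0 →* L m0 :=
        { toFun := fun u => ⟨io u, u.2.2⟩
          map_one' := Subtype.ext hio.one
          map_mul' := fun u u' => Subtype.ext (hio.mul u u.2.1 u' u'.2.1) }
      have he : Function.Injective e := by
        intro u u' h
        exact Subtype.ext (hio.injOn u.2.1 u'.2.1 (congrArg Subtype.val h))
      obtain ⟨th, hth1, hth2⟩ := free_extend al (by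
        intro u hu z
        exact hm0.2 u u.2 (fun h => hu (Subtype.ext h)) z) e he
      refine ⟨fun v => if h : v ∈ L m0 then th ⟨v, h⟩ else 1, ?_⟩
      intro m hmn hmok
      have hle := hLmono (hm0max m hmn hmok)
      refine ⟨?_, ?_, ?_⟩
      · intro v hv w hw
        have h1 := hle hv
        have h2 := hle hw
        have h3 := (L m0).mul_mem h1 h2
        simp only [h1, h2, h3, dif_pos]
        rw [← map_mul]
        rfl
      · intro v hv hv1 z
        have h1 := hle hv
        simp only [h1, dif_pos]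
        exact hth1 _ (fun h => hv1 (congrArg Subtype.val h)) z
      · intro u hu
        have h1 : io u ∈ L m0 := hle hu.2
        have h2 : u ∈ FU m0 := ⟨hu.1, h1⟩
        simp only [h1, dif_pos]
        exact hth2 ⟨u, h2⟩
    · exact ⟨fun _ => 1, fun m h1 h2 => absurd ⟨m, h1, h2⟩ hne⟩
  choose th hth using hth
  refine ⟨fun v => ((fun n => th n v : ℕ → Perm ℕ) : SS), ⟨?_, ?_⟩, ?_, ?_⟩
  · intro v hv w hw
    obtain ⟨m1, hm1⟩ := hLex v hv
    obtain ⟨m2, hm2⟩ := hLex w hw
    have hv' : v ∈ L (max m1 m2) := hLmono (le_max_left _ _) hm1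
    have hw' : w ∈ L (max m1 m2) := hLmono (le_max_right _ _) hm2
    rw [← Filter.Germ.coe_mul]
    refine Filter.Germ.coe_eq.2 ?_
    filter_upwards [hOKev (max m1 m2), eventually_ge_atTop (max m1 m2)] with n h1 h2
    exact (hth n _ h2 h1).1 v hv' w hw'
  · intro v hv hv1
    by_contra hne
    obtain ⟨m, hm⟩ := hLex v hv
    have h1 : (fun n => th n v) =ᶠ[atTop] (fun _ => (1 : Perm ℕ)) := Filter.Germ.coe_eq.1 hv1
    obtain ⟨n, h2, h3, h4⟩ := (h1.and ((hOKev m).and (eventually_ge_atTop m))).exists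
    have h5 := (hth n m h4 h3).2.1 v hm hne 0
    have h6 : th n v = 1 := h2
    rw [h6] at h5
    exact h5 rfl
  · intro u hu
    obtain ⟨m, hm⟩ := hLex (io u) (hioV u hu)
    rw [← rep_eq u]
    conv_lhs => rw [rep_eq u]
    refine Filter.Germ.coe_eq.2 ?_
    filter_upwards [hOKev m, eventually_ge_atTop m] with n h1 h2
    exact (hth n m h2 h1).2.2 u ⟨hu, hm⟩
  · intro v hv hv1
    obtain ⟨m, hm⟩ := hLex v hv
    refine evFree_coe _ ?_
    filter_upwards [hOKev m, eventually_ge_atTop m] with n h1 h2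
    exact (hth n m h2 h1).2.1 v hm hv1

end Pool.SID
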