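import Pool.Agent.H82.SID.Am
import Pool.Agent.H82.SID.Germ

/-!
# Chains of finite approximations (MP_fe7b28_co)
-/

set_option autoImplicit false

open Equiv Filter

namespace Pool.SID

/-- Countably many requirements for every member of the chain can be met. -/
theorem bookkeeping {P : Type} (le : P → P → Prop) (hrefl : ∀ p, le p p)
    (htrans : ∀ p q r, le p q → le q r → le p r) (R : P → ℕ → P → Prop)
    (hR : ∀ p n q, le p q → ∃ q', le q q' ∧ R p n q') (p0 : P) :
    ∃ s : ℕ → P, s 0 = p0 ∧ (∀ m n, m ≤ n → le (s m) (s n)) ∧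
      ∀ m n, ∃ t, m ≤ t ∧ R (s m) n (s t) := by
  classical
  let next : P → P → ℕ → P := fun q p n => if h : le p q then Classical.choose (hR p n q h) else q
  have hnext1 : ∀ q p n, le q (next q p n) := by
    intro q p n
    by_cases h : le p q
    · simp only [next, h, dif_pos]
      exact (Classical.choose_spec (hR p n q h)).1
    · simp only [next, h, dif_neg, not_false_iff]
      exact hrefl q
  have hnext2 : ∀ q p n, le p q → R p n (next q p n) := by
    intro q p n h
    simp only [next, h, dif_pos]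
    exact (Classical.choose_spec (hR p n q h)).2
  let H : ℕ → ℕ → P := fun t => Nat.rec (fun _ => p0)
    (fun t f m => if m ≤ t then f m else next (f t) (f (Nat.unpair t).1) (Nat.unpair t).2) t
  have hH0 : ∀ m, H 0 m = p0 := fun m => rfl
  have hHs : ∀ t m, H (t + 1) m = if m ≤ t then H t m else
      next (H t t) (H t (Nat.unpair t).1) (Nat.unpair t).2 := fun t m => rfl
  have hH : ∀ t m, m ≤ t → H t m = H m m := by
    intro t
    induction t with
    | zero =>
      intro m hm
      have : m = 0 := by omega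
      subst this
      rfl
    | succ t ih =>
      intro m hm
      by_cases h : m ≤ t
      · rw [hHs, if_pos h, ih m h]
      · have : m = t + 1 := by omega
        subst this
        rfl
  have hstep : ∀ t, H (t + 1) (t + 1) =
      next (H t t) (H (Nat.unpair t).1 (Nat.unpair t).1) (Nat.unpair t).2 := by
    intro t
    rw [hHs, if_neg (by omega), hH t (Nat.unpair t).1 (Nat.unpair_left_le t)]
  have hmono : ∀ m n, m ≤ n → le (H m m) (H n n) := by
    intro m n hmn
    induction n with
    | zero =>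
      have : m = 0 := by omega
      subst this
      exact hrefl _
    | succ n ih =>
      by_cases h : m ≤ n
      · refine htrans _ _ _ (ih h) ?_
        rw [hstep]
        exact hnext1 _ _ _
      · have : m = n + 1 := by omega
        subst this
        exact hrefl _
  refine ⟨fun t => H t t, rfl, hmono, ?_⟩
  intro m n
  refine ⟨Nat.pair m n + 1, (Nat.left_le_pair m n).trans (Nat.le_succ _), ?_⟩
  simp only
  rw [hstep, Nat.unpair_pair]
  exact hnext2 _ _ _ (hmono _ _ (Nat.left_le_pair m n))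

/-- Finite approximations to an extension of `U`. -/
structure Cond (U : Subgroup SS) where
  L : Subgroup (Perm ℕ)
  F : Subgroup SS
  k : SS → Perm ℕ
  Lfin : (L : Set (Perm ℕ)).Finite
  Lfree : ∀ g ∈ L, g ≠ 1 → ∀ z, g z ≠ z
  FU : F ≤ U
  Ffin : (F : Set SS).Finite
  emb : Emb F k
  kL : ∀ f ∈ F, k f ∈ L

/-- Extension of approximations. -/
def Cond.le {U : Subgroup SS} (p q : Cond U) : Prop :=
  p.L ≤ q.L ∧ p.F ≤ q.F ∧ (∀ f ∈ p.F, q.k f = p.k f) ∧ ∀ f ∈ q.F, q.k f ∈ p.L → f ∈ p.F

theorem Cond.le_refl {U : Subgroup SS} (p : Cond U) : p.le p :=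
  ⟨_root_.le_rfl, _root_.le_rfl, fun _ _ => rfl, fun _ h _ => h⟩

theorem Cond.le_trans {U : Subgroup SS} (p q r : Cond U) (h1 : p.le q) (h2 : q.le r) :
    p.le r := by
  refine ⟨h1.1.trans h2.1, h1.2.1.trans h2.2.1, ?_, ?_⟩
  · intro f hf
    rw [h2.2.2.1 f (h1.2.1 hf), h1.2.2.1 f hf]
  · intro f hf hfL
    have h3 : f ∈ q.F := h2.2.2.2 f hf (h1.1 hfL)
    refine h1.2.2.2 f h3 ?_
    rw [← h2.2.2.1 f h3]
    exact hfL

/-- Every element of `U` can be added to the domain. -/
theorem Cond.add {U : Subgroup SS} (hlf : LF U) (p : Cond U) (u : SS) (hu : u ∈ U) :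
    ∃ q : Cond U, p.le q ∧ u ∈ q.F := by
  classical
  set F' : Subgroup SS := p.F ⊔ Subgroup.zpowers u with hF'
  have hFF' : p.F ≤ F' := le_sup_left
  have hF'f : (F' : Set SS).Finite := hlf p.F p.FU p.Ffin u hu
  have i1 : Finite p.L := p.Lfin
  have i2 : Finite F' := hF'f
  have i3 : Finite p.F := p.Ffin
  let a : p.F →* p.L :=
    { toFun := fun f => ⟨p.k f, p.kL f f.2⟩
      map_one' := Subtype.ext p.emb.one
      map_mul' := fun f g => Subtype.ext (p.emb.mul f f.2 g g.2) }
  have ha : Function.Injective a := by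
    intro f g h
    exact Subtype.ext (p.emb.injOn f.2 g.2 (congrArg Subtype.val h))
  obtain ⟨N, f, g, hf, hg, hfg, hAM⟩ := amalgam a (Subgroup.inclusion hFF') ha
    (Subgroup.inclusion_injective hFF')
  obtain ⟨th, hth1, hth2⟩ := free_extend p.L.subtype (by
    intro l hl z
    exact p.Lfree l l.2 (fun h => hl (Subtype.ext h)) z) f hf
  have hthinj : Function.Injective th := by
    rw [injective_iff_map_eq_one]
    intro y hy
    by_contra hne
    have := hth1 y hne 0
    rw [hy] at this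
    exact this rfl
  refine ⟨
    { L := th.range
      F := F'
      k := fun s => if h : s ∈ F' then th (g ⟨s, h⟩) else 1
      Lfin := by
        have : ((th.range : Subgroup (Perm ℕ)) : Set (Perm ℕ)) = Set.range th := rfl
        rw [this]
        exact Set.finite_range th
      Lfree := by
        rintro _ ⟨y, rfl⟩ hy z
        refine hth1 y ?_ z
        rintro rfl
        exact hy (map_one th)
      FU := sup_le p.FU (Subgroup.zpowers_le.2 hu)
      Ffin := hF'f
      emb := ?_
      kL := ?_ }, ⟨?_, hFF', ?_, ?_⟩, ?_⟩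
  · refine ⟨?_, ?_⟩
    · intro s hs t ht
      have hst := F'.mul_mem hs ht
      simp only [hs, ht, hst, dif_pos]
      rw [← map_mul, ← map_mul]
      rfl
    · intro s hs h1
      simp only [hs, dif_pos] at h1
      have h2 : (⟨s, hs⟩ : F') = 1 := hg (hthinj (by rw [h1, map_one, map_one]))
      exact congrArg Subtype.val h2
  · intro s hs
    simp only [hs, dif_pos]
    exact ⟨_, rfl⟩
  · intro l hl
    exact ⟨f ⟨l, hl⟩, hth2 ⟨l, hl⟩⟩
  · intro s hs
    have hs' : s ∈ F' := hFF' hs
    simp only [hs', dif_pos]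
    have h1 := hfg ⟨s, hs⟩
    have h2 : Subgroup.inclusion hFF' ⟨s, hs⟩ = ⟨s, hs'⟩ := rfl
    rw [h2] at h1
    rw [← h1, hth2]
    rfl
  · intro s hs hsL
    have hs0 : s ∈ F' := hs
    simp only [hs0, dif_pos] at hsL
    have h1 : th (g ⟨s, hs0⟩) = th (f ⟨_, hsL⟩) := (hth2 ⟨_, hsL⟩).symm
    have h2 := hthinj h1
    have h3 : (⟨_, hsL⟩ : p.L) ∈ a.range := by
      refine hAM a.range le_rfl _ ?_
      rw [← h2]
      exact Subgroup.mem_sup_right ⟨_, rfl⟩
    obtain ⟨c, hc⟩ := h3
    rw [← hc, hfg] at h2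
    have h4 := hg h2
    have h5 : s = c := congrArg Subtype.val h4
    rw [h5]
    exact c.2
  · exact Subgroup.mem_sup_right (Subgroup.mem_zpowers u)

/-- The witness for a requirement of `p`, in terms of a later approximation `q`. -/
def Wit {U : Subgroup SS} (V : Subgroup SS) (Bp Bm : Set SS) (p q : Cond U) (N : ℕ)
    (j : p.L →* Perm (Fin N)) (x : Perm (Fin N)) : Prop :=
  ∃ (N' : ℕ) (e : Perm (Fin N) →* Perm (Fin N')) (t : Perm ℕ → Perm (Fin N'))
    (Ks : Subgroup (Perm ℕ)),
    Function.Injective e ∧ Emb q.L t ∧ (∀ a : p.L, t a = e (j a)) ∧ p.L ≤ Ks ∧ Ks ≤ q.L ∧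
    (∀ f ∈ q.F, q.k f ∈ Ks) ∧
    (∀ J : Subgroup (Perm (Fin N)), j.range ≤ J →
      ∀ h, e h ∈ J.map e ⊔ Subgroup.closure (t '' Ks) → h ∈ J) ∧
    ({b | b ∈ Bp ∪ Bm ∧ ST (q.F ⊓ V) (fun s => t (q.k s)) (e x) b}.Finite ∨
      ∃ b1 ∈ Bp, b1 ∈ q.F ∧ ∃ b2 ∈ Bm, b2 ∈ q.F ∧
        e x * (t (q.k b1))⁻¹ * e x = t (q.k b2))

/-- Requirements can be met. -/
theorem Cond.meet {U : Subgroup SS} (V : Subgroup SS) (Bp Bm : Set SS) (hs : Seal V U Bp Bm)
    (p q : Cond U) (hpq : p.le q) (N : ℕ) (j : p.L →* Perm (Fin N)) (hj : Function.Injective j)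
    (x : Perm (Fin N)) : ∃ q' : Cond U, q.le q' ∧ Wit V Bp Bm p q' N j x := by
  classical
  have i1 : Finite p.L := p.Lfin
  have i2 : Finite q.L := q.Lfin
  have i3 : Finite q.F := q.Ffin
  obtain ⟨N1, f, g, hf, hg, hfg, hAM⟩ := amalgam j (Subgroup.inclusion hpq.1) hj
    (Subgroup.inclusion_injective hpq.1)
  let i : SS → Perm (Fin N1) := fun s => if h : s ∈ q.F then g ⟨q.k s, q.kL s h⟩ else 1
  have hi' : ∀ s (h : s ∈ q.F), i s = g ⟨q.k s, q.kL s h⟩ := by
    intro s h
    simp only [i, h, dif_pos]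
  have hi : Emb q.F i := by
    refine ⟨?_, ?_⟩
    · intro s hs t ht
      rw [hi' s hs, hi' t ht, hi' _ (q.F.mul_mem hs ht), ← map_mul]
      congr 1
      exact Subtype.ext (q.emb.mul s hs t ht)
    · intro s hs h1
      rw [hi' s hs] at h1
      have h2 : (⟨q.k s, q.kL s hs⟩ : q.L) = 1 := hg (by rw [h1, map_one])
      exact q.emb.inj s hs (congrArg Subtype.val h2)
  obtain ⟨K', n', e, k, hKK', hK'U, hK'f, he, hkE, hke, hsep, hD⟩ :=
    hs q.F q.FU q.Ffin N1 i (f x) hi
  obtain ⟨th, hth1, hth2⟩ := free_extend q.L.subtype (by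
    intro l hl z
    exact q.Lfree l l.2 (fun h => hl (Subtype.ext h)) z) (e.comp g) (he.comp hg)
  have hthinj : Function.Injective th := by
    rw [injective_iff_map_eq_one]
    intro y hy
    by_contra hne
    have := hth1 y hne 0
    rw [hy] at this
    exact this rfl
  have hth2' : ∀ (l : Perm ℕ) (hl : l ∈ q.L), th (e (g ⟨l, hl⟩)) = l := fun l hl => hth2 ⟨l, hl⟩
  let t : Perm ℕ → Perm (Fin n') := fun s => if h : ∃ y, th y = s then Classical.choose h else 1
  have ht : ∀ y, t (th y) = y := by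
    intro y
    have h : ∃ y', th y' = th y := ⟨y, rfl⟩
    simp only [t, h, dif_pos]
    exact hthinj (Classical.choose_spec h)
  refine ⟨
    { L := th.range
      F := K'
      k := fun s => th (k s)
      Lfin := by
        have : ((th.range : Subgroup (Perm ℕ)) : Set (Perm ℕ)) = Set.range th := rfl
        rw [this]
        exact Set.finite_range th
      Lfree := by
        rintro _ ⟨y, rfl⟩ hy z
        refine hth1 y ?_ z
        rintro rfl
        exact hy (map_one th)
      FU := hK'U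
      Ffin := hK'f
      emb := hkE.comp th hthinj
      kL := fun s _ => ⟨_, rfl⟩ }, ⟨?_, hKK', ?_, ?_⟩, ?_⟩
  · intro l hl
    exact ⟨_, hth2' l hl⟩
  · intro s hs
    simp only
    rw [hke s hs, hi' s hs, hth2']
  · intro s hs hsL
    simp only at hsL
    have h1 : th (k s) = th (e (g ⟨_, hsL⟩)) := (hth2' _ hsL).symm
    have h2 := hthinj h1
    have h3 : g ⟨_, hsL⟩ ∈ hi.range := by
      refine hsep hi.range (fun a ha => ⟨a, ha, rfl⟩) _ ?_
      rw [← h2]
      exact Subgroup.mem_sup_right (Subgroup.subset_closure ⟨s, hs, rfl⟩)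
    obtain ⟨a, ha, hag⟩ := h3
    rw [← hag, ← hke a ha] at h2
    have h4 : s = a := hkE.injOn hs (hKK' ha) h2
    rw [h4]
    exact ha
  · have hfun : (fun s => t (th (k s))) = k := funext (fun s => ht (k s))
    refine ⟨n', e.comp f, t, Subgroup.map th ((e.comp g).range ⊔ Subgroup.closure (k '' K')),
      he.comp hf, ?_, ?_, ?_, ?_, ?_, ?_, ?_⟩
    · refine ⟨?_, ?_⟩
      · rintro _ ⟨y, rfl⟩ _ ⟨z, rfl⟩
        rw [← map_mul, ht, ht, ht]
      · rintro _ ⟨y, rfl⟩ h1
        rw [ht] at h1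
        rw [h1, map_one]
    · intro a
      have h1 := hth2' a (hpq.1 a.2)
      have h2 : t a = e (g ⟨a, hpq.1 a.2⟩) := by
        conv_lhs => rw [← h1]
        exact ht _
      rw [h2]
      have h3 := hfg a
      have h4 : Subgroup.inclusion hpq.1 a = ⟨a, hpq.1 a.2⟩ := rfl
      rw [h4] at h3
      rw [← h3]
      rfl
    · intro l hl
      exact ⟨e (g ⟨l, hpq.1 hl⟩), Subgroup.mem_sup_left ⟨_, rfl⟩, hth2' l (hpq.1 hl)⟩
    · rintro _ ⟨y, -, rfl⟩
      exact ⟨y, rfl⟩
    · intro s hs
      exact ⟨k s, Subgroup.mem_sup_right (Subgroup.subset_closure ⟨s, hs, rfl⟩), rfl⟩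
    · intro J hJ h hh
      refine hAM J hJ h ?_
      refine hsep (J.map f ⊔ g.range) ?_ (f h) ?_
      · intro a ha
        rw [hi' a ha]
        exact Subgroup.mem_sup_right ⟨_, rfl⟩
      · have h1 : Subgroup.closure
            (t '' (Subgroup.map th ((e.comp g).range ⊔ Subgroup.closure (k '' K')) :
              Subgroup (Perm ℕ))) ≤ (e.comp g).range ⊔ Subgroup.closure (k '' K') := by
          rw [Subgroup.closure_le]
          rintro _ ⟨_, ⟨y, hy, rfl⟩, rfl⟩
          rw [ht]
          exact hy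
        have h2 : J.map (e.comp f) ⊔ ((e.comp g).range ⊔ Subgroup.closure (k '' K')) ≤
            (J.map f ⊔ g.range).map e ⊔ Subgroup.closure (k '' K') := by
          rw [Subgroup.map_sup, Subgroup.map_map, MonoidHom.range_comp, ← sup_assoc]
        exact h2 (sup_le_sup le_rfl h1 hh)
    · have hfun' : (fun s => t ((fun s => th (k s)) s)) = k := hfun
      simp only [hfun', ht]
      exact hD

end Pool.SID
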