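import Pool.Agent.H82.SID.Order

/-!
# Closure under countably many operations (MP_fe7b28_co)
-/

set_option autoImplicit false

namespace Pool.SID

/-- `M` is closed under the operation `C` from lists to countable sets. -/
def ClosedUnder {X : Type} (C : List X → Set X) (M : Set X) : Prop :=
  ∀ l : List X, (∀ x ∈ l, x ∈ M) → C l ⊆ M

/-- The property follows from the closure under some operation. -/
def ClubProp {X : Type} (Pr : Set X → Prop) : Prop :=
  ∃ C : List X → Set X, (∀ l, (C l).Countable) ∧ ∀ M, ClosedUnder C M → Pr M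

theorem ClubProp.and {X : Type} {Pr Pr' : Set X → Prop} (h : ClubProp Pr) (h' : ClubProp Pr') :
    ClubProp (fun M => Pr M ∧ Pr' M) := by
  obtain ⟨C, hC, h⟩ := h
  obtain ⟨C', hC', h'⟩ := h'
  refine ⟨fun l => C l ∪ C' l, fun l => (hC l).union (hC' l), ?_⟩
  intro M hM
  exact ⟨h M fun l hl => Set.Subset.trans Set.subset_union_left (hM l hl),
    h' M fun l hl => Set.Subset.trans Set.subset_union_right (hM l hl)⟩

theorem ClubProp.mono {X : Type} {Pr Pr' : Set X → Prop} (h : ClubProp Pr)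
    (h' : ∀ M, Pr M → Pr' M) : ClubProp Pr' := by
  obtain ⟨C, hC, h⟩ := h
  exact ⟨C, hC, fun M hM => h' M (h M hM)⟩

theorem ClubProp.rule {X α₁ α₂ α₃ α₄ : Type} (i₁ : α₁ → X) (h₁ : Function.Injective i₁)
    (i₂ : α₂ → X) (h₂ : Function.Injective i₂) (i₃ : α₃ → X) (h₃ : Function.Injective i₃)
    (i₄ : α₄ → X) (h₄ : Function.Injective i₄) (g : α₁ → α₂ → α₃ → α₄ → Set X)
    (hg : ∀ a b c d, (g a b c d).Countable) :
    ClubProp (fun M : Set X => ∀ a b c d, i₁ a ∈ M → i₂ b ∈ M → i₃ c ∈ M → i₄ d ∈ M →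
      g a b c d ⊆ M) := by
  refine ⟨fun l => ⋃ a ∈ i₁ ⁻¹' {x | x ∈ l}, ⋃ b ∈ i₂ ⁻¹' {x | x ∈ l},
    ⋃ c ∈ i₃ ⁻¹' {x | x ∈ l}, ⋃ d ∈ i₄ ⁻¹' {x | x ∈ l}, g a b c d, ?_, ?_⟩
  · intro l
    have hl : {x | x ∈ l}.Countable := (List.finite_toSet l).countable
    refine (hl.preimage h₁).biUnion fun a _ => (hl.preimage h₂).biUnion fun b _ =>
      (hl.preimage h₃).biUnion fun c _ => (hl.preimage h₄).biUnion fun d _ => hg a b c d
  · intro M hM a b c d ha hb hc hd x hx
    refine hM [i₁ a, i₂ b, i₃ c, i₄ d] ?_ ?_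
    · intro y hy
      simp only [List.mem_cons, List.not_mem_nil, or_false] at hy
      rcases hy with rfl | rfl | rfl | rfl
      · exact ha
      · exact hb
      · exact hc
      · exact hd
    · simp only [Set.mem_iUnion]
      exact ⟨a, by simp, b, by simp, c, by simp, d, by simp, hx⟩

theorem ClubProp.const {X : Type} (S : Set X) (hS : S.Countable) :
    ClubProp (fun M : Set X => S ⊆ M) :=
  ⟨fun _ => S, fun _ => hS, fun _ hM => hM [] (by simp)⟩

theorem exists_closed {X : Type} (C : List X → Set X) (hC : ∀ l, (C l).Countable) (S : Set X)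
    (hS : S.Countable) : ∃ M : Set X, M.Countable ∧ S ⊆ M ∧ ClosedUnder C M := by
  let T : ℕ → Set X := fun n => Nat.rec S (fun _ M => M ∪ ⋃ l ∈ {l : List X | ∀ x ∈ l, x ∈ M}, C l) n
  have hT : ∀ n, T (n + 1) = T n ∪ ⋃ l ∈ {l : List X | ∀ x ∈ l, x ∈ T n}, C l := fun n => rfl
  have hlist : ∀ M : Set X, M.Countable → {l : List X | ∀ x ∈ l, x ∈ M}.Countable := by
    intro M hM
    have : Countable M := hM
    rw [← Set.range_list_map_coe M]
    exact Set.countable_range _
  have hcount : ∀ n, (T n).Countable := by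
    intro n
    induction n with
    | zero => exact hS
    | succ n ih =>
      rw [hT]
      exact ih.union ((hlist _ ih).biUnion fun l _ => hC l)
  have hmono : Monotone T := by
    refine monotone_nat_of_le_succ ?_
    intro n
    rw [hT]
    exact Set.subset_union_left
  refine ⟨⋃ n, T n, Set.countable_iUnion hcount, ?_, ?_⟩
  · exact Set.subset_iUnion T 0
  · intro l hl
    have h1 : ∃ n, ∀ x ∈ l, x ∈ T n := by
      induction l with
      | nil => exact ⟨0, by simp⟩
      | cons a l ih =>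
        obtain ⟨n, hn⟩ := ih fun x hx => hl x (List.mem_cons_of_mem _ hx)
        obtain ⟨m, hm⟩ := Set.mem_iUnion.1 (hl a List.mem_cons_self)
        refine ⟨max n m, ?_⟩
        intro x hx
        rcases List.mem_cons.1 hx with rfl | hx
        · exact hmono (le_max_right _ _) hm
        · exact hmono (le_max_left _ _) (hn x hx)
    obtain ⟨n, hn⟩ := h1
    intro x hx
    refine Set.mem_iUnion.2 ⟨n + 1, ?_⟩
    rw [hT]
    refine Or.inr ?_
    rw [Set.mem_iUnion₂]
    exact ⟨l, hn, hx⟩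

end Pool.SID
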