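import Mathlib

/-!
# Order-theoretic lemmas for the diamond argument (MP_fe7b28_co)
-/

set_option autoImplicit false

namespace Pool.SID

/-- Closed and unbounded subsets of a well-order without countable cofinal subsets. -/
def IsClub {I : Type} [LinearOrder I] (C : Set I) : Prop :=
  (∀ a, ∃ c ∈ C, a < c) ∧
    ∀ a, (∃ b, b < a) → (∀ b, b < a → ∃ c ∈ C, b < c ∧ c < a) → a ∈ C

theorem exists_ub {I : Type} [LinearOrder I] (hI : ∀ a : I, (Set.Iio a).Countable)
    (hu : Uncountable I) (s : Set I) (hs : s.Countable) : ∃ b, ∀ a ∈ s, a < b := by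
  by_contra hcon
  push Not at hcon
  have h1 : (Set.univ : Set I) ⊆ ⋃ a ∈ s, insert a (Set.Iio a) := by
    intro b _
    obtain ⟨a, ha, hab⟩ := hcon b
    rw [Set.mem_iUnion₂]
    refine ⟨a, ha, ?_⟩
    rcases hab.lt_or_eq with h | h
    · exact Or.inr h
    · exact Or.inl h
  have h2 : (⋃ a ∈ s, insert a (Set.Iio a)).Countable :=
    hs.biUnion fun a _ => (hI a).insert a
  have h3 : (Set.univ : Set I).Countable := h2.mono h1
  rw [Set.countable_univ_iff] at h3
  exact not_countable h3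

theorem club_closed {I : Type} [LinearOrder I] [WellFoundedLT I]
    (hI : ∀ a : I, (Set.Iio a).Countable)
    (hu : Uncountable I) (h : I → I) :
    IsClub {a : I | (∃ b, b < a) ∧ ∀ b, b < a → h b < a} := by
  refine ⟨?_, ?_⟩
  · intro a
    have h1 : ∀ c : I, ∃ d, c < d ∧ ∀ b, b ≤ c → h b < d := by
      intro c
      obtain ⟨d, hd⟩ := exists_ub hI hu (insert c (h '' insert c (Set.Iio c)))
        ((((hI c).insert c).image h).insert c)
      refine ⟨d, hd c (Or.inl rfl), ?_⟩
      intro b hb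
      refine hd _ (Or.inr ⟨b, ?_, rfl⟩)
      rcases hb.lt_or_eq with h | h
      · exact Or.inr h
      · exact Or.inl h
    choose g hg1 hg2 using h1
    let t : ℕ → I := fun n => Nat.rec a (fun _ c => g c) n
    have ht : ∀ n, t (n + 1) = g (t n) := fun n => rfl
    have hne : {c : I | ∀ n, t n < c}.Nonempty := by
      obtain ⟨d, hd⟩ := exists_ub hI hu (Set.range t) (Set.countable_range t)
      exact ⟨d, fun n => hd _ ⟨n, rfl⟩⟩
    set c := (wellFounded_lt (α := I)).min {c : I | ∀ n, t n < c} hne with hc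
    have hc1 : ∀ n, t n < c := (wellFounded_lt (α := I)).min_mem _ hne
    have hc2 : ∀ b, b < c → ∃ n, b ≤ t n := by
      intro b hb
      by_contra hcon
      push Not at hcon
      exact (wellFounded_lt (α := I)).not_lt_min {c : I | ∀ n, t n < c} hcon hb
    refine ⟨c, ⟨⟨a, hc1 0⟩, ?_⟩, hc1 0⟩
    intro b hb
    obtain ⟨n, hn⟩ := hc2 b hb
    exact (hg2 (t n) b hn).trans (hc1 (n + 1))
  · intro a ha hlim
    refine ⟨ha, ?_⟩
    intro b hb
    obtain ⟨c, hc, hbc, hca⟩ := hlim b hb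
    exact (hc.2 b hbc).trans hca

/-- Splitting countably many infinite sets. -/
theorem exists_split {I : Type} (Y : Set (Set I)) (hY : Y.Countable)
    (hinf : ∀ y ∈ Y, y.Infinite) :
    ∃ C : Set I, ∀ y ∈ Y, (∃ a ∈ y, a ∈ C) ∧ (∃ a ∈ y, a ∉ C) := by
  classical
  rcases Y.eq_empty_or_nonempty with rfl | hne
  · exact ⟨∅, fun y hy => absurd hy (Set.notMem_empty y)⟩
  obtain ⟨v, hv⟩ := hY.exists_eq_range hne
  have hvi : ∀ n, (v n).Infinite := fun n => hinf _ (by rw [hv]; exact ⟨n, rfl⟩)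
  have h1 : ∀ (n : ℕ) (s : Finset I), ∃ a, a ∈ v (n / 2) ∧ a ∉ s := by
    intro n s
    exact (hvi (n / 2)).exists_notMem_finset s
  choose g hg1 hg2 using h1
  let s : ℕ → Finset I := fun n => Nat.rec ∅ (fun k t => insert (g k t) t) n
  have hs : ∀ n, s (n + 1) = insert (g n (s n)) (s n) := fun n => rfl
  have hmono : Monotone s := by
    refine monotone_nat_of_le_succ ?_
    intro n
    rw [hs]
    exact Finset.subset_insert _ _
  have hinj : ∀ m n, m < n → g m (s m) ≠ g n (s n) := by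
    intro m n hmn heq
    have h2 : g m (s m) ∈ s n := by
      refine hmono (Nat.succ_le_of_lt hmn) ?_
      rw [Nat.succ_eq_add_one, hs]
      exact Finset.mem_insert_self _ _
    rw [heq] at h2
    exact hg2 n (s n) h2
  refine ⟨{a | ∃ m, a = g (2 * m) (s (2 * m))}, ?_⟩
  intro y hy
  rw [hv] at hy
  obtain ⟨m, rfl⟩ := hy
  refine ⟨⟨g (2 * m) (s (2 * m)), ?_, ⟨m, rfl⟩⟩, ⟨g (2 * m + 1) (s (2 * m + 1)), ?_, ?_⟩⟩
  · have := hg1 (2 * m) (s (2 * m))
    rwa [show 2 * m / 2 = m by omega] at this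
  · have := hg1 (2 * m + 1) (s (2 * m + 1))
    rwa [show (2 * m + 1) / 2 = m by omega] at this
  · rintro ⟨j, hj⟩
    rcases lt_trichotomy (2 * m + 1) (2 * j) with h | h | h
    · exact hinj _ _ h hj
    · omega
    · exact hinj _ _ h hj.symm

end Pool.SID
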