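import Pool.Agent.H82.SID.Tower
import Pool.Agent.H82.SID.Order

/-!
# The guesses and the splitting sets (MP_fe7b28_co)
-/

set_option autoImplicit false

open Equiv Filter

namespace Pool.SID

theorem exists_enum (U : Subgroup SS) : ∃ v : ℕ → SS, (U : Set SS).Countable →
    (∀ n, v n ∈ U) ∧ ∀ x ∈ U, ∃ n, v n = x := by
  by_cases h : (U : Set SS).Countable
  · obtain ⟨v, hv⟩ := h.exists_eq_range ⟨1, U.one_mem⟩
    refine ⟨v, fun _ => ⟨?_, ?_⟩⟩
    · intro n
      have : v n ∈ (U : Set SS) := by rw [hv]; exact ⟨n, rfl⟩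
      exact this
    · intro x hx
      have : x ∈ (U : Set SS) := hx
      rw [hv] at this
      exact this
  · exact ⟨fun _ => 1, fun h' => absurd h' h⟩

/-- An enumeration of a countable group. -/
noncomputable def En (U : Subgroup SS) : ℕ → SS := Classical.choose (exists_enum U)

theorem En_mem {U : Subgroup SS} (h : (U : Set SS).Countable) (n : ℕ) : En U n ∈ U :=
  (Classical.choose_spec (exists_enum U) h).1 n

theorem exists_En {U : Subgroup SS} (h : (U : Set SS).Countable) {x : SS} (hx : x ∈ U) :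
    ∃ n, En U n = x :=
  (Classical.choose_spec (exists_enum U) h).2 x hx

variable {I : Type} [LinearOrder I]

open Classical in
/-- The guessed map below `a`. -/
noncomputable def phi (e : I × (I × ℕ) → I) (A : I → Set I) (a : I) (f : I → Subgroup SS)
    (ξ : I) : SS :=
  if h : ∃ p : I × ℕ, p.1 < a ∧ e (ξ, p) ∈ A a then
    En (f (Classical.choose h).1) (Classical.choose h).2 else 1

/-- The index set of a type class. -/
def YY (e : I × (I × ℕ) → I) (A : I → Set I) (a : I) (f : I → Subgroup SS)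
    (K : Subgroup SS) (n : ℕ) (k : SS → Perm (Fin n)) (y : Perm (Fin n)) : Set I :=
  {ξ | ξ < a ∧ phi e A a f ξ ∈ f a ∧ ST K k y (phi e A a f ξ)}

theorem types_countable {α : Type} (U : Subgroup SS) (hU : (U : Set SS).Countable)
    (F : (K : Subgroup SS) → (n : ℕ) → (SS → Perm (Fin n)) → Perm (Fin n) → Set α)
    (hF : ∀ K n k k' y, (∀ a ∈ K, k' a = k a) → F K n k y = F K n k' y) :
    {Z : Set α | ∃ K : Subgroup SS, K ≤ U ∧ (K : Set SS).Finite ∧ ∃ (n : ℕ)
      (k : SS → Perm (Fin n)) (y : Perm (Fin n)), Z = F K n k y}.Countable := by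
  classical
  have h1 : {K : Subgroup SS | K ≤ U ∧ (K : Set SS).Finite}.Countable := by
    refine Set.MapsTo.countable_of_injOn (f := fun K : Subgroup SS => (K : Set SS))
      (t := {t : Set SS | t.Finite ∧ t ⊆ U}) ?_ ?_ (Set.countable_setOf_finite_subset hU)
    · intro K hK
      exact ⟨hK.2, hK.1⟩
    · intro K _ K' _ h
      exact SetLike.coe_injective h
  have h2 : {Z : Set α | ∃ K : Subgroup SS, K ≤ U ∧ (K : Set SS).Finite ∧ ∃ (n : ℕ)
      (k : SS → Perm (Fin n)) (y : Perm (Fin n)), Z = F K n k y} ⊆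
      ⋃ K ∈ {K : Subgroup SS | K ≤ U ∧ (K : Set SS).Finite}, ⋃ n : ℕ,
        ⋃ y : Perm (Fin n), Set.range (fun g : K → Perm (Fin n) =>
          F K n (fun s => if h : s ∈ K then g ⟨s, h⟩ else 1) y) := by
    rintro Z ⟨K, hK, hKf, n, k, y, rfl⟩
    rw [Set.mem_iUnion₂]
    refine ⟨K, ⟨hK, hKf⟩, ?_⟩
    rw [Set.mem_iUnion]
    refine ⟨n, ?_⟩
    rw [Set.mem_iUnion]
    refine ⟨y, fun s => k s, ?_⟩
    refine (hF K n k _ y ?_).symm
    intro a ha
    simp [ha]
  refine Set.Countable.mono h2 ?_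
  refine h1.biUnion ?_
  intro K hK
  refine Set.countable_iUnion fun n => Set.countable_iUnion fun y => ?_
  have : Finite K := hK.2
  have : Finite (K → Perm (Fin n)) := inferInstance
  exact Set.countable_range _

/-- The infinite type classes that have to be split. -/
def fam (e : I × (I × ℕ) → I) (A : I → Set I) (a : I) (f : I → Subgroup SS) : Set (Set I) :=
  {Z | Z.Infinite ∧ ∃ K : Subgroup SS, K ≤ f a ∧ (K : Set SS).Finite ∧ ∃ (n : ℕ)
      (k : SS → Perm (Fin n)) (y : Perm (Fin n)), Z = YY e A a f K n k y}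

theorem fam_countable (e : I × (I × ℕ) → I) (A : I → Set I) (a : I) (f : I → Subgroup SS)
    (hf : (f a : Set SS).Countable) : (fam e A a f).Countable := by
  refine Set.Countable.mono (fun Z hZ => hZ.2)
    (types_countable (f a) hf (fun K n k y => YY e A a f K n k y) ?_)
  intro K n k k' y hk
  ext ξ
  constructor
  · rintro ⟨h1, h2, h3⟩
    exact ⟨h1, h2, ST_congr rfl hk h3⟩
  · rintro ⟨h1, h2, h3⟩
    exact ⟨h1, h2, ST_congr rfl (fun a ha => (hk a ha).symm) h3⟩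

theorem exists_CC (e : I × (I × ℕ) → I) (A : I → Set I) (a : I) (f : I → Subgroup SS) :
    ∃ C : Set I, (f a : Set SS).Countable →
      ∀ y ∈ fam e A a f, (∃ b ∈ y, b ∈ C) ∧ (∃ b ∈ y, b ∉ C) := by
  by_cases h : (f a : Set SS).Countable
  · obtain ⟨C, hC⟩ := exists_split (fam e A a f) (fam_countable e A a f h) (fun y hy => hy.1)
    exact ⟨C, fun _ => hC⟩
  · exact ⟨∅, fun h' => absurd h' h⟩

/-- The splitting set: the neighbourhood of `a` among the smaller elements. -/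
noncomputable def CC (e : I × (I × ℕ) → I) (A : I → Set I) (a : I) (f : I → Subgroup SS) :
    Set I :=
  Classical.choose (exists_CC e A a f)

theorem CC_spec (e : I × (I × ℕ) → I) (A : I → Set I) (a : I) (f : I → Subgroup SS)
    (hf : (f a : Set SS).Countable) :
    ∀ y ∈ fam e A a f, (∃ b ∈ y, b ∈ CC e A a f) ∧ (∃ b ∈ y, b ∉ CC e A a f) :=
  Classical.choose_spec (exists_CC e A a f) hf

/-- Guessed values at neighbours. -/
def BP (e : I × (I × ℕ) → I) (A : I → Set I) (a : I) (f : I → Subgroup SS) : Set SS :=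
  {b | ∃ ξ, ξ < a ∧ ξ ∈ CC e A a f ∧ phi e A a f ξ ∈ f a ∧ b = phi e A a f ξ}

/-- Guessed values at non-neighbours. -/
def BM (e : I × (I × ℕ) → I) (A : I → Set I) (a : I) (f : I → Subgroup SS) : Set SS :=
  {b | ∃ ξ, ξ < a ∧ ξ ∉ CC e A a f ∧ phi e A a f ξ ∈ f a ∧ b = phi e A a f ξ}

theorem BP_BM (e : I × (I × ℕ) → I) (A : I → Set I) (a : I) (f : I → Subgroup SS)
    (hf : Good (f a)) :
    BP e A a f ⊆ f a ∧ BM e A a f ⊆ f a ∧ Splits (f a) (BP e A a f) (BM e A a f) := by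
  refine ⟨?_, ?_, ?_⟩
  · rintro _ ⟨ξ, -, -, h, rfl⟩
    exact h
  · rintro _ ⟨ξ, -, -, h, rfl⟩
    exact h
  · intro K hK hKf n k y _ hinf
    have h1 : (YY e A a f K n k y).Infinite := by
      intro hfin
      refine hinf ((hfin.image (phi e A a f)).subset ?_)
      rintro b ⟨hb, hbS⟩
      rcases hb with ⟨ξ, h1, -, h2, rfl⟩ | ⟨ξ, h1, -, h2, rfl⟩
      · exact ⟨ξ, ⟨h1, h2, hbS⟩, rfl⟩
      · exact ⟨ξ, ⟨h1, h2, hbS⟩, rfl⟩
    have h2 : YY e A a f K n k y ∈ fam e A a f := ⟨h1, K, hK, hKf, n, k, y, rfl⟩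
    obtain ⟨⟨ξ, hξ, hξC⟩, ⟨ζ, hζ, hζC⟩⟩ := CC_spec e A a f hf.count _ h2
    exact ⟨⟨_, ⟨ξ, hξ.1, hξC, hξ.2.1, rfl⟩, hξ.2.2⟩, ⟨_, ⟨ζ, hζ.1, hζC, hζ.2.1, rfl⟩, hζ.2.2⟩⟩

end Pool.SID
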