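import Pool.Agent.H82.SID.Order

/-!
# Definitions for MP_fe7b28_co

The diamond principle, proper forcing notions, the proper forcing axiom, and the question
whether aleph one works for aleph one.
-/

set_option autoImplicit false

namespace Pool.SID

open Cardinal

/-- The first uncountable ordinal, as a well-ordered type. -/
abbrev Omega1 : Type := (Cardinal.aleph 1).ord.ToType

/-- Jensen's diamond principle for `omega_1`: there are sets `A a`, such that for every subset
`X` of `omega_1` the set of all `a` with `X ∩ a = A a ∩ a` meets every closed unbounded set. -/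
def Diamond : Prop :=
  ∃ A : Omega1 → Set Omega1, ∀ X C : Set Omega1, IsClub C →
    ∃ a ∈ C, X ∩ Set.Iio a = A a ∩ Set.Iio a

/-- `D` is dense in the forcing notion `P`. -/
def DenseIn {P : Type} [Preorder P] (D : Set P) : Prop := ∀ p, ∃ d ∈ D, d ≤ p

/-- The forcing notion `P` is proper (Shelah): for some set `P ⊔ Set P ⊔ Y` containing `P` and
the set of its subsets, and some operation `C` assigning countable sets to finite sequences,
every countable set `M` closed under `C` has the following property. For every `p ∈ P ∩ M` there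
is `q ≤ p` which is `M`-generic: for each dense set `D ∈ M` the set `D ∩ M` is predense below
`q`. -/
def Proper (P : Type) [Preorder P] : Prop :=
  ∃ (Y : Type) (C : List (P ⊕ (Set P ⊕ Y)) → Set (P ⊕ (Set P ⊕ Y))),
    (∀ l, (C l).Countable) ∧
    ∀ M : Set (P ⊕ (Set P ⊕ Y)), M.Countable → (∀ l : List (P ⊕ (Set P ⊕ Y)),
      (∀ x ∈ l, x ∈ M) → C l ⊆ M) →
      ∀ p : P, Sum.inl p ∈ M → ∃ q, q ≤ p ∧
        ∀ D : Set P, Sum.inr (Sum.inl D) ∈ M → DenseIn D →
          ∀ r, r ≤ q → ∃ d ∈ D, Sum.inl d ∈ M ∧ ∃ t, t ≤ r ∧ t ≤ d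

/-- The proper forcing axiom: for every proper forcing notion and every family of `aleph_1` dense
sets there is a filter meeting all of them. -/
def PFA : Prop :=
  ∀ (P : Type) [Preorder P], Nonempty P → Proper P →
    ∀ D : Omega1 → Set P, (∀ a, DenseIn (D a)) →
      ∃ F : Set P, (∀ p ∈ F, ∀ q, p ≤ q → q ∈ F) ∧
        (∀ p ∈ F, ∀ q ∈ F, ∃ r ∈ F, r ≤ p ∧ r ≤ q) ∧ ∀ a, ∃ p ∈ F, p ∈ D a

/-- The connection sets of Cayley graphs: `1` is not in `S`, `S` is closed under inverses and
`S` generates the group. -/
structure IsConnectionSet {G : Type} [Group G] (S : Set G) : Prop where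
  one_notMem : (1 : G) ∉ S
  inv_mem : ∀ s ∈ S, s⁻¹ ∈ S
  generates : Subgroup.closure S = ⊤

/-- `X` embeds as an induced subgraph in the Cayley graph of `G` with connection set `S`, in
which `x` and `y` are adjacent iff `x⁻¹ * y ∈ S`. -/
def EmbedsInduced {V G : Type} [Group G] (X : SimpleGraph V) (S : Set G) : Prop :=
  ∃ φ : V → G, Function.Injective φ ∧ ∀ u v, X.Adj u v ↔ (φ u)⁻¹ * φ v ∈ S

/-- `aleph_1` works for `aleph_1`: for every graph `X` of order `aleph_1` every group of order at
least `aleph_1` has a Cayley graph which contains `X` as an induced subgraph. -/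
def AlephOneWorks : Prop :=
  ∀ (V : Type) (X : SimpleGraph V), #V = Cardinal.aleph 1 →
    ∀ (G : Type) [Group G], Cardinal.aleph 1 ≤ #G →
      ∃ S : Set G, IsConnectionSet S ∧ EmbedsInduced X S

end Pool.SID
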