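import Pool.Agent.H82.SID.Chain

/-!
# The extension step (MP_fe7b28_co)
-/

set_option autoImplicit false

open Equiv Filter

namespace Pool.SID

theorem ST_congr {S H : Type} [Group S] [Group H] {K K' : Subgroup S} {k k' : S → H} {y : H}
    {b : S} (hK : K' = K) (hk : ∀ a ∈ K, k' a = k a) (h : ST K k y b) : ST K' k' y b := by
  subst hK
  obtain ⟨th, h1, h2, h3⟩ := h
  exact ⟨th, h1, fun a ha => by rw [h2 a ha, hk a ha], h3⟩

/-- A nontrivial first approximation. -/
theorem exists_first (U : Subgroup SS) : ∃ p : Cond U, p.F = ⊥ ∧ ∃ g ∈ p.L, g ≠ 1 := by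
  let H : Type := Perm (Fin 2)
  obtain ⟨th, hth1, -⟩ := free_extend (F := Unit) (H := Perm (Fin 2)) (1 : Unit →* Perm ℕ)
    (by intro f hf; exact absurd (Subsingleton.elim f 1) hf) (1 : Unit →* Perm (Fin 2))
    (by intro a b _; exact Subsingleton.elim a b)
  refine ⟨
    { L := th.range
      F := ⊥
      k := fun _ => 1
      Lfin := by
        have : ((th.range : Subgroup (Perm ℕ)) : Set (Perm ℕ)) = Set.range th := rfl
        rw [this]
        exact Set.finite_range th
      Lfree := by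
        rintro _ ⟨y, rfl⟩ hy z
        refine hth1 y ?_ z
        rintro rfl
        exact hy (map_one th)
      FU := bot_le
      Ffin := by simp
      emb := ⟨fun _ _ _ _ => (mul_one 1).symm, fun a ha _ => Subgroup.mem_bot.1 ha⟩
      kL := fun _ _ => Subgroup.one_mem _ }, rfl, th (Equiv.swap 0 1), ⟨_, rfl⟩, ?_⟩
  intro h
  have h1 := hth1 (Equiv.swap 0 1) (by decide) 0
  rw [h] at h1
  exact h1 rfl

/-- The extension step. -/
theorem extension (U : Subgroup SS) (hU : Good U) (ι : Type) [Countable ι]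
    (V : ι → Subgroup SS) (Bp Bm : ι → Set SS) (hVU : ∀ i, V i ≤ U)
    (hseal : ∀ i, Seal (V i) U (Bp i) (Bm i)) :
    ∃ W : Subgroup SS, Good W ∧ U ≤ W ∧ U ≠ W ∧ ∀ i, Seal (V i) W (Bp i) (Bm i) := by
  classical
  have hUc : Countable U := hU.count
  -- the codes of the requirements
  let Code : Cond U → Type := fun p => U ⊕ (Σ N : ℕ, (p.L →* Perm (Fin N)) × Perm (Fin N) × ι)
  have hcode : ∀ p : Cond U, Countable (Option (Code p)) := by
    intro p
    have i1 : Finite p.L := p.Lfin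
    have i2 : ∀ N : ℕ, Countable (p.L →* Perm (Fin N)) := by
      intro N
      have : Finite (p.L → Perm (Fin N)) := inferInstance
      exact (DFunLike.coe_injective (F := p.L →* Perm (Fin N))).countable
    have i3 : Countable (Σ N : ℕ, (p.L →* Perm (Fin N)) × Perm (Fin N) × ι) := by
      have : ∀ N : ℕ, Countable ((p.L →* Perm (Fin N)) × Perm (Fin N) × ι) := by
        intro N
        have := i2 N
        infer_instance
      infer_instance
    have i4 : Countable (Code p) := by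
      change Countable (U ⊕ (Σ N : ℕ, (p.L →* Perm (Fin N)) × Perm (Fin N) × ι))
      infer_instance
    infer_instance
  have hen : ∀ p : Cond U, ∃ f : ℕ → Option (Code p), Function.Surjective f := by
    intro p
    have := hcode p
    exact exists_surjective_nat _
  choose en hen using hen
  let RR : (p : Cond U) → Option (Code p) → Cond U → Prop := fun p c q =>
    match c with
    | none => True
    | some (Sum.inl u) => (u : SS) ∈ q.F
    | some (Sum.inr ⟨N, j, x, i⟩) => Function.Injective j → Wit (V i) (Bp i) (Bm i) p q N j x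
  obtain ⟨p0, hp0F, g0, hg0, hg01⟩ := exists_first U
  obtain ⟨s, hs0, hsmono, hsR⟩ := bookkeeping (P := Cond U) Cond.le Cond.le_refl Cond.le_trans
    (fun p n q => RR p (en p n) q) (by
      intro p n q hpq
      have key : ∀ c : Option (Code p), ∃ q' : Cond U, q.le q' ∧ RR p c q' := by
        intro c
        match c with
        | none => exact ⟨q, q.le_refl, trivial⟩
        | some (Sum.inl u) => exact q.add hU.lf u u.2
        | some (Sum.inr ⟨N, j, x, i⟩) =>
          by_cases hj : Function.Injective j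
          · obtain ⟨q', h1, h2⟩ := Cond.meet (V i) (Bp i) (Bm i) (hseal i) p q hpq N j hj x
            exact ⟨q', h1, fun _ => h2⟩
          · exact ⟨q, q.le_refl, fun h => absurd h hj⟩
      exact key (en p n)) p0
  have hadd : ∀ u ∈ U, ∃ t, u ∈ (s t).F := by
    intro u hu
    obtain ⟨n, hn⟩ := hen (s 0) (some (Sum.inl ⟨u, hu⟩))
    obtain ⟨t, -, ht⟩ := hsR 0 n
    simp only [hn] at ht
    exact ⟨t, ht⟩
  have hwit : ∀ (m : ℕ) (N : ℕ) (j : (s m).L →* Perm (Fin N)) (x : Perm (Fin N)) (i : ι),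
      Function.Injective j → ∃ t, m ≤ t ∧ Wit (V i) (Bp i) (Bm i) (s m) (s t) N j x := by
    intro m N j x i hj
    obtain ⟨n, hn⟩ := hen (s m) (some (Sum.inr ⟨N, j, x, i⟩))
    obtain ⟨t, hmt, ht⟩ := hsR m n
    simp only [hn] at ht
    exact ⟨t, hmt, ht hj⟩
  -- the union
  have hLmono : ∀ m n, m ≤ n → (s m).L ≤ (s n).L := fun m n h => (hsmono m n h).1
  have hFmono : ∀ m n, m ≤ n → (s m).F ≤ (s n).F := fun m n h => (hsmono m n h).2.1
  let V1 : Subgroup (Perm ℕ) := ⨆ t, (s t).L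
  have hdir : Directed (· ≤ ·) (fun t => (s t).L) := fun m n =>
    ⟨max m n, hLmono _ _ (le_max_left _ _), hLmono _ _ (le_max_right _ _)⟩
  have hV1 : ∀ v, v ∈ V1 ↔ ∃ t, v ∈ (s t).L := fun v => Subgroup.mem_iSup_of_directed hdir
  have hLV1 : ∀ t, (s t).L ≤ V1 := fun t => le_iSup (fun t => (s t).L) t
  have hV1fin : ∀ K : Subgroup (Perm ℕ), K ≤ V1 → (K : Set (Perm ℕ)).Finite →
      ∃ t, K ≤ (s t).L := by
    intro K hK hKf
    have h1 : ∀ v : Perm ℕ, ∃ t, v ∈ K → v ∈ (s t).L := by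
      intro v
      by_cases hv : v ∈ K
      · obtain ⟨t, ht⟩ := (hV1 v).1 (hK hv)
        exact ⟨t, fun _ => ht⟩
      · exact ⟨0, fun h => absurd h hv⟩
    choose t ht using h1
    obtain ⟨M, hM⟩ := (hKf.image t).bddAbove
    exact ⟨M, fun v hv => hLmono _ _ (hM ⟨v, hv, rfl⟩) (ht v hv)⟩
  have hV1c : (V1 : Set (Perm ℕ)).Countable := by
    have : (V1 : Set (Perm ℕ)) = ⋃ t, ((s t).L : Set (Perm ℕ)) := by
      ext v
      rw [Set.mem_iUnion]
      exact hV1 v
    rw [this]
    exact Set.countable_iUnion (fun t => (s t).Lfin.countable)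
  have hV1lf : LF V1 := by
    intro K hK hKf u hu
    obtain ⟨t, ht⟩ := hV1fin K hK hKf
    obtain ⟨t', ht'⟩ := (hV1 u).1 hu
    refine ((s (max t t')).Lfin).subset ?_
    exact sup_le (ht.trans (hLmono _ _ (le_max_left _ _)))
      (Subgroup.zpowers_le.2 (hLmono _ _ (le_max_right _ _) ht'))
  -- the embedding of U into the union
  choose! tt htt using hadd
  let io : SS → Perm ℕ := fun u => (s (tt u)).k u
  have hioeq : ∀ u ∈ U, ∀ t, u ∈ (s t).F → (s t).k u = io u := by
    intro u hu t ht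
    have h1 := (hsmono t (max t (tt u)) (le_max_left _ _)).2.2.1 u ht
    have h2 := (hsmono (tt u) (max t (tt u)) (le_max_right _ _)).2.2.1 u (htt u hu)
    rw [← h1, h2]
  have hioV : ∀ u ∈ U, io u ∈ V1 := fun u hu => hLV1 _ ((s (tt u)).kL u (htt u hu))
  have hio : Emb U io := by
    refine ⟨?_, ?_⟩
    · intro a ha b hb
      have h1 := hFmono _ _ (le_max_left (tt a) (tt b)) (htt a ha)
      have h2 := hFmono _ _ (le_max_right (tt a) (tt b)) (htt b hb)
      rw [← hioeq a ha _ h1, ← hioeq b hb _ h2,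
        ← hioeq (a * b) (U.mul_mem ha hb) _ (Subgroup.mul_mem _ h1 h2)]
      exact (s _).emb.mul a h1 b h2
    · intro a ha h1
      exact (s (tt a)).emb.inj a (htt a ha) h1
  have hpure : ∀ u ∈ U, ∀ t, io u ∈ (s t).L → u ∈ (s t).F := by
    intro u hu t ht
    have h2 := hFmono _ _ (le_max_right t (tt u)) (htt u hu)
    refine (hsmono t (max t (tt u)) (le_max_left _ _)).2.2.2 u h2 ?_
    rw [hioeq u hu _ h2]
    exact ht
  obtain ⟨rho, hrho, hrhoio, hrhofree⟩ := embed_over U hU.free V1 hV1c hV1lf io hio hioV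
  -- the inverse of rho
  let sg : SS → Perm ℕ := fun y => if h : ∃ v ∈ V1, rho v = y then Classical.choose h else 1
  have hsg : ∀ v ∈ V1, sg (rho v) = v := by
    intro v hv
    have h : ∃ v' ∈ V1, rho v' = rho v := ⟨v, hv, rfl⟩
    simp only [sg, h, dif_pos]
    exact hrho.injOn (Classical.choose_spec h).1 hv (Classical.choose_spec h).2
  refine ⟨hrho.range, ⟨?_, ?_, ?_⟩, ?_, ?_, ?_⟩
  · exact hV1c.image rho
  · -- locally finite
    intro K hK hKf y hy
    obtain ⟨v, hv, rfl⟩ := hy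
    let Kt : Subgroup (Perm ℕ) :=
      { carrier := {w | w ∈ V1 ∧ rho w ∈ K}
        one_mem' := ⟨V1.one_mem, by rw [hrho.one]; exact K.one_mem⟩
        mul_mem' := by
          rintro a b ⟨ha, ha'⟩ ⟨hb, hb'⟩
          exact ⟨V1.mul_mem ha hb, by rw [hrho.mul a ha b hb]; exact K.mul_mem ha' hb'⟩
        inv_mem' := by
          rintro a ⟨ha, ha'⟩
          exact ⟨V1.inv_mem ha, by rw [hrho.inv ha]; exact K.inv_mem ha'⟩ }
    have hKtV : Kt ≤ V1 := fun w hw => hw.1
    have hKtf : (Kt : Set (Perm ℕ)).Finite := by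
      refine Set.Finite.of_injOn (f := rho) (t := (K : Set SS)) (fun w hw => hw.2) ?_ hKf
      intro a ha b hb h
      exact hrho.injOn ha.1 hb.1 h
    have h1 := hV1lf Kt hKtV hKtf v hv
    have h2 : Kt ⊔ Subgroup.zpowers v ≤ V1 := sup_le hKtV (Subgroup.zpowers_le.2 hv)
    have h3 : K ⊔ Subgroup.zpowers (rho v) ≤ (hrho.mono h2).range := by
      refine sup_le ?_ (Subgroup.zpowers_le.2 ⟨v, Subgroup.mem_sup_right
        (Subgroup.mem_zpowers v), rfl⟩)
      intro y hy
      obtain ⟨w, hw, rfl⟩ := hK hy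
      exact ⟨w, Subgroup.mem_sup_left ⟨hw, hy⟩, rfl⟩
    exact (h1.image rho).subset h3
  · rintro _ ⟨v, hv, rfl⟩ hne
    refine hrhofree v hv ?_
    rintro rfl
    exact hne hrho.one
  · intro u hu
    exact ⟨io u, hioV u hu, hrhoio u hu⟩
  · intro hUW
    have h1 : g0 ∈ (s 0).L := by rw [hs0]; exact hg0
    have h2 : rho g0 ∈ U := by
      rw [hUW]
      exact ⟨g0, hLV1 0 h1, rfl⟩
    have h3 : io (rho g0) = g0 := hrho.injOn (hioV _ h2) (hLV1 0 h1) (hrhoio _ h2)
    have h4 : rho g0 ∈ (s 0).F := hpure _ h2 0 (by rw [h3]; exact h1)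
    rw [hs0, hp0F, Subgroup.mem_bot] at h4
    exact hg01 (hrho.inj g0 (hLV1 0 h1) h4)
  · -- sealing
    intro i K hKW hKf n k x hk
    let Kt : Subgroup (Perm ℕ) :=
      { carrier := {w | w ∈ V1 ∧ rho w ∈ K}
        one_mem' := ⟨V1.one_mem, by rw [hrho.one]; exact K.one_mem⟩
        mul_mem' := by
          rintro a b ⟨ha, ha'⟩ ⟨hb, hb'⟩
          exact ⟨V1.mul_mem ha hb, by rw [hrho.mul a ha b hb]; exact K.mul_mem ha' hb'⟩
        inv_mem' := by
          rintro a ⟨ha, ha'⟩
          exact ⟨V1.inv_mem ha, by rw [hrho.inv ha]; exact K.inv_mem ha'⟩ }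
    have hKtV : Kt ≤ V1 := fun w hw => hw.1
    have hKtf : (Kt : Set (Perm ℕ)).Finite := by
      refine Set.Finite.of_injOn (f := rho) (t := (K : Set SS)) (fun w hw => hw.2) ?_ hKf
      intro a ha b hb h
      exact hrho.injOn ha.1 hb.1 h
    obtain ⟨t, ht⟩ := hV1fin Kt hKtV hKtf
    have i1 : Finite Kt := hKtf
    have i2 : Finite (s t).L := (s t).Lfin
    let a : Kt →* Perm (Fin n) :=
      { toFun := fun v => k (rho v)
        map_one' := by
          change k (rho 1) = 1
          rw [hrho.one, hk.one]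
        map_mul' := by
          intro v w
          change k (rho (v * w)) = k (rho v) * k (rho w)
          rw [hrho.mul v (hKtV v.2) w (hKtV w.2), hk.mul _ v.2.2 _ w.2.2] }
    have ha : Function.Injective a := by
      intro v w h
      have h1 := hk.injOn v.2.2 w.2.2 h
      exact Subtype.ext (hrho.injOn (hKtV v.2) (hKtV w.2) h1)
    obtain ⟨N, f, g, hf, hg, hfg, hAM⟩ := amalgam a (Subgroup.inclusion ht) ha
      (Subgroup.inclusion_injective ht)
    obtain ⟨t', htt', N', e, ta, Ks, he, htaE, htaj, hLKs, hKsL, hFKs, hsep, hD⟩ :=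
      hwit t N g (f x) i hg
    have hKsV : Ks ≤ V1 := hKsL.trans (hLV1 t')
    let K' : Subgroup SS := (hrho.mono hKsV).range
    have hKK' : K ≤ K' := by
      intro y hy
      obtain ⟨w, hw, rfl⟩ := hKW hy
      exact ⟨w, hLKs (ht ⟨hw, hy⟩), rfl⟩
    have hk' : ∀ v ∈ Ks, ta (sg (rho v)) = ta v := fun v hv => by rw [hsg v (hKsV hv)]
    have himg : (fun y => ta (sg y)) '' K' = ta '' Ks := by
      ext z
      constructor
      · rintro ⟨_, ⟨v, hv, rfl⟩, rfl⟩
        exact ⟨v, hv, (hk' v hv).symm⟩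
      · rintro ⟨v, hv, rfl⟩
        exact ⟨rho v, ⟨v, hv, rfl⟩, hk' v hv⟩
    refine ⟨K', N', e.comp f, fun y => ta (sg y), hKK', ?_, ?_, he.comp hf, ⟨?_, ?_⟩, ?_, ?_, ?_⟩
    · rintro _ ⟨v, hv, rfl⟩
      exact ⟨v, hKsV hv, rfl⟩
    · exact (((s t').Lfin.subset hKsL).image rho)
    · rintro _ ⟨v, hv, rfl⟩ _ ⟨w, hw, rfl⟩
      rw [← hrho.mul v (hKsV hv) w (hKsV hw), hk' _ (Ks.mul_mem hv hw), hk' v hv, hk' w hw]
      exact htaE.mul v (hKsL hv) w (hKsL hw)
    · rintro _ ⟨v, hv, rfl⟩ h1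
      rw [hk' v hv] at h1
      rw [htaE.inj v (hKsL hv) h1, hrho.one]
    · intro y hy
      obtain ⟨w, hw, rfl⟩ := hKW hy
      have hwt : w ∈ (s t).L := ht ⟨hw, hy⟩
      change ta (sg (rho w)) = _
      rw [hk' w (hLKs hwt), htaj ⟨w, hwt⟩]
      have h1 := hfg ⟨w, ⟨hw, hy⟩⟩
      have h2 : Subgroup.inclusion ht ⟨w, ⟨hw, hy⟩⟩ = ⟨w, hwt⟩ := rfl
      rw [h2] at h1
      rw [← h1]
      rfl
    · intro J hJ h hh
      refine hAM J ?_ h ?_
      · rintro _ ⟨v, rfl⟩
        exact hJ _ v.2.2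
      · refine hsep (J.map f ⊔ g.range) le_sup_right (f h) ?_
        rw [himg] at hh
        have h1 : J.map (e.comp f) ≤ (J.map f ⊔ g.range).map e := by
          rw [← Subgroup.map_map]
          exact Subgroup.map_mono le_sup_left
        exact (sup_le_sup h1 le_rfl : _ ≤ _) hh
    · have hKV : K' ⊓ V i = (s t').F ⊓ V i := by
        refine le_antisymm ?_ ?_
        · rintro y ⟨hy1, hy2⟩
          refine ⟨?_, hy2⟩
          obtain ⟨v, hv, rfl⟩ := hy1
          have h1 : rho v ∈ U := hVU i hy2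
          have h2 : io (rho v) = v := hrho.injOn (hioV _ h1) (hKsV hv) (hrhoio _ h1)
          exact hpure _ h1 t' (by rw [h2]; exact hKsL hv)
        · rintro y ⟨hy1, hy2⟩
          refine ⟨?_, hy2⟩
          have h1 : y ∈ U := hVU i hy2
          refine ⟨io y, ?_, hrhoio y h1⟩
          rw [← hioeq y h1 t' hy1]
          exact hFKs y hy1
      have hval : ∀ y ∈ (s t').F, ta (sg y) = ta ((s t').k y) := by
        intro y hy
        have h1 : y ∈ U := (s t').FU hy
        have h2 : sg y = io y := by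
          conv_lhs => rw [← hrhoio y h1]
          exact hsg _ (hioV y h1)
        rw [h2, hioeq y h1 t' hy]
      have hmemK' : ∀ y ∈ (s t').F, y ∈ K' := by
        intro y hy
        have h1 : y ∈ U := (s t').FU hy
        refine ⟨io y, ?_, hrhoio y h1⟩
        rw [← hioeq y h1 t' hy]
        exact hFKs y hy
      rcases hD with hD | ⟨b1, hb1, hb1F, b2, hb2, hb2F, hrel⟩
      · refine Or.inl (hD.subset ?_)
        rintro b ⟨hb, hST⟩
        exact ⟨hb, ST_congr hKV.symm (fun y hy => by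
          rw [hKV] at hy
          exact (hval y hy.1).symm) hST⟩
      · refine Or.inr ⟨b1, hb1, hmemK' b1 hb1F, b2, hb2, hmemK' b2 hb2F, ?_⟩
        change e (f x) * (ta (sg b1))⁻¹ * e (f x) = ta (sg b2)
        rw [hval b1 hb1F, hval b2 hb2F]
        exact hrel

end Pool.SID
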