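import Pool.Agent.H82.SID.Club

/-!
# The poset adding a free set (MP_fe7b28_co)
-/

set_option autoImplicit false

namespace Pool.SID

/-- Sequences of finitary operations. -/
abbrev ZZ (I : Type) : Type := ℕ → List I → I

/-- The `k`-th member of the sequence of sequences coded by `z`. -/
def dec {I : Type} (z : ZZ I) (k : ℕ) : ZZ I := fun m => z (Nat.pair k m)

/-- The coding of a sequence of sequences. -/
def enc {I : Type} (f : ℕ → ZZ I) : ZZ I := fun j => f (Nat.unpair j).1 (Nat.unpair j).2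

theorem dec_enc {I : Type} (f : ℕ → ZZ I) (k : ℕ) : dec (enc f) k = f k := by
  funext m
  simp [dec, enc]

section

variable {I : Type} [LinearOrder I]

/-- `ν` is closed under the operations `z m`. -/
def Cl (ν : I) (z : ZZ I) : Prop := ∀ m l, (∀ a ∈ l, a < ν) → z m l < ν

theorem Cl.dec {ν : I} {z : ZZ I} (h : Cl ν z) (k : ℕ) : Cl ν (dec z k) :=
  fun m l hl => h (Nat.pair k m) l hl

/-- Conditions. -/
structure Cnd (Mt : I → I → I → Prop) where
  A : Finset I
  N : Finset (I × ZZ I)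
  free : ∀ α ∈ A, ∀ β ∈ A, ∀ γ ∈ A, ¬ Mt α β γ
  clo : ∀ n ∈ N, Cl n.1 n.2
  tr : ∀ n ∈ N, ∀ k k', ∃ k'', dec (dec n.2 k) k' = dec n.2 k''
  chain : ∀ n ∈ N, ∀ n' ∈ N, n.1 < n'.1 → ∃ k, n.2 = dec n'.2 k
  uniq : ∀ n ∈ N, ∀ n' ∈ N, n.1 = n'.1 → n = n'
  sep : ∀ α ∈ A, ∀ α' ∈ A, α < α' → ∃ n ∈ N, α < n.1 ∧ n.1 ≤ α'

variable {Mt : I → I → I → Prop}

instance : Preorder (Cnd Mt) where
  le p q := q.A ⊆ p.A ∧ q.N ⊆ p.N
  le_refl p := ⟨subset_rfl, subset_rfl⟩
  le_trans p q r h h' := ⟨h'.1.trans h.1, h'.2.trans h.2⟩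

theorem Cnd.le_def {p q : Cnd Mt} : p ≤ q ↔ q.A ⊆ p.A ∧ q.N ⊆ p.N := Iff.rfl

/-- The poset of all conditions below `q0`. -/
abbrev PosF (q0 : Cnd Mt) : Type := {p : Cnd Mt // p ≤ q0}

/-- The universe of the models. -/
abbrev UnF (q0 : Cnd Mt) : Type :=
  PosF q0 ⊕ (Set (PosF q0) ⊕ (I ⊕ (ZZ I ⊕ (Cnd Mt ⊕ List I))))

variable {q0 : Cnd Mt}

/-- Embedding of conditions. -/
def xP (p : PosF q0) : UnF q0 := Sum.inl p
/-- Embedding of sets of conditions. -/
def xD (D : Set (PosF q0)) : UnF q0 := Sum.inr (Sum.inl D)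
/-- Embedding of ordinals. -/
def xI (a : I) : UnF q0 := Sum.inr (Sum.inr (Sum.inl a))
/-- Embedding of sequences of operations. -/
def xZ (z : ZZ I) : UnF q0 := Sum.inr (Sum.inr (Sum.inr (Sum.inl z)))
/-- Embedding of all conditions. -/
def xC (p : Cnd Mt) : UnF q0 := Sum.inr (Sum.inr (Sum.inr (Sum.inr (Sum.inl p))))
/-- Embedding of lists. -/
def xL (l : List I) : UnF q0 := Sum.inr (Sum.inr (Sum.inr (Sum.inr (Sum.inr l))))

theorem xP_inj : Function.Injective (xP : PosF q0 → UnF q0) := fun _ _ h => Sum.inl_injective h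
theorem xD_inj : Function.Injective (xD : Set (PosF q0) → UnF q0) :=
  fun _ _ h => Sum.inl_injective (Sum.inr_injective h)
theorem xI_inj : Function.Injective (xI : I → UnF q0) :=
  fun _ _ h => Sum.inl_injective (Sum.inr_injective (Sum.inr_injective h))
theorem xZ_inj : Function.Injective (xZ : ZZ I → UnF q0) :=
  fun _ _ h => Sum.inl_injective (Sum.inr_injective (Sum.inr_injective (Sum.inr_injective h)))
theorem xC_inj : Function.Injective (xC : Cnd Mt → UnF q0) :=
  fun _ _ h => Sum.inl_injective (Sum.inr_injective (Sum.inr_injective (Sum.inr_injective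
    (Sum.inr_injective h))))
theorem xL_inj : Function.Injective (xL : List I → UnF q0) :=
  fun _ _ h => Sum.inr_injective (Sum.inr_injective (Sum.inr_injective (Sum.inr_injective
    (Sum.inr_injective h))))

/-- `l` extends in `j` steps, each with unboundedly many choices, to a member of `T`. -/
def Big (T : Set (List I)) : ℕ → List I → Prop
  | 0, l => l ∈ T
  | (j + 1), l => ∀ a, ∃ β, a < β ∧ Big T j (l ++ [β])

open Classical in
/-- Bounds for the lists that are not big. -/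
noncomputable def bb (i0 : I) (T : Set (List I)) (j : ℕ) (l : List I) : I :=
  if h : ∃ a, ∀ β, a < β → ¬ Big T j (l ++ [β]) then Classical.choose h else i0

theorem bb_spec (i0 : I) (T : Set (List I)) (j : ℕ) (l : List I) (h : ¬ Big T (j + 1) l) (β : I)
    (hβ : bb i0 T j l < β) : ¬ Big T j (l ++ [β]) := by
  have h1 : ∃ a, ∀ β, a < β → ¬ Big T j (l ++ [β]) := by
    by_contra hcon
    push Not at hcon
    exact h hcon
  have h2 : bb i0 T j l = Classical.choose h1 := by
    simp only [bb, h1, dif_pos]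
  rw [h2] at hβ
  exact Classical.choose_spec h1 β hβ

open Classical in
/-- The lists of new elements of the members of `D` which extend `p`. -/
def TT (D : Set (PosF q0)) (p : Cnd Mt) : Set (List I) :=
  {l | ∃ s ∈ D, s.1.A = p.A ∪ l.toFinset ∧ p.N ⊆ s.1.N}

open Classical in
/-- The closure properties of the models. -/
structure GoodM (i0 : I) (M : Set (UnF q0)) : Prop where
  i0m : xI i0 ∈ M
  l0 : xL [] ∈ M
  z0 : ∃ z, xZ z ∈ M
  init : ∀ a b, xI a ∈ M → b < a → xI b ∈ M
  app : ∀ z l m, xZ z ∈ M → xL l ∈ M → xI (z m l) ∈ M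
  decm : ∀ z k, xZ z ∈ M → xZ (dec z k) ∈ M
  sn : ∀ s : PosF q0, ∀ n, xP s ∈ M → n ∈ s.1.N → xI n.1 ∈ M ∧ xZ n.2 ∈ M
  snoc : ∀ l a, xL l ∈ M → xI a ∈ M → xL (l ++ [a]) ∈ M
  cnd : ∀ p : Cnd Mt, (∀ a ∈ p.A, xI a ∈ M) → (∀ n ∈ p.N, xI n.1 ∈ M ∧ xZ n.2 ∈ M) → xC p ∈ M
  bnd : ∀ D p j, xD D ∈ M → xC p ∈ M → xZ (fun _ => bb i0 (TT D p) j) ∈ M
  ww : ∀ D p j l a, xD D ∈ M → xC p ∈ M → xL l ∈ M → xI a ∈ M → Big (TT D p) (j + 1) l →
    ∃ β, a < β ∧ xI β ∈ M ∧ Big (TT D p) j (l ++ [β])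
  wit : ∀ D p l, xD D ∈ M → xC p ∈ M → xL l ∈ M → l ∈ TT D p →
    ∃ s ∈ D, xP s ∈ M ∧ s.1.A = p.A ∪ l.toFinset ∧ p.N ⊆ s.1.N

theorem GoodM.list {i0 : I} {M : Set (UnF q0)} (hM : GoodM i0 M) (l : List I)
    (hl : ∀ a ∈ l, xI a ∈ M) : xL l ∈ M := by
  induction l using List.reverseRecOn with
  | nil => exact hM.l0
  | append_singleton l a ih =>
    refine hM.snoc l a (ih fun b hb => hl b (by simp [hb])) (hl a (by simp))

/-- The main lemma on compatibility. -/
theorem main_lemma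
    (h1 : ∀ α β γ γ', Mt α β γ → Mt α β γ' → γ = γ')
    (h2 : ∀ α β β' γ, Mt α β γ → Mt α β' γ → β = β')
    (h3 : ∀ α β γ, Mt α β γ → β < α ∧ γ < α ∧ β ≠ γ)
    {i0 : I} {M : Set (UnF q0)} (hM : GoodM i0 M) (δ : I) (hδ : ∀ a, xI a ∈ M ↔ a < δ)
    (g : ZZ I) (hg : ∀ z, xZ z ∈ M ↔ ∃ k, z = dec g k) (r : PosF q0) (hr : (δ, g) ∈ r.1.N)
    (D : Set (PosF q0)) (hD : xD D ∈ M) (hrD : r ∈ D) :
    ∃ s ∈ D, xP s ∈ M ∧ ∃ t : PosF q0, t ≤ r ∧ t ≤ s := by
  classical
  -- the part of `r` inside the model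
  have hNM : ∀ n ∈ r.1.N, n.1 < δ → xI n.1 ∈ M ∧ xZ n.2 ∈ M := by
    intro n hn hnδ
    obtain ⟨k, hk⟩ := r.1.chain n hn (δ, g) hr hnδ
    exact ⟨(hδ _).2 hnδ, (hg _).2 ⟨k, hk⟩⟩
  let p0 : Cnd Mt :=
    { A := r.1.A.filter (· < δ)
      N := r.1.N.filter (fun n => n.1 < δ)
      free := fun α hα β hβ γ hγ => r.1.free α (Finset.mem_filter.1 hα).1 β
        (Finset.mem_filter.1 hβ).1 γ (Finset.mem_filter.1 hγ).1
      clo := fun n hn => r.1.clo n (Finset.mem_filter.1 hn).1
      tr := fun n hn => r.1.tr n (Finset.mem_filter.1 hn).1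
      chain := fun n hn n' hn' => r.1.chain n (Finset.mem_filter.1 hn).1 n'
        (Finset.mem_filter.1 hn').1
      uniq := fun n hn n' hn' => r.1.uniq n (Finset.mem_filter.1 hn).1 n'
        (Finset.mem_filter.1 hn').1
      sep := by
        intro α hα α' hα' hlt
        obtain ⟨hα1, hα2⟩ := Finset.mem_filter.1 hα
        obtain ⟨hα1', hα2'⟩ := Finset.mem_filter.1 hα'
        obtain ⟨n, hn, hn1, hn2⟩ := r.1.sep α hα1 α' hα1' hlt
        exact ⟨n, Finset.mem_filter.2 ⟨hn, hn2.trans_lt hα2'⟩, hn1, hn2⟩ }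
  have hp0A : ∀ a, a ∈ p0.A ↔ a ∈ r.1.A ∧ a < δ := fun a => Finset.mem_filter
  have hp0N : ∀ n, n ∈ p0.N ↔ n ∈ r.1.N ∧ n.1 < δ := fun n => Finset.mem_filter
  have hp0M : xC p0 ∈ M := by
    refine hM.cnd p0 ?_ ?_
    · intro a ha
      exact (hδ a).2 ((hp0A a).1 ha).2
    · intro n hn
      exact hNM n ((hp0N n).1 hn).1 ((hp0N n).1 hn).2
  set T : Set (List I) := TT D p0 with hT
  -- the part of `r` outside the model
  set la : List I := (r.1.A.filter (fun a => δ ≤ a)).sort (· ≤ ·) with hla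
  have hlam : ∀ a, a ∈ la ↔ a ∈ r.1.A ∧ δ ≤ a := by
    intro a
    rw [hla, Finset.mem_sort, Finset.mem_filter]
  have hlaT : la ∈ T := by
    refine ⟨r, hrD, ?_, fun n hn => ((hp0N n).1 hn).1⟩
    ext a
    rw [Finset.mem_union, hp0A, List.mem_toFinset, hlam]
    constructor
    · intro ha
      rcases lt_or_ge a δ with h | h
      · exact Or.inl ⟨ha, h⟩
      · exact Or.inr ⟨ha, h⟩
    · rintro (h | h)
      · exact h.1
      · exact h.1
  have hlas : la.Pairwise (· < ·) := Finset.sortedLT_sort _ |>.pairwise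
  have hbig : ∀ l2 l1 : List I, la = l1 ++ l2 → Big T l2.length l1 := by
    intro l2
    induction l2 with
    | nil =>
      intro l1 hl
      rw [List.append_nil] at hl
      rw [← hl]
      exact hlaT
    | cons b l2 ih =>
      intro l1 hl
      have hl' : la = (l1 ++ [b]) ++ l2 := by rw [hl]; simp
      have hb := ih (l1 ++ [b]) hl'
      by_contra hcon
      have hb_mem : b ∈ la := by rw [hl]; simp
      have hl1_mem : ∀ a ∈ l1, a ∈ la := by
        intro a ha
        rw [hl]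
        simp [ha]
      have hl1b : ∀ a ∈ l1, a < b := by
        intro a ha
        rw [hl, List.pairwise_append] at hlas
        exact hlas.2.2 a ha b List.mem_cons_self
      have hν : ∃ ν, Cl ν g ∧ (∀ a ∈ l1, a < ν) ∧ ν ≤ b := by
        rcases List.eq_nil_or_concat l1 with rfl | ⟨l0, a, rfl⟩
        · exact ⟨δ, r.1.clo _ hr, by simp, ((hlam b).1 hb_mem).2⟩
        · have ha : a ∈ l0.concat a := by simp
          obtain ⟨haA, haδ⟩ := (hlam a).1 (hl1_mem a ha)
          obtain ⟨hbA, hbδ⟩ := (hlam b).1 hb_mem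
          obtain ⟨n, hn, hn1, hn2⟩ := r.1.sep a haA b hbA (hl1b a ha)
          obtain ⟨k, hk⟩ := r.1.chain (δ, g) hr n hn (haδ.trans_lt hn1)
          refine ⟨n.1, ?_, ?_, hn2⟩
          · have : g = dec n.2 k := hk
            rw [this]
            exact (r.1.clo n hn).dec k
          · intro c hc
            rw [List.concat_eq_append, List.mem_append, List.mem_singleton] at hc
            rcases hc with hc | rfl
            · rw [hl, List.concat_eq_append, List.pairwise_append, List.pairwise_append] at hlas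
              exact (hlas.1.2.2 c hc a (by simp)).trans hn1
            · exact hn1
      obtain ⟨ν, hν1, hν2, hν3⟩ := hν
      obtain ⟨k, hk⟩ := (hg _).1 (hM.bnd D p0 l2.length hD hp0M)
      have h4 : bb i0 T l2.length l1 < ν := by
        have h5 : bb i0 T l2.length = g (Nat.pair k 0) := congrFun hk 0
        rw [h5]
        exact hν1 _ _ hν2
      exact bb_spec i0 T l2.length l1 hcon b (h4.trans_le hν3) hb
  have hbig0 : Big T la.length [] := hbig la [] rfl
  -- the selection inside the model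
  have hsel : ∀ (j : ℕ) (l : List I), Big T j l → (∀ a ∈ l, a < δ) →
      (∀ α ∈ r.1.A, δ ≤ α → ∀ β ∈ r.1.A ∪ l.toFinset, ∀ γ ∈ r.1.A ∪ l.toFinset, ¬ Mt α β γ) →
      ∃ l', l' ∈ T ∧ (∀ a ∈ l', a < δ) ∧
      (∀ α ∈ r.1.A, δ ≤ α → ∀ β ∈ r.1.A ∪ l'.toFinset, ∀ γ ∈ r.1.A ∪ l'.toFinset,
        ¬ Mt α β γ) := by
    intro j
    induction j with
    | zero =>
      intro l hl1 hl2 hl3
      exact ⟨l, hl1, hl2, hl3⟩
    | succ j ih =>
      intro l hl1 hl2 hl3
      have hF : {β | ∃ α ∈ r.1.A, ∃ γ ∈ r.1.A ∪ l.toFinset, Mt α β γ ∨ Mt α γ β}.Finite := by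
        have h4 : {β | ∃ α ∈ r.1.A, ∃ γ ∈ r.1.A ∪ l.toFinset, Mt α β γ ∨ Mt α γ β} ⊆
            ⋃ α ∈ (r.1.A : Set I), ⋃ γ ∈ ((r.1.A ∪ l.toFinset : Finset I) : Set I),
              ({β | Mt α β γ} ∪ {β | Mt α γ β}) := by
          rintro β ⟨α, hα, γ, hγ, h⟩
          simp only [Set.mem_iUnion]
          exact ⟨α, hα, γ, hγ, h⟩
        refine Set.Finite.subset ?_ h4
        refine Set.Finite.biUnion (Finset.finite_toSet _) fun α _ => ?_
        refine Set.Finite.biUnion (Finset.finite_toSet _) fun γ _ => ?_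
        refine Set.Finite.union ?_ ?_
        · exact Set.Subsingleton.finite fun β hβ β' hβ' => h2 α β β' γ hβ hβ'
        · exact Set.Subsingleton.finite fun β hβ β' hβ' => h1 α γ β β' hβ hβ'
      have ha : ∃ a, a < δ ∧ ∀ β, β < δ →
          β ∈ {β | ∃ α ∈ r.1.A, ∃ γ ∈ r.1.A ∪ l.toFinset, Mt α β γ ∨ Mt α γ β} → β ≤ a := by
        have hi0 : i0 < δ := (hδ i0).1 hM.i0m
        obtain ⟨a, ha1, ha2⟩ := Set.exists_max_image
          (insert i0 ({β | ∃ α ∈ r.1.A, ∃ γ ∈ r.1.A ∪ l.toFinset, Mt α β γ ∨ Mt α γ β} ∩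
            Set.Iio δ)) (fun x : I => x) ((hF.inter_of_left _).insert i0) ⟨i0, Or.inl rfl⟩
        refine ⟨a, ?_, ?_⟩
        · rcases ha1 with rfl | h
          · exact hi0
          · exact h.2
        · intro β hβ1 hβ2
          exact ha2 β (Or.inr ⟨hβ2, hβ1⟩)
      obtain ⟨a, haδ, ha⟩ := ha
      have hlM : xL l ∈ M := hM.list l fun b hb => (hδ b).2 (hl2 b hb)
      obtain ⟨β, haβ, hβM, hβ⟩ := hM.ww D p0 j l a hD hp0M hlM ((hδ a).2 haδ) hl1
      have hβδ : β < δ := (hδ β).1 hβM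
      have hβF : β ∉ {β | ∃ α ∈ r.1.A, ∃ γ ∈ r.1.A ∪ l.toFinset, Mt α β γ ∨ Mt α γ β} :=
        fun h => absurd (ha β hβδ h) (not_le.2 haβ)
      refine ih (l ++ [β]) hβ ?_ ?_
      · intro b hb
        rw [List.mem_append, List.mem_singleton] at hb
        rcases hb with hb | rfl
        · exact hl2 b hb
        · exact hβδ
      · intro α hα hδα β' hβ' γ' hγ' hMt
        have hin : ∀ x, x ∈ r.1.A ∪ (l ++ [β]).toFinset → x ∈ r.1.A ∪ l.toFinset ∨ x = β := by
          intro x hx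
          simp only [Finset.mem_union, List.mem_toFinset, List.mem_append, List.mem_singleton]
            at hx ⊢
          tauto
        rcases hin β' hβ' with hb | rfl
        · rcases hin γ' hγ' with hc | rfl
          · exact hl3 α hα hδα β' hb γ' hc hMt
          · exact hβF ⟨α, hα, β', hb, Or.inr hMt⟩
        · rcases hin γ' hγ' with hc | rfl
          · exact hβF ⟨α, hα, γ', hc, Or.inl hMt⟩
          · exact (h3 _ _ _ hMt).2.2 rfl
  obtain ⟨l, hl1, hl2, hl3⟩ := hsel la.length [] hbig0 (by simp) (by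
    intro α hα _ β hβ γ hγ
    simp only [List.toFinset_nil, Finset.union_empty] at hβ hγ
    exact r.1.free α hα β hβ γ hγ)
  have hlM : xL l ∈ M := hM.list l fun b hb => (hδ b).2 (hl2 b hb)
  obtain ⟨s, hsD, hsM, hsA, hsN⟩ := hM.wit D p0 l hD hp0M hlM hl1
  refine ⟨s, hsD, hsM, ?_⟩
  have hsNM : ∀ n ∈ s.1.N, n.1 < δ ∧ ∃ k, n.2 = dec g k := by
    intro n hn
    obtain ⟨h4, h5⟩ := hM.sn s n hsM hn
    exact ⟨(hδ _).1 h4, (hg _).1 h5⟩
  have hsA' : ∀ a ∈ s.1.A, a < δ := by
    intro a ha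
    rw [hsA, Finset.mem_union, List.mem_toFinset] at ha
    rcases ha with ha | ha
    · exact ((hp0A a).1 ha).2
    · exact hl2 a ha
  have hrs : ∀ a ∈ r.1.A, a < δ → a ∈ s.1.A := by
    intro a ha haδ
    rw [hsA, Finset.mem_union]
    exact Or.inl ((hp0A a).2 ⟨ha, haδ⟩)
  have hrsN : ∀ n ∈ r.1.N, n.1 < δ → n ∈ s.1.N := by
    intro n hn hnδ
    exact hsN ((hp0N n).2 ⟨hn, hnδ⟩)
  have hin : ∀ a ∈ r.1.A ∪ s.1.A, a ∈ r.1.A ∪ l.toFinset := by
    intro a ha
    rw [Finset.mem_union] at ha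
    rcases ha with ha | ha
    · exact Finset.mem_union_left _ ha
    · rw [hsA, Finset.mem_union] at ha
      rcases ha with ha | ha
      · exact Finset.mem_union_left _ ((hp0A a).1 ha).1
      · exact Finset.mem_union_right _ ha
  let t : Cnd Mt :=
    { A := r.1.A ∪ s.1.A
      N := r.1.N ∪ s.1.N
      free := by
        intro α hα β hβ γ hγ hMt
        obtain ⟨hβα, hγα, -⟩ := h3 α β γ hMt
        rcases lt_or_ge α δ with hαδ | hαδ
        · have hall : ∀ x ∈ r.1.A ∪ s.1.A, x < δ → x ∈ s.1.A := by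
            intro x hx hxδ
            rcases Finset.mem_union.1 hx with h | h
            · exact hrs x h hxδ
            · exact h
          exact s.1.free α (hall α hα hαδ) β (hall β hβ (hβα.trans hαδ)) γ
            (hall γ hγ (hγα.trans hαδ)) hMt
        · have hαr : α ∈ r.1.A := by
            rcases Finset.mem_union.1 hα with h | h
            · exact h
            · exact absurd (hsA' α h) (not_lt.2 hαδ)
          exact hl3 α hαr hαδ β (hin β hβ) γ (hin γ hγ) hMt
      clo := by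
        intro n hn
        rcases Finset.mem_union.1 hn with h | h
        · exact r.1.clo n h
        · exact s.1.clo n h
      tr := by
        intro n hn
        rcases Finset.mem_union.1 hn with h | h
        · exact r.1.tr n h
        · exact s.1.tr n h
      chain := by
        intro n hn n' hn' hlt
        rcases Finset.mem_union.1 hn' with h' | h'
        · rcases Finset.mem_union.1 hn with h | h
          · exact r.1.chain n h n' h' hlt
          · rcases lt_trichotomy n'.1 δ with h4 | h4 | h4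
            · exact s.1.chain n h n' (hrsN n' h' h4) hlt
            · have h5 : n' = (δ, g) := r.1.uniq n' h' (δ, g) hr h4
              rw [h5]
              exact (hsNM n h).2
            · obtain ⟨k, hk⟩ := (hsNM n h).2
              obtain ⟨k', hk'⟩ := r.1.chain (δ, g) hr n' h' h4
              obtain ⟨k'', hk''⟩ := r.1.tr n' h' k' k
              refine ⟨k'', ?_⟩
              have h6 : g = dec n'.2 k' := hk'
              rw [hk, h6]
              exact hk''
        · have hn'δ : n'.1 < δ := (hsNM n' h').1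
          rcases Finset.mem_union.1 hn with h | h
          · exact s.1.chain n (hrsN n h (hlt.trans hn'δ)) n' h' hlt
          · exact s.1.chain n h n' h' hlt
      uniq := by
        intro n hn n' hn' heq
        rcases Finset.mem_union.1 hn with h | h
        · rcases Finset.mem_union.1 hn' with h' | h'
          · exact r.1.uniq n h n' h' heq
          · exact s.1.uniq n (hrsN n h (heq ▸ (hsNM n' h').1)) n' h' heq
        · rcases Finset.mem_union.1 hn' with h' | h'
          · exact s.1.uniq n h n' (hrsN n' h' (heq ▸ (hsNM n h).1)) heq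
          · exact s.1.uniq n h n' h' heq
      sep := by
        intro α hα α' hα' hlt
        rcases Finset.mem_union.1 hα with h | h
        · rcases Finset.mem_union.1 hα' with h' | h'
          · obtain ⟨n, hn, h4⟩ := r.1.sep α h α' h' hlt
            exact ⟨n, Finset.mem_union_left _ hn, h4⟩
          · have hαδ : α < δ := hlt.trans (hsA' α' h')
            obtain ⟨n, hn, h4⟩ := s.1.sep α (hrs α h hαδ) α' h' hlt
            exact ⟨n, Finset.mem_union_right _ hn, h4⟩
        · rcases lt_or_ge α' δ with h5 | h5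
          · have h' : α' ∈ s.1.A := by
              rcases Finset.mem_union.1 hα' with h6 | h6
              · exact hrs α' h6 h5
              · exact h6
            obtain ⟨n, hn, h4⟩ := s.1.sep α h α' h' hlt
            exact ⟨n, Finset.mem_union_right _ hn, h4⟩
          · exact ⟨(δ, g), Finset.mem_union_left _ hr, hsA' α h, h5⟩ }
  have htr : t ≤ r.1 := ⟨Finset.subset_union_left, Finset.subset_union_left⟩
  have hts : t ≤ s.1 := ⟨Finset.subset_union_right, Finset.subset_union_right⟩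
  exact ⟨⟨t, htr.trans r.2⟩, htr, hts⟩

end

end Pool.SID
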