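import Pool.Agent.H82.SID.Seal

/-!
# Free actions of finite groups on `ℕ` extend to overgroups (MP_fe7b28_co)
-/

set_option autoImplicit false

open Equiv

namespace Pool.SID

/-- A free action of a finite group on a countably infinite set has the standard form. -/
theorem free_orbits {F X : Type} [Group F] [Finite F] [Countable X] [Infinite X]
    (al : F →* Perm X) (hfree : ∀ f, f ≠ 1 → ∀ z, al f z ≠ z) :
    ∃ E : X ≃ F × ℕ, ∀ f z, E (al f z) = (f * (E z).1, (E z).2) := by
  classical
  let r : Setoid X :=
    { r := fun z z' => ∃ f, al f z = z'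
      iseqv :=
        { refl := fun z => ⟨1, by simp⟩
          symm := by
            rintro z z' ⟨f, rfl⟩
            exact ⟨f⁻¹, by simp⟩
          trans := by
            rintro z z' z'' ⟨f, rfl⟩ ⟨g, rfl⟩
            exact ⟨g * f, by simp⟩ } }
  have huniq : ∀ (z : X) (f g : F), al f z = al g z → f = g := by
    intro z f g h
    by_contra hne
    have h1 : g⁻¹ * f ≠ 1 := fun h => hne (inv_mul_eq_one.1 h).symm
    refine hfree _ h1 z ?_
    rw [map_mul, Perm.mul_apply, h, ← Perm.mul_apply, ← map_mul, inv_mul_cancel, map_one,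
      Perm.one_apply]
  have hex : ∀ z : X, ∃ f, al f (Quotient.out (Quotient.mk r z)) = z := by
    intro z
    have h : r.r (Quotient.out (Quotient.mk r z)) z := Quotient.exact (Quotient.out_eq _)
    exact h
  choose g hg using hex
  let E1 : X ≃ F × Quotient r :=
    { toFun := fun z => (g z, Quotient.mk r z)
      invFun := fun p => al p.1 (Quotient.out p.2)
      left_inv := fun z => hg z
      right_inv := by
        rintro ⟨f, o⟩
        have h1 : Quotient.mk r (al f (Quotient.out o)) = o := by
          rw [← Quotient.out_eq o]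
          refine Quotient.sound ?_
          rw [Quotient.out_eq o]
          exact ⟨f⁻¹, by simp⟩
        refine Prod.ext ?_ h1
        have h2 := hg (al f (Quotient.out o))
        rw [h1] at h2
        exact huniq _ _ _ h2 }
  have hE1 : ∀ f z, E1 (al f z) = (f * (E1 z).1, (E1 z).2) := by
    intro f z
    have h1 : Quotient.mk r (al f z) = Quotient.mk r z := Quotient.sound ⟨f⁻¹, by simp⟩
    refine Prod.ext ?_ h1
    change g (al f z) = f * g z
    refine huniq (Quotient.out (Quotient.mk r z)) _ _ ?_
    rw [map_mul, Perm.mul_apply, hg z]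
    have h2 := hg (al f z)
    rw [h1] at h2
    exact h2
  have hinf : Infinite (Quotient r) := by
    by_contra hfin
    rw [not_infinite_iff_finite] at hfin
    have : Finite X := Finite.of_equiv _ E1.symm
    exact not_finite X
  obtain ⟨e⟩ := (nonempty_equiv_of_countable : Nonempty (Quotient r ≃ ℕ))
  refine ⟨E1.trans (Equiv.prodCongr (Equiv.refl F) e), ?_⟩
  intro f z
  simp only [Equiv.trans_apply, hE1, Equiv.prodCongr_apply, Prod.map, Equiv.refl_apply]

/-- Left multiplication on the first coordinate. -/
def lmul (H : Type) [Group H] : H →* Perm (H × ℕ) where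
  toFun h :=
    { toFun := fun p => (h * p.1, p.2)
      invFun := fun p => (h⁻¹ * p.1, p.2)
      left_inv := by intro p; simp
      right_inv := by intro p; simp }
  map_one' := by ext p <;> simp
  map_mul' := by intro g h; ext p <;> simp [mul_assoc]

theorem lmul_apply (H : Type) [Group H] (h : H) (p : H × ℕ) : lmul H h p = (h * p.1, p.2) := rfl

/-- A free action on `ℕ` of a finite group extends to every finite overgroup. -/
theorem free_extend {F H : Type} [Group F] [Group H] [Finite F] [Finite H]
    (al : F →* Perm ℕ) (hfree : ∀ f, f ≠ 1 → ∀ z, al f z ≠ z) (e : F →* H)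
    (he : Function.Injective e) :
    ∃ th : H →* Perm ℕ, (∀ h, h ≠ 1 → ∀ z, th h z ≠ z) ∧ ∀ f, th (e f) = al f := by
  obtain ⟨E1, hE1⟩ := free_orbits al hfree
  obtain ⟨E2, hE2⟩ := free_orbits ((lmul H).comp e) (by
    intro f hf z hz
    have h1 := congrArg Prod.fst hz
    simp only [MonoidHom.comp_apply, lmul_apply] at h1
    exact hf (he (by rw [map_one]; exact mul_eq_right.1 h1)))
  set Φ : ℕ ≃ H × ℕ := E1.trans E2.symm with hΦ
  refine ⟨(Φ.symm.permCongrHom.toMonoidHom).comp (lmul H), ?_, ?_⟩
  · intro h hh z hz
    have h1 : lmul H h (Φ z) = Φ z := by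
      have := congrArg Φ hz
      simpa [Equiv.permCongrHom, Equiv.permCongr_apply] using this
    have h2 := congrArg Prod.fst h1
    rw [lmul_apply] at h2
    exact hh (mul_eq_right.1 h2)
  · intro f
    ext z
    have h1 : lmul H (e f) (Φ z) = Φ (al f z) := by
      have h2 : E2 (lmul H (e f) (Φ z)) = E1 (al f z) := by
        have h3 := hE2 f (Φ z)
        simp only [MonoidHom.comp_apply] at h3
        rw [h3, hE1]
        simp [hΦ]
      rw [hΦ]
      simp only [Equiv.trans_apply]
      rw [← h2]
      simp [hΦ]
    have h4 : ((Φ.symm.permCongrHom.toMonoidHom).comp (lmul H)) (e f) z =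
        Φ.symm (lmul H (e f) (Φ z)) := by
      simp [Equiv.permCongrHom, Equiv.permCongr_apply]
    rw [h4, h1, Equiv.symm_apply_apply]

end Pool.SID
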