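import Pool.Agent.H82.SID.Code

/-!
# The diamond argument (MP_fe7b28_co)
-/

set_option autoImplicit false

open Equiv Filter

namespace Pool.SID

variable {I : Type} [LinearOrder I] [WellFoundedLT I]

theorem tower_limit (hI : ∀ a : I, (Set.Iio a).Countable)
    (Bp Bm : I → (I → Subgroup SS) → Set SS)
    (hB : ∀ a f, Good (f a) → Bp a f ⊆ f a ∧ Bm a f ⊆ f a ∧ Splits (f a) (Bp a f) (Bm a f))
    (a : I) (hne : ∃ b, b < a) (hlim : ∀ b, b < a → ∃ c, b < c ∧ c < a) :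
    (∀ x ∈ tower hI Bp Bm a, ∃ b, b < a ∧ x ∈ tower hI Bp Bm b) ∧
      ∀ K : Subgroup SS, K ≤ tower hI Bp Bm a → (K : Set SS).Finite →
        ∃ b, b < a ∧ K ≤ tower hI Bp Bm b := by
  set U := tower hI Bp Bm with hU
  have hmono : ∀ b c, b ≤ c → U b ≤ U c := fun b c h => (tower_ready hI Bp Bm hB c).2.1 b h
  have h1 : U a ≤ ⨆ b : {b : I // b < a}, U b := by
    have : U a = ⨆ b : {b : I // b < a}, step hI Bp Bm b (trunc (b : I) U) :=
      tower_eq hI Bp Bm a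
    rw [this]
    refine iSup_le ?_
    rintro ⟨b, hb⟩
    obtain ⟨c, hbc, hca⟩ := hlim b hb
    have h2 : step hI Bp Bm b (trunc b U) ≤ U c := by
      have : U c = ⨆ b : {b : I // b < c}, step hI Bp Bm b (trunc (b : I) U) :=
        tower_eq hI Bp Bm c
      rw [this]
      exact le_iSup (fun b : {b : I // b < c} => step hI Bp Bm b (trunc (b : I) U)) ⟨b, hbc⟩
    exact h2.trans (le_iSup (fun b : {b : I // b < a} => U b) ⟨c, hca⟩)
  have hdir : Directed (· ≤ ·) (fun b : {b : I // b < a} => U b) := by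
    intro b b'
    exact ⟨⟨max b b', max_lt b.2 b'.2⟩, hmono _ _ (le_max_left _ _), hmono _ _ (le_max_right _ _)⟩
  have hne' : Nonempty {b : I // b < a} := by
    obtain ⟨b, hb⟩ := hne
    exact ⟨⟨b, hb⟩⟩
  have h3 : ∀ x ∈ U a, ∃ b, b < a ∧ x ∈ U b := by
    intro x hx
    have hx' := h1 hx
    rw [Subgroup.mem_iSup_of_directed hdir] at hx'
    obtain ⟨b, hb⟩ := hx'
    exact ⟨b, b.2, hb⟩
  refine ⟨h3, ?_⟩
  intro K hK hKf
  obtain ⟨b0, hb0⟩ := hne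
  have h4 : ∀ x : SS, ∃ b, b < a ∧ (x ∈ K → x ∈ U b) := by
    intro x
    by_cases hx : x ∈ K
    · obtain ⟨b, hb, hxb⟩ := h3 x (hK hx)
      exact ⟨b, hb, fun _ => hxb⟩
    · exact ⟨b0, hb0, fun h => absurd h hx⟩
  choose t ht1 ht2 using h4
  obtain ⟨x0, -, hx0⟩ := Set.exists_max_image (K : Set SS) t hKf ⟨1, K.one_mem⟩
  exact ⟨t x0, ht1 x0, fun x hx => hmono _ _ (hx0 x hx) (ht2 x hx)⟩

/-- The adjacency relation of the graph. -/
def Adj' (e : I × (I × ℕ) → I) (A : I → Set I) (U : I → Subgroup SS) (a b : I) : Prop :=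
  (b < a ∧ b ∈ CC e A a (trunc a U)) ∨ (a < b ∧ a ∈ CC e A b (trunc b U))

theorem main (hI : ∀ a : I, (Set.Iio a).Countable) (hu : Uncountable I) (A : I → Set I)
    (hA : ∀ X C : Set I, IsClub C → ∃ a ∈ C, A a ∩ Set.Iio a = X ∩ Set.Iio a)
    (e : I × (I × ℕ) → I) (he : Function.Injective e) (S : Set SS) (φ : I → SS)
    (hφ : Function.Injective φ) (hr : ∀ ξ, ∃ a, φ ξ ∈ tower hI (BP e A) (BM e A) a)
    (hX : ∀ u v, Adj' e A (tower hI (BP e A) (BM e A)) u v ↔ (φ u)⁻¹ * φ v ∈ S) : False := by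
  classical
  set U := tower hI (BP e A) (BM e A) with hU
  have hready : ∀ a, Ready (BP e A) (BM e A) a U :=
    tower_ready hI (BP e A) (BM e A) (BP_BM e A)
  have hmono : ∀ b c, b ≤ c → U b ≤ U c := fun b c h => (hready c).2.1 b h
  have hcount : ∀ a, (U a : Set SS).Countable := fun a => (hready a).1.count
  choose r hr using hr
  have hn : ∀ ξ, ∃ n, En (U (r ξ)) n = φ ξ := fun ξ => exists_En (hcount (r ξ)) (hr ξ)
  choose nn hnn using hn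
  -- the bounding function
  let F : (K : Subgroup SS) → (n : ℕ) → (SS → Perm (Fin n)) → Perm (Fin n) → Set I :=
    fun K n k y => {ξ | ST K k y (φ ξ)}
  let T : I → Set (Set I) := fun β => {Z : Set I | ∃ K : Subgroup SS, K ≤ U β ∧
    (K : Set SS).Finite ∧ ∃ (n : ℕ) (k : SS → Perm (Fin n)) (y : Perm (Fin n)), Z = F K n k y}
  have hT : ∀ β, (T β).Countable := by
    intro β
    refine types_countable (U β) (hcount β) F ?_
    intro K n k k' y hk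
    ext ξ
    constructor
    · exact fun h3 => ST_congr rfl hk h3
    · exact fun h3 => ST_congr rfl (fun a ha => (hk a ha).symm) h3
  have hw : ∀ (β : I) (Z : Set I), ∃ w : Set I, w.Countable ∧
      ((∀ ξ ∈ Z, ξ ∈ w) ∨ ∃ ξ ∈ Z, β < ξ ∧ ξ ∈ w) := by
    intro β Z
    by_cases hZ : Z.Countable
    · exact ⟨Z, hZ, Or.inl fun _ h => h⟩
    · have : ∃ ξ ∈ Z, β < ξ := by
        by_contra hcon
        push Not at hcon
        refine hZ (((hI β).insert β).mono ?_)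
        intro ξ hξ
        rcases (hcon ξ hξ).lt_or_eq with h | h
        · exact Or.inr h
        · exact Or.inl h
      obtain ⟨ξ, hξ, hβ⟩ := this
      exact ⟨{ξ}, Set.countable_singleton ξ, Or.inr ⟨ξ, hξ, hβ, rfl⟩⟩
  choose w hwc hw using hw
  have hbound : ∀ β : I, ∃ d : I, β < d ∧ (∀ ξ, ξ ≤ β → r ξ < d) ∧
      (∀ ξ b, ξ ≤ β → b ≤ β → ∀ m, e (ξ, (b, m)) < d) ∧ (∀ ξ, φ ξ ∈ U β → ξ < d) ∧
      ∀ Z ∈ T β, ∀ ξ ∈ w β Z, ξ < d := by
    intro β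
    have hIc : (insert β (Set.Iio β)).Countable := (hI β).insert β
    have hle : ∀ ξ, ξ ≤ β → ξ ∈ insert β (Set.Iio β) := by
      intro ξ h
      rcases h.lt_or_eq with h | h
      · exact Or.inr h
      · exact Or.inl h
    obtain ⟨d, hd⟩ := exists_ub hI hu
      (insert β (r '' insert β (Set.Iio β)) ∪
        (e '' (insert β (Set.Iio β) ×ˢ (insert β (Set.Iio β) ×ˢ (Set.univ : Set ℕ)))) ∪
        φ ⁻¹' (U β : Set SS) ∪ ⋃ Z ∈ T β, w β Z)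
      (((((hIc.image r).insert β).union ((hIc.prod (hIc.prod Set.countable_univ)).image e)).union
        ((hcount β).preimage hφ)).union ((hT β).biUnion fun Z _ => hwc β Z))
    refine ⟨d, ?_, ?_, ?_, ?_, ?_⟩
    · exact hd β (Or.inl (Or.inl (Or.inl (Or.inl rfl))))
    · intro ξ hξ
      exact hd _ (Or.inl (Or.inl (Or.inl (Or.inr ⟨ξ, hle ξ hξ, rfl⟩))))
    · intro ξ b hξ hb m
      exact hd _ (Or.inl (Or.inl (Or.inr ⟨(ξ, (b, m)), ⟨hle ξ hξ, hle b hb, Set.mem_univ m⟩, rfl⟩)))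
    · intro ξ hξ
      exact hd _ (Or.inl (Or.inr hξ))
    · intro Z hZ ξ hξ
      refine hd _ (Or.inr ?_)
      rw [Set.mem_iUnion₂]
      exact ⟨Z, hZ, hξ⟩
  choose h h1 h2 h3 h4 h5 using hbound
  obtain ⟨γ, ⟨hγne, hγ⟩, hAγ⟩ := hA {x | ∃ ξ, x = e (ξ, (r ξ, nn ξ))} _ (club_closed hI hu h)
  have hlim : ∀ b, b < γ → ∃ c, b < c ∧ c < γ := fun b hb => ⟨h b, h1 b, hγ b hb⟩
  obtain ⟨hU1, hU2⟩ := tower_limit hI (BP e A) (BM e A) (BP_BM e A) γ hγne hlim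
  have hrγ : ∀ ξ, ξ < γ → r ξ < γ := fun ξ hξ => (h2 ξ ξ le_rfl).trans (hγ ξ hξ)
  have heγ : ∀ ξ b m, ξ < γ → b < γ → e (ξ, (b, m)) < γ := by
    intro ξ b m hξ hb
    exact (h3 (max ξ b) ξ b (le_max_left _ _) (le_max_right _ _) m).trans
      (hγ _ (max_lt hξ hb))
  have hAmem : ∀ x, x < γ → (x ∈ A γ ↔ ∃ ξ, x = e (ξ, (r ξ, nn ξ))) := by
    intro x hx
    have : x ∈ A γ ∩ Set.Iio γ ↔ x ∈ {x | ∃ ξ, x = e (ξ, (r ξ, nn ξ))} ∩ Set.Iio γ := by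
      rw [hAγ]
    constructor
    · intro hxA
      exact (this.1 ⟨hxA, hx⟩).1
    · intro hxX
      exact (this.2 ⟨hxX, hx⟩).1
  have hphi : ∀ ξ, ξ < γ → phi e A γ (trunc γ U) ξ = φ ξ := by
    intro ξ hξ
    have hex : ∃ p : I × ℕ, p.1 < γ ∧ e (ξ, p) ∈ A γ :=
      ⟨(r ξ, nn ξ), hrγ ξ hξ, (hAmem _ (heγ ξ _ _ hξ (hrγ ξ hξ))).2 ⟨ξ, rfl⟩⟩
    have hp := Classical.choose_spec hex
    have hpe : phi e A γ (trunc γ U) ξ =
        En (trunc γ U (Classical.choose hex).1) (Classical.choose hex).2 := by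
      simp only [phi, hex, dif_pos]
    generalize Classical.choose hex = p at hp hpe
    obtain ⟨b, m⟩ := p
    obtain ⟨hb, hbA⟩ := hp
    obtain ⟨ξ', hξ'⟩ := (hAmem _ (heγ ξ b m hξ hb)).1 hbA
    have h6 := he hξ'
    obtain ⟨h7, h8⟩ := Prod.ext_iff.1 h6
    obtain ⟨h9, h10⟩ := Prod.ext_iff.1 h8
    simp only at h7 h9 h10
    subst h7
    subst h9
    subst h10
    rw [hpe]
    change En (trunc γ U (r ξ)) (nn ξ) = φ ξ
    rw [trunc_of_le (hrγ ξ hξ).le]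
    exact hnn ξ
  have hφγ : ∀ β, β < γ → φ γ ∉ U β := by
    intro β hβ hmem
    exact lt_asymm (h4 β γ hmem) (hγ β hβ)
  -- the sealing property for the element at `γ`
  have hseal : Seal (U γ) (U (max (r γ) γ)) (BP e A γ (trunc γ U)) (BM e A γ (trunc γ U)) :=
    (hready (max (r γ) γ)).2.2 γ (le_max_right _ _)
  have hxδ : φ γ ∈ U (max (r γ) γ) := hmono _ _ (le_max_left _ _) (hr γ)
  set K : Subgroup SS := Subgroup.zpowers (φ γ) with hK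
  have hKU : K ≤ U (max (r γ) γ) := Subgroup.zpowers_le.2 hxδ
  have hKf : (K : Set SS).Finite := by
    have := (hready (max (r γ) γ)).1.lf ⊥ bot_le (by simp) (φ γ) hxδ
    rw [bot_sup_eq] at this
    exact this
  have hKfin : Finite K := hKf
  obtain ⟨N, c, hc⟩ := exists_perm_fin K
  have hi : Emb K (fun s => if hs : s ∈ K then c ⟨s, hs⟩ else 1) := by
    refine ⟨?_, ?_⟩
    · intro a ha b hb
      have hab : a * b ∈ K := K.mul_mem ha hb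
      simp only [ha, hb, hab, dif_pos]
      rw [← map_mul]
      rfl
    · intro a ha h6
      simp only [ha, dif_pos] at h6
      have := hc (h6.trans (map_one c).symm)
      exact congrArg Subtype.val this
  obtain ⟨K', n', em, k, hKK', hK'U, hK'f, -, hkE, hki, -, hcase⟩ :=
    hseal K hKU hKf N _ (if hs : φ γ ∈ K then c ⟨φ γ, hs⟩ else 1) hi
  have hφK : φ γ ∈ K := Subgroup.mem_zpowers _
  have hex : em (if hs : φ γ ∈ K then c ⟨φ γ, hs⟩ else 1) = k (φ γ) := (hki (φ γ) hφK).symm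
  rw [hex] at hcase
  have hφK' : φ γ ∈ K' := hKK' hφK
  rcases hcase with hfin | ⟨b1, hb1, hb1K, b2, hb2, hb2K, heq⟩
  · -- the poor case is impossible
    obtain ⟨β0, hβ0, hKβ0⟩ := hU2 (K' ⊓ U γ) inf_le_right (hK'f.subset (fun x hx => hx.1))
    have hγZ : γ ∈ F (K' ⊓ U γ) n' k (k (φ γ)) := by
      refine ⟨k, hkE.mono (sup_le inf_le_left (Subgroup.zpowers_le.2 hφK')), fun _ _ => rfl, rfl⟩
    have hZT : ∀ β, β0 ≤ β → F (K' ⊓ U γ) n' k (k (φ γ)) ∈ T β := by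
      intro β hβ
      exact ⟨K' ⊓ U γ, hKβ0.trans (hmono _ _ hβ), hK'f.subset (fun x hx => hx.1), n', k,
        k (φ γ), rfl⟩
    have hunb : ∀ β, β < γ → ∃ ξ, ξ ∈ F (K' ⊓ U γ) n' k (k (φ γ)) ∧ β < ξ ∧ ξ < γ := by
      intro β hβ
      have hm : max β β0 < γ := max_lt hβ hβ0
      have hZ := hZT (max β β0) (le_max_right _ _)
      rcases hw (max β β0) (F (K' ⊓ U γ) n' k (k (φ γ))) with h6 | ⟨ξ, hξ, hβξ, hξw⟩
      · exact absurd (h5 (max β β0) _ hZ γ (h6 γ hγZ)) (lt_asymm (hγ _ hm))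
      · exact ⟨ξ, hξ, (le_max_left _ _).trans_lt hβξ, (h5 _ _ hZ ξ hξw).trans (hγ _ hm)⟩
    have hinf : (F (K' ⊓ U γ) n' k (k (φ γ)) ∩ Set.Iio γ).Infinite := by
      intro hf
      obtain ⟨b, hb⟩ := hγne
      obtain ⟨ξ0, hξ0, -, hξ0γ⟩ := hunb b hb
      obtain ⟨m, hm, hmax⟩ := Set.exists_max_image _ (fun x : I => x) hf ⟨ξ0, hξ0, hξ0γ⟩
      obtain ⟨ξ, hξ, hmξ, hξγ⟩ := hunb m hm.2
      exact absurd (hmax ξ ⟨hξ, hξγ⟩) (not_le.2 hmξ)
    refine (hinf.image hφ.injOn) (hfin.subset ?_)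
    rintro _ ⟨ξ, ⟨hξZ, hξγ⟩, rfl⟩
    refine ⟨?_, hξZ⟩
    have hmem : phi e A γ (trunc γ U) ξ ∈ trunc γ U γ := by
      rw [hphi ξ hξγ, trunc_of_le le_rfl]
      exact hmono _ _ (hrγ ξ hξγ).le (hr ξ)
    by_cases hC : ξ ∈ CC e A γ (trunc γ U)
    · exact Or.inl ⟨ξ, hξγ, hC, hmem, (hphi ξ hξγ).symm⟩
    · exact Or.inr ⟨ξ, hξγ, hC, hmem, (hphi ξ hξγ).symm⟩
  · -- the matched case
    obtain ⟨η, hηγ, hηC, -, rfl⟩ := hb1
    obtain ⟨ζ, hζγ, hζC, -, rfl⟩ := hb2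
    rw [hphi η hηγ] at hb1K heq
    rw [hphi ζ hζγ] at hb2K heq
    have h6 : k (φ γ * (φ η)⁻¹ * φ γ) = k (φ ζ) := by
      rw [hkE.mul _ (K'.mul_mem hφK' (K'.inv_mem hb1K)) _ hφK',
        hkE.mul _ hφK' _ (K'.inv_mem hb1K), hkE.inv hb1K]
      exact heq
    have h7 : φ γ * (φ η)⁻¹ * φ γ = φ ζ :=
      hkE.injOn (K'.mul_mem (K'.mul_mem hφK' (K'.inv_mem hb1K)) hφK') hb2K h6
    have h8 : (φ γ)⁻¹ * φ ζ = (φ η)⁻¹ * φ γ := by
      rw [← h7]
      group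
    have h9 : (φ η)⁻¹ * φ γ ∈ S := (hX η γ).1 (Or.inr ⟨hηγ, hηC⟩)
    rw [← h8] at h9
    rcases (hX γ ζ).2 h9 with ⟨-, h10⟩ | ⟨h10, -⟩
    · exact hζC h10
    · exact lt_asymm h10 hζγ

end Pool.SID
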