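import Pool.Agent.H82.SID.Forc
import Pool.Agent.H82.SID.Defs

/-!
# The poset is proper, and what the forcing axiom gives (MP_fe7b28_co)
-/

set_option autoImplicit false

namespace Pool.SID

section

variable {I : Type} [LinearOrder I] {Mt : I → I → I → Prop} {q0 : Cnd Mt}

open Classical in
theorem club_GoodM (hI : ∀ a : I, (Set.Iio a).Countable) (i0 : I) :
    ClubProp (GoodM (q0 := q0) i0) := by
  -- the rules
  have r0 : ClubProp (fun M : Set (UnF q0) => ({xI i0, xL [], xZ (fun _ _ => i0)} : Set (UnF q0)) ⊆ M) :=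
    ClubProp.const _ (Set.Finite.countable (by simp))
  have r1 := ClubProp.rule (X := UnF q0) xI xI_inj xI xI_inj xI xI_inj xI xI_inj
    (fun a _ _ _ => xI '' Set.Iio a) (fun a _ _ _ => (hI a).image _)
  have r2 := ClubProp.rule (X := UnF q0) xZ xZ_inj xL xL_inj xL xL_inj xL xL_inj
    (fun z l _ _ => Set.range (fun m => xI (z m l))) (fun z l _ _ => Set.countable_range _)
  have r3 := ClubProp.rule (X := UnF q0) xZ xZ_inj xZ xZ_inj xZ xZ_inj xZ xZ_inj
    (fun z _ _ _ => Set.range (fun k => xZ (dec z k))) (fun z _ _ _ => Set.countable_range _)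
  have r4 := ClubProp.rule (X := UnF q0) xP xP_inj xP xP_inj xP xP_inj xP xP_inj
    (fun s _ _ _ => (fun n : I × ZZ I => xI n.1) '' (s.1.N : Set (I × ZZ I)) ∪
      (fun n : I × ZZ I => xZ n.2) '' (s.1.N : Set (I × ZZ I)))
    (fun s _ _ _ => ((Finset.countable_toSet _).image _).union
      ((Finset.countable_toSet _).image _))
  have r5 := ClubProp.rule (X := UnF q0) xL xL_inj xI xI_inj xI xI_inj xI xI_inj
    (fun l a _ _ => {xL (l ++ [a])}) (fun l a _ _ => Set.countable_singleton _)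
  have r6 := ClubProp.rule (X := UnF q0) xD xD_inj xC xC_inj xC xC_inj xC xC_inj
    (fun D p _ _ => Set.range (fun j => xZ (fun _ => bb i0 (TT D p) j)))
    (fun D p _ _ => Set.countable_range _)
  have r7 : ClubProp (fun M : Set (UnF q0) => ∀ D p l a, xD D ∈ M → xC p ∈ M → xL l ∈ M →
      xI a ∈ M → ∀ j, Big (TT D p) (j + 1) l →
      ∃ β, a < β ∧ xI β ∈ M ∧ Big (TT D p) j (l ++ [β])) := by
    have hw : ∀ (D : Set (PosF q0)) (p : Cnd Mt) (l : List I) (a : I) (j : ℕ), ∃ β,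
        Big (TT D p) (j + 1) l → a < β ∧ Big (TT D p) j (l ++ [β]) := by
      intro D p l a j
      by_cases h : Big (TT D p) (j + 1) l
      · obtain ⟨β, h1, h2⟩ := h a
        exact ⟨β, fun _ => ⟨h1, h2⟩⟩
      · exact ⟨a, fun h' => absurd h' h⟩
    choose w hw using hw
    refine (ClubProp.rule (X := UnF q0) xD xD_inj xC xC_inj xL xL_inj xI xI_inj
      (fun D p l a => Set.range (fun j => xI (w D p l a j)))
      (fun D p l a => Set.countable_range _)).mono ?_
    intro M hM D p l a hD hp hl ha j hj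
    exact ⟨w D p l a j, (hw D p l a j hj).1, hM D p l a hD hp hl ha ⟨j, rfl⟩,
      (hw D p l a j hj).2⟩
  have r8 : ClubProp (fun M : Set (UnF q0) => ∀ D p l, xD D ∈ M → xC p ∈ M → xL l ∈ M →
      l ∈ TT D p → ∃ s ∈ D, xP s ∈ M ∧ s.1.A = p.A ∪ l.toFinset ∧ p.N ⊆ s.1.N) := by
    have hs : ∀ (D : Set (PosF q0)) (p : Cnd Mt) (l : List I), ∃ S : Set (PosF q0), S.Countable ∧
        (l ∈ TT D p → ∃ s ∈ D, s ∈ S ∧ s.1.A = p.A ∪ l.toFinset ∧ p.N ⊆ s.1.N) := by
      intro D p l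
      by_cases h : l ∈ TT D p
      · obtain ⟨s, h1, h2, h3⟩ := h
        exact ⟨{s}, Set.countable_singleton s, fun _ => ⟨s, h1, rfl, h2, h3⟩⟩
      · exact ⟨∅, Set.countable_empty, fun h' => absurd h' h⟩
    choose S hS1 hS2 using hs
    refine (ClubProp.rule (X := UnF q0) xD xD_inj xC xC_inj xL xL_inj xL xL_inj
      (fun D p l _ => xP '' S D p l) (fun D p l _ => (hS1 D p l).image _)).mono ?_
    intro M hM D p l hD hp hl hlT
    obtain ⟨s, h1, h2, h3⟩ := hS2 D p l hlT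
    exact ⟨s, h1, hM D p l l hD hp hl hl ⟨s, h2, rfl⟩, h3⟩
  have r9 : ClubProp (fun M : Set (UnF q0) => ∀ p : Cnd Mt, (∀ a ∈ p.A, xI a ∈ M) →
      (∀ n ∈ p.N, xI n.1 ∈ M ∧ xZ n.2 ∈ M) → xC p ∈ M) := by
    refine ⟨fun l => xC '' {p : Cnd Mt | (∀ a ∈ p.A, xI a ∈ l) ∧
      ∀ n ∈ p.N, xI n.1 ∈ l ∧ xZ n.2 ∈ l}, ?_, ?_⟩
    · intro l
      refine Set.Countable.image ?_ _
      have hl : {x | x ∈ l}.Finite := List.finite_toSet l
      have hIf : (xI (q0 := q0) ⁻¹' {x | x ∈ l}).Finite := hl.preimage xI_inj.injOn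
      have hZf : (xZ (q0 := q0) ⁻¹' {x | x ∈ l}).Finite := hl.preimage xZ_inj.injOn
      have hA : {A : Finset I | ∀ a ∈ A, xI (q0 := q0) a ∈ l}.Finite := by
        refine (hIf.toFinset.powerset.finite_toSet).subset ?_
        intro A hA
        rw [Finset.mem_coe, Finset.mem_powerset]
        intro a ha
        rw [Set.Finite.mem_toFinset]
        exact hA a ha
      have hN : {N : Finset (I × ZZ I) | ∀ n ∈ N, xI (q0 := q0) n.1 ∈ l ∧
          xZ (q0 := q0) n.2 ∈ l}.Finite := by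
        refine (((hIf.prod hZf).toFinset).powerset.finite_toSet).subset ?_
        intro N hN
        rw [Finset.mem_coe, Finset.mem_powerset]
        intro n hn
        rw [Set.Finite.mem_toFinset]
        exact ⟨(hN n hn).1, (hN n hn).2⟩
      refine Set.MapsTo.countable_of_injOn (f := fun p : Cnd Mt => (p.A, p.N))
        (t := {A : Finset I | ∀ a ∈ A, xI (q0 := q0) a ∈ l} ×ˢ
          {N : Finset (I × ZZ I) | ∀ n ∈ N, xI (q0 := q0) n.1 ∈ l ∧ xZ (q0 := q0) n.2 ∈ l})
        ?_ ?_ (hA.prod hN).countable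
      · intro p hp
        exact ⟨hp.1, hp.2⟩
      · intro p _ p' _ h
        obtain ⟨h1, h2⟩ := Prod.ext_iff.1 h
        simp only at h1 h2
        cases p
        cases p'
        simp only at h1 h2
        subst h1
        subst h2
        rfl
    · intro M hM p hA hN
      refine hM ((p.A.toList.map xI) ++ ((p.N.toList.map (fun n => xI n.1)) ++
        (p.N.toList.map (fun n => xZ n.2)))) ?_ ?_
      · intro x hx
        rw [List.mem_append, List.mem_append, List.mem_map, List.mem_map, List.mem_map] at hx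
        rcases hx with ⟨a, ha, rfl⟩ | ⟨n, hn, rfl⟩ | ⟨n, hn, rfl⟩
        · exact hA a (Finset.mem_toList.1 ha)
        · exact (hN n (Finset.mem_toList.1 hn)).1
        · exact (hN n (Finset.mem_toList.1 hn)).2
      · refine ⟨p, ⟨?_, ?_⟩, rfl⟩
        · intro a ha
          rw [List.mem_append, List.mem_map]
          exact Or.inl ⟨a, Finset.mem_toList.2 ha, rfl⟩
        · intro n hn
          exact ⟨List.mem_append_right _ (List.mem_append_left _
              (List.mem_map.2 ⟨n, Finset.mem_toList.2 hn, rfl⟩)),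
            List.mem_append_right _ (List.mem_append_right _
              (List.mem_map.2 ⟨n, Finset.mem_toList.2 hn, rfl⟩))⟩
  refine (r0.and (r1.and (r2.and (r3.and (r4.and (r5.and (r6.and (r7.and (r8.and r9))))))))).mono ?_
  rintro M ⟨h0, h1, h2, h3, h4, h5, h6, h7, h8, h9⟩
  exact
    { i0m := h0 (Or.inl rfl)
      l0 := h0 (Or.inr (Or.inl rfl))
      z0 := ⟨_, h0 (Or.inr (Or.inr rfl))⟩
      init := fun a b ha hb => h1 a a a a ha ha ha ha ⟨b, hb, rfl⟩
      app := fun z l m hz hl => h2 z l l l hz hl hl hl ⟨m, rfl⟩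
      decm := fun z k hz => h3 z z z z hz hz hz hz ⟨k, rfl⟩
      sn := fun s n hs hn => ⟨h4 s s s s hs hs hs hs (Or.inl ⟨n, hn, rfl⟩),
        h4 s s s s hs hs hs hs (Or.inr ⟨n, hn, rfl⟩)⟩
      snoc := fun l a hl ha => h5 l a a a hl ha ha ha rfl
      cnd := h9
      bnd := fun D p j hD hp => h6 D p p p hD hp hp hp ⟨j, rfl⟩
      ww := fun D p j l a hD hp hl ha => h7 D p l a hD hp hl ha j
      wit := h8 }

theorem model_data [WellFoundedLT I] (hu : Uncountable I) {i0 : I} {M : Set (UnF q0)}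
    (hMc : M.Countable) (hM : GoodM i0 M) :
    ∃ (δ : I) (g : ZZ I), (∀ a, xI a ∈ M ↔ a < δ) ∧ (∀ z, xZ z ∈ M ↔ ∃ k, z = dec g k) ∧
      Cl δ g ∧ ∀ k k', ∃ k'', dec (dec g k) k' = dec g k'' := by
  have hIc : (xI (q0 := q0) ⁻¹' M).Countable := hMc.preimage xI_inj
  have hne : {a : I | xI a ∉ M}.Nonempty := by
    by_contra hcon
    rw [Set.not_nonempty_iff_eq_empty] at hcon
    have h1 : (xI (q0 := q0) ⁻¹' M) = Set.univ := by
      ext a
      have : a ∉ {a : I | xI a ∉ M} := by rw [hcon]; exact Set.notMem_empty a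
      simp only [Set.mem_univ, iff_true]
      by_contra h
      exact this h
    rw [h1, Set.countable_univ_iff] at hIc
    exact not_countable hIc
  set δ := (wellFounded_lt (α := I)).min {a : I | xI a ∉ M} hne with hδdef
  have hδ1 : xI δ ∉ M := (wellFounded_lt (α := I)).min_mem _ hne
  have hδ : ∀ a, xI a ∈ M ↔ a < δ := by
    intro a
    constructor
    · intro ha
      by_contra hcon
      rcases (not_lt.1 hcon).lt_or_eq with h | h
      · exact hδ1 (hM.init a δ ha h)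
      · exact hδ1 (h ▸ ha)
    · intro ha
      by_contra hcon
      exact (wellFounded_lt (α := I)).not_lt_min {a : I | xI a ∉ M} hcon ha
  have hZc : (xZ (q0 := q0) ⁻¹' M).Countable := hMc.preimage xZ_inj
  obtain ⟨z0, hz0⟩ := hM.z0
  obtain ⟨f, hf⟩ := hZc.exists_eq_range ⟨z0, hz0⟩
  have hf' : ∀ z, xZ z ∈ M ↔ ∃ k, z = f k := by
    intro z
    constructor
    · intro hz
      have h1 : z ∈ xZ (q0 := q0) ⁻¹' M := hz
      rw [hf] at h1
      obtain ⟨k, hk⟩ := h1
      exact ⟨k, hk.symm⟩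
    · rintro ⟨k, rfl⟩
      have h1 : f k ∈ xZ (q0 := q0) ⁻¹' M := by rw [hf]; exact ⟨k, rfl⟩
      exact h1
  refine ⟨δ, enc f, hδ, ?_, ?_, ?_⟩
  · intro z
    rw [hf']
    constructor
    · rintro ⟨k, hk⟩
      exact ⟨k, by rw [dec_enc, hk]⟩
    · rintro ⟨k, hk⟩
      exact ⟨k, by rw [hk, dec_enc]⟩
  · intro m l hl
    refine (hδ _).1 ?_
    exact hM.app (f (Nat.unpair m).1) l (Nat.unpair m).2 ((hf' _).2 ⟨_, rfl⟩)
      (hM.list l fun a ha => (hδ a).2 (hl a ha))
  · intro k k'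
    rw [dec_enc]
    obtain ⟨k'', hk''⟩ := (hf' _).1 (hM.decm (f k) k' ((hf' _).2 ⟨k, rfl⟩))
    exact ⟨k'', by rw [dec_enc, hk'']⟩

theorem exists_generic {i0 : I} {M : Set (UnF q0)} (hM : GoodM i0 M) (δ : I) (g : ZZ I)
    (hδ : ∀ a, xI a ∈ M ↔ a < δ) (hg : ∀ z, xZ z ∈ M ↔ ∃ k, z = dec g k) (hcl : Cl δ g)
    (htr : ∀ k k', ∃ k'', dec (dec g k) k' = dec g k'') (p : PosF q0) (hp : xP p ∈ M) :
    ∃ q : PosF q0, q ≤ p ∧ (δ, g) ∈ q.1.N := by
  classical
  have hN : ∀ n ∈ p.1.N, n.1 < δ ∧ ∃ k, n.2 = dec g k := by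
    intro n hn
    obtain ⟨h1, h2⟩ := hM.sn p n hp hn
    exact ⟨(hδ _).1 h1, (hg _).1 h2⟩
  let q : Cnd Mt :=
    { A := p.1.A
      N := insert (δ, g) p.1.N
      free := p.1.free
      clo := by
        intro n hn
        rcases Finset.mem_insert.1 hn with rfl | h
        · exact hcl
        · exact p.1.clo n h
      tr := by
        intro n hn
        rcases Finset.mem_insert.1 hn with rfl | h
        · exact htr
        · exact p.1.tr n h
      chain := by
        intro n hn n' hn' hlt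
        rcases Finset.mem_insert.1 hn with rfl | h
        · rcases Finset.mem_insert.1 hn' with rfl | h'
          · exact absurd hlt (lt_irrefl _)
          · exact absurd hlt (lt_asymm (hN n' h').1)
        · rcases Finset.mem_insert.1 hn' with rfl | h'
          · exact (hN n h).2
          · exact p.1.chain n h n' h' hlt
      uniq := by
        intro n hn n' hn' heq
        rcases Finset.mem_insert.1 hn with rfl | h
        · rcases Finset.mem_insert.1 hn' with rfl | h'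
          · rfl
          · exact absurd heq (hN n' h').1.ne'
        · rcases Finset.mem_insert.1 hn' with rfl | h'
          · exact absurd heq (hN n h).1.ne
          · exact p.1.uniq n h n' h' heq
      sep := by
        intro α hα α' hα' hlt
        obtain ⟨n, hn, h⟩ := p.1.sep α hα α' hα' hlt
        exact ⟨n, Finset.mem_insert_of_mem hn, h⟩ }
  have hqp : q ≤ p.1 := ⟨subset_rfl, Finset.subset_insert _ _⟩
  exact ⟨⟨q, hqp.trans p.2⟩, hqp, Finset.mem_insert_self _ _⟩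

/-- The poset is proper. -/
theorem proper_PosF [WellFoundedLT I] (hI : ∀ a : I, (Set.Iio a).Countable)
    (hu : Uncountable I)
    (h1 : ∀ α β γ γ', Mt α β γ → Mt α β γ' → γ = γ')
    (h2 : ∀ α β β' γ, Mt α β γ → Mt α β' γ → β = β')
    (h3 : ∀ α β γ, Mt α β γ → β < α ∧ γ < α ∧ β ≠ γ) (q0 : Cnd Mt) : Proper (PosF q0) := by
  have hne : Nonempty I := by
    by_contra h
    rw [not_nonempty_iff] at h
    exact not_countable (α := I) inferInstance
  obtain ⟨i0⟩ := hne
  obtain ⟨C, hC, hCM⟩ := club_GoodM (q0 := q0) hI i0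
  refine ⟨I ⊕ (ZZ I ⊕ (Cnd Mt ⊕ List I)), C, hC, ?_⟩
  intro M hMc hMcl p hp
  have hM : GoodM i0 M := hCM M hMcl
  obtain ⟨δ, g, hδ, hg, hcl, htr⟩ := model_data hu hMc hM
  obtain ⟨q, hqp, hq⟩ := exists_generic hM δ g hδ hg hcl htr p hp
  refine ⟨q, hqp, ?_⟩
  intro D hD hDd r hr
  obtain ⟨r', hr'D, hr'⟩ := hDd r
  obtain ⟨s, hsD, hsM, t, ht1, ht2⟩ := main_lemma h1 h2 h3 hM δ hδ g hg r'
    ((hr'.trans hr).2 hq) D hD hr'D
  exact ⟨s, hsD, hsM, t, ht1.trans hr', ht2⟩

/-- Below some condition there are conditions with arbitrarily large elements. -/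
theorem exists_unbounded [WellFoundedLT I] (hI : ∀ a : I, (Set.Iio a).Countable)
    (hu : Uncountable I)
    (h1 : ∀ α β γ γ', Mt α β γ → Mt α β γ' → γ = γ')
    (h2 : ∀ α β β' γ, Mt α β γ → Mt α β' γ → β = β')
    (h3 : ∀ α β γ, Mt α β γ → β < α ∧ γ < α ∧ β ≠ γ) :
    ∃ q1 : Cnd Mt, ∀ r : Cnd Mt, r ≤ q1 → ∀ b, ∃ r' : Cnd Mt, r' ≤ r ∧ ∃ α ∈ r'.A, b ≤ α := by
  have hne : Nonempty I := by
    by_contra h
    rw [not_nonempty_iff] at h
    exact not_countable (α := I) inferInstance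
  obtain ⟨i0⟩ := hne
  let q0 : Cnd Mt :=
    { A := ∅
      N := ∅
      free := by simp
      clo := by simp
      tr := by simp
      chain := by simp
      uniq := by simp
      sep := by simp }
  have htop : ∀ p : Cnd Mt, p ≤ q0 := fun p => ⟨Finset.empty_subset _, Finset.empty_subset _⟩
  let Bad : Set (PosF q0) := {p | ∃ b, ∀ r : Cnd Mt, r ≤ p.1 → ∀ α ∈ r.A, α < b}
  have hb : ∀ p : PosF q0, ∃ b, p ∈ Bad → ∀ r : Cnd Mt, r ≤ p.1 → ∀ α ∈ r.A, α < b := by
    intro p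
    by_cases h : p ∈ Bad
    · obtain ⟨b, hb⟩ := h
      exact ⟨b, fun _ => hb⟩
    · exact ⟨i0, fun h' => absurd h' h⟩
  choose b hb using hb
  have r1 := ClubProp.rule (X := UnF q0) xP xP_inj xP xP_inj xP xP_inj xP xP_inj
    (fun s _ _ _ => {xI (b s)}) (fun s _ _ _ => Set.countable_singleton _)
  obtain ⟨C, hC, hCM⟩ := (club_GoodM (q0 := q0) hI i0).and r1
  obtain ⟨M, hMc, hMD, hMcl⟩ := exists_closed C hC {xD Bad} (Set.countable_singleton _)
  obtain ⟨hM, hMb⟩ := hCM M hMcl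
  obtain ⟨δ, g, hδ, hg, hcl, htr⟩ := model_data hu hMc hM
  let q1 : Cnd Mt :=
    { A := {δ}
      N := {(δ, g)}
      free := by
        intro α hα β hβ γ hγ hMt
        rw [Finset.mem_singleton] at hα hβ hγ
        subst hα
        subst hβ
        exact lt_irrefl _ (h3 _ _ _ hMt).1
      clo := by
        intro n hn
        rw [Finset.mem_singleton] at hn
        subst hn
        exact hcl
      tr := by
        intro n hn
        rw [Finset.mem_singleton] at hn
        subst hn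
        exact htr
      chain := by
        intro n hn n' hn' hlt
        rw [Finset.mem_singleton] at hn hn'
        subst hn
        subst hn'
        exact absurd hlt (lt_irrefl _)
      uniq := by
        intro n hn n' hn' _
        rw [Finset.mem_singleton] at hn hn'
        rw [hn, hn']
      sep := by
        intro α hα α' hα' hlt
        rw [Finset.mem_singleton] at hα hα'
        subst hα
        subst hα'
        exact absurd hlt (lt_irrefl _) }
  refine ⟨q1, ?_⟩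
  intro r hr c
  by_contra hcon
  push Not at hcon
  have hbad : (⟨r, htop r⟩ : PosF q0) ∈ Bad := ⟨c, hcon⟩
  obtain ⟨s, hsD, hsM, t, ht1, ht2⟩ := main_lemma h1 h2 h3 hM δ hδ g hg ⟨r, htop r⟩
    (hr.2 (Finset.mem_singleton_self _)) Bad (hMD rfl) hbad
  have h4 : δ ∈ t.1.A := (show t.1 ≤ r from ht1).1 (hr.1 (Finset.mem_singleton_self _))
  have h5 : δ < b s := hb s hsD t.1 ht2 δ h4
  have h6 : xI (b s) ∈ M := hMb s s s s hsM hsM hsM hsM rfl
  exact absurd ((hδ _).1 h6) (lt_asymm h5)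

end

/-- The proper forcing axiom gives unbounded free sets. -/
theorem exists_free (hPFA : PFA) (Mt : Omega1 → Omega1 → Omega1 → Prop)
    (hI : ∀ a : Omega1, (Set.Iio a).Countable) (hu : Uncountable Omega1)
    (h1 : ∀ α β γ γ', Mt α β γ → Mt α β γ' → γ = γ')
    (h2 : ∀ α β β' γ, Mt α β γ → Mt α β' γ → β = β')
    (h3 : ∀ α β γ, Mt α β γ → β < α ∧ γ < α ∧ β ≠ γ) :
    ∃ A : Set Omega1, (∀ b, ∃ α ∈ A, b ≤ α) ∧ ∀ α ∈ A, ∀ β ∈ A, ∀ γ ∈ A, ¬ Mt α β γ := by
  obtain ⟨q1, hq1⟩ := exists_unbounded hI hu h1 h2 h3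
  obtain ⟨F, -, hdir, hF⟩ := hPFA (PosF q1) ⟨⟨q1, le_rfl⟩⟩ (proper_PosF hI hu h1 h2 h3 q1)
    (fun b => {p | ∃ α ∈ p.1.A, b ≤ α}) (by
      intro b p
      obtain ⟨r, hr, α, hα, hb⟩ := hq1 p.1 p.2 b
      exact ⟨⟨r, hr.trans p.2⟩, ⟨α, hα, hb⟩, hr⟩)
  refine ⟨{α | ∃ p ∈ F, α ∈ p.1.A}, ?_, ?_⟩
  · intro b
    obtain ⟨p, hp, α, hα, hb⟩ := hF b
    exact ⟨α, ⟨p, hp, hα⟩, hb⟩
  · rintro α ⟨p, hp, hα⟩ β ⟨p', hp', hβ⟩ γ ⟨p'', hp'', hγ⟩
    obtain ⟨r, hr, hr1, hr2⟩ := hdir p hp p' hp'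
    obtain ⟨t, ht, ht1, ht2⟩ := hdir r hr p'' hp''
    exact t.1.free α (ht1.1 (hr1.1 hα)) β (ht1.1 (hr2.1 hβ)) γ (ht2.1 hγ)

end Pool.SID
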