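import Pool.Agent.H82.SID.Alg

/-!
# The sealing property and its base case (MP_fe7b28_co)
-/

set_option autoImplicit false

open Equiv

namespace Pool.SID

/-- `k` is an injective homomorphism on the subgroup `K`. -/
structure Emb {S H : Type} [Group S] [Group H] (K : Subgroup S) (k : S → H) : Prop where
  mul : ∀ a ∈ K, ∀ b ∈ K, k (a * b) = k a * k b
  inj : ∀ a ∈ K, k a = 1 → a = 1

namespace Emb

variable {S H H' : Type} [Group S] [Group H] [Group H'] {K : Subgroup S} {k : S → H}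

theorem one (h : Emb K k) : k 1 = 1 := by
  have := h.mul 1 K.one_mem 1 K.one_mem
  rw [mul_one] at this
  exact mul_left_cancel (a := k 1) (by rw [mul_one]; exact this.symm)

theorem inv (h : Emb K k) {a : S} (ha : a ∈ K) : k a⁻¹ = (k a)⁻¹ := by
  have := h.mul a ha a⁻¹ (K.inv_mem ha)
  rw [mul_inv_cancel, h.one] at this
  exact (inv_eq_of_mul_eq_one_right this.symm).symm

theorem injOn (h : Emb K k) : Set.InjOn k K := by
  intro a ha b hb hab
  have h1 : k (a * b⁻¹) = 1 := by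
    rw [h.mul a ha b⁻¹ (K.inv_mem hb), h.inv hb, hab, mul_inv_cancel]
  exact mul_inv_eq_one.1 (h.inj _ (K.mul_mem ha (K.inv_mem hb)) h1)

theorem mono (h : Emb K k) {K' : Subgroup S} (hK : K' ≤ K) : Emb K' k :=
  ⟨fun a ha b hb => h.mul a (hK ha) b (hK hb), fun a ha => h.inj a (hK ha)⟩

theorem comp (h : Emb K k) (c : H →* H') (hc : Function.Injective c) :
    Emb K (fun s => c (k s)) :=
  ⟨fun a ha b hb => by rw [h.mul a ha b hb, map_mul],
    fun a ha h1 => h.inj a ha (hc (by rw [h1, map_one]))⟩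

theorem congr (h : Emb K k) {k' : S → H} (hk : ∀ a ∈ K, k' a = k a) : Emb K k' :=
  ⟨fun a ha b hb => by rw [hk _ (K.mul_mem ha hb), hk a ha, hk b hb, h.mul a ha b hb],
    fun a ha h1 => h.inj a ha (by rw [← hk a ha, h1])⟩

theorem finite [Finite H] (h : Emb K k) : (K : Set S).Finite :=
  Set.Finite.of_injOn (fun _ _ => Set.mem_univ _) h.injOn Set.finite_univ

/-- The image of a subgroup under an embedding. -/
def range (h : Emb K k) : Subgroup H where
  carrier := k '' K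
  one_mem' := ⟨1, K.one_mem, h.one⟩
  mul_mem' := by
    rintro _ _ ⟨a, ha, rfl⟩ ⟨b, hb, rfl⟩
    exact ⟨a * b, K.mul_mem ha hb, h.mul a ha b hb⟩
  inv_mem' := by
    rintro _ ⟨a, ha, rfl⟩
    exact ⟨a⁻¹, K.inv_mem ha, h.inv ha⟩

theorem mem_range (h : Emb K k) {y : H} : y ∈ h.range ↔ ∃ a ∈ K, k a = y := Iff.rfl

/-- The homomorphism on the subgroup. -/
def hom (h : Emb K k) : K →* H where
  toFun a := k a
  map_one' := h.one
  map_mul' a b := h.mul a a.2 b b.2

theorem hom_injective (h : Emb K k) : Function.Injective h.hom := by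
  intro a b hab
  exact Subtype.ext (h.injOn a.2 b.2 hab)

end Emb

/-- `b` has over `K` the type of `y` over `k K`. -/
def ST {S H : Type} [Group S] [Group H] (K : Subgroup S) (k : S → H) (y : H) (b : S) : Prop :=
  ∃ th : S → H, Emb (K ⊔ Subgroup.zpowers b) th ∧ (∀ a ∈ K, th a = k a) ∧ th b = y

/-- The sealing property. -/
def Seal {S : Type} [Group S] (V W : Subgroup S) (Bp Bm : Set S) : Prop :=
  ∀ K : Subgroup S, K ≤ W → (K : Set S).Finite →
    ∀ (n : ℕ) (i : S → Perm (Fin n)) (x : Perm (Fin n)), Emb K i →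
    ∃ (K' : Subgroup S) (n' : ℕ) (e : Perm (Fin n) →* Perm (Fin n')) (k : S → Perm (Fin n')),
      K ≤ K' ∧ K' ≤ W ∧ (K' : Set S).Finite ∧ Function.Injective e ∧ Emb K' k ∧
      (∀ a ∈ K, k a = e (i a)) ∧
      (∀ J : Subgroup (Perm (Fin n)), (∀ a ∈ K, i a ∈ J) →
        ∀ h, e h ∈ J.map e ⊔ Subgroup.closure (k '' K') → h ∈ J) ∧
      ({b | b ∈ Bp ∪ Bm ∧ ST (K' ⊓ V) k (e x) b}.Finite ∨
        ∃ b1 ∈ Bp, b1 ∈ K' ∧ ∃ b2 ∈ Bm, b2 ∈ K' ∧ e x * (k b1)⁻¹ * e x = k b2)

/-- Every infinite type class of `Bp ∪ Bm` meets both `Bp` and `Bm`. -/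
def Splits {S : Type} [Group S] (V : Subgroup S) (Bp Bm : Set S) : Prop :=
  ∀ K : Subgroup S, K ≤ V → (K : Set S).Finite →
    ∀ (n : ℕ) (k : S → Perm (Fin n)) (y : Perm (Fin n)), Emb K k →
      {b | b ∈ Bp ∪ Bm ∧ ST K k y b}.Infinite →
      (∃ b ∈ Bp, ST K k y b) ∧ (∃ b ∈ Bm, ST K k y b)

/-- The base case of the sealing property. -/
theorem seal_self {S : Type} [Group S] (V : Subgroup S) (Bp Bm : Set S) (hp : Bp ⊆ V)
    (hm : Bm ⊆ V) (hs : Splits V Bp Bm) : Seal V V Bp Bm := by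
  intro K hKV hKf n i x hi
  by_contra hcon
  -- first application: the trivial extension
  have h0 : {b | b ∈ Bp ∪ Bm ∧ ST K i x b}.Infinite := by
    intro hfin
    refine hcon ⟨K, n, MonoidHom.id _, i, le_rfl, hKV, hKf, Function.injective_id, hi,
      fun a _ => rfl, ?_, Or.inl ?_⟩
    · intro J hJ h hh
      have h1 : J.map (MonoidHom.id _) ⊔ Subgroup.closure (i '' K) ≤ J := by
        refine sup_le ?_ ?_
        · rintro _ ⟨a, ha, rfl⟩
          exact ha
        · rw [Subgroup.closure_le]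
          rintro _ ⟨a, ha, rfl⟩
          exact hJ a ha
      exact h1 hh
    · rw [inf_eq_left.2 hKV]
      exact hfin
  obtain ⟨⟨b1, hb1, th1, hth1, hth1K, hth1b⟩, -⟩ := hs K hKV hKf n i x hi h0
  obtain ⟨N, e0, e1, em, he0, he1, hem, h01, hm1, hrel, hA, hB⟩ :=
    three_copies (Perm (Fin n)) hi.range x
  set K1 : Subgroup S := K ⊔ Subgroup.zpowers b1 with hK1
  have hKK1 : K ≤ K1 := le_sup_left
  have hK1V : K1 ≤ V := sup_le hKV (Subgroup.zpowers_le.2 (hp hb1))
  have hK1f : (K1 : Set S).Finite := hth1.finite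
  set k1 : S → Perm (Fin N) := fun s => e1 (th1 s) with hk1
  have hk1E : Emb K1 k1 := hth1.comp e1 he1
  have hk1K : ∀ a ∈ K, k1 a = em (i a) := by
    intro a ha
    rw [hk1]
    simp only
    rw [hth1K a ha, hm1 (i a) ⟨a, ha, rfl⟩]
  have hcl1 : Subgroup.closure (k1 '' K1) ≤ e1.range := by
    rw [Subgroup.closure_le]
    rintro _ ⟨a, -, rfl⟩
    exact ⟨th1 a, rfl⟩
  have h1 : {b | b ∈ Bp ∪ Bm ∧ ST K1 k1 (em x) b}.Infinite := by
    intro hfin
    refine hcon ⟨K1, N, em, k1, hKK1, hK1V, hK1f, hem, hk1E, hk1K, ?_, Or.inl ?_⟩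
    · intro J hJ h hh
      refine hA J ?_ h ?_
      · rintro _ ⟨a, ha, rfl⟩
        exact hJ a ha
      · exact sup_le_sup le_rfl hcl1 hh
    · rw [inf_eq_left.2 hK1V]
      exact hfin
  obtain ⟨-, ⟨b2, hb2, th2, hth2, hth2K, hth2b⟩⟩ := hs K1 hK1V hK1f N k1 (em x) hk1E h1
  set K2 : Subgroup S := K1 ⊔ Subgroup.zpowers b2 with hK2
  have hb1K1 : b1 ∈ K1 := Subgroup.mem_sup_right (Subgroup.mem_zpowers b1)
  have hb2K2 : b2 ∈ K2 := Subgroup.mem_sup_right (Subgroup.mem_zpowers b2)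
  have hK12 : K1 ≤ K2 := le_sup_left
  have hK2V : K2 ≤ V := sup_le hK1V (Subgroup.zpowers_le.2 (hm hb2))
  refine hcon ⟨K2, N, e0, th2, hKK1.trans hK12, hK2V, hth2.finite, he0, hth2, ?_, ?_, Or.inr ?_⟩
  · intro a ha
    rw [hth2K a (hKK1 ha)]
    change e1 (th1 a) = _
    rw [hth1K a ha, h01 (i a) ⟨a, ha, rfl⟩]
  · intro J hJ h hh
    have hcl2 : Subgroup.closure (th2 '' K2) ≤ e1.range ⊔ em.range := by
      have h3 : K2 ≤ K1 ⊔ Subgroup.zpowers b2 := le_rfl
      rw [Subgroup.closure_le]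
      rintro _ ⟨a, ha, rfl⟩
      have ha' : a ∈ K1 ⊔ Subgroup.zpowers b2 := ha
      rw [Subgroup.sup_eq_closure] at ha'
      have key : ∀ s, s ∈ Subgroup.closure ((K1 : Set S) ∪ (Subgroup.zpowers b2 : Set S)) →
          th2 s ∈ e1.range ⊔ em.range := by
        intro s hs'
        have hmem : ∀ s, s ∈ Subgroup.closure ((K1 : Set S) ∪ (Subgroup.zpowers b2 : Set S)) →
            s ∈ K2 := by
          intro s hs
          rw [← Subgroup.sup_eq_closure] at hs
          exact hs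
        induction hs' using Subgroup.closure_induction with
        | mem s hs =>
          rcases hs with hs | hs
          · have h4 : th2 s = e1 (th1 s) := hth2K s hs
            rw [h4]
            exact Subgroup.mem_sup_left ⟨_, rfl⟩
          · obtain ⟨m, rfl⟩ := Subgroup.mem_zpowers_iff.1 hs
            have h5 : th2 (b2 ^ m) = (th2 b2) ^ m := by
              have h6 := map_zpow hth2.hom ⟨b2, hb2K2⟩ m
              exact h6
            rw [h5, hth2b]
            exact Subgroup.zpow_mem _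
              (Subgroup.mem_sup_right (show em x ∈ em.range from ⟨x, rfl⟩)) m
        | one => rw [hth2.one]; exact Subgroup.one_mem _
        | mul s t hs ht hs' ht' =>
          rw [hth2.mul s (hmem s hs) t (hmem t ht)]
          exact Subgroup.mul_mem _ hs' ht'
        | inv s hs hs' =>
          rw [hth2.inv (hmem s hs)]
          exact Subgroup.inv_mem _ hs'
      exact key a ha'
    refine hB J ?_ h ?_
    · rintro _ ⟨a, ha, rfl⟩
      exact hJ a ha
    · exact sup_le_sup le_rfl hcl2 hh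
  · refine ⟨b1, hb1, hK12 hb1K1, b2, hb2, hb2K2, ?_⟩
    rw [hth2b, hth2K b1 hb1K1]
    change e0 x * (e1 (th1 b1))⁻¹ * e0 x = em x
    rw [hth1b, hrel]

end Pool.SID
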