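import Pool.Agent.H82.SID.Pfa

/-!
# The proper forcing axiom implies that aleph one works for aleph one (MP_fe7b28_co)
-/

set_option autoImplicit false

open Cardinal

namespace Pool.SID

/-- A Sidon family gives all induced subgraphs. -/
theorem embed_of_sidon {G W V : Type} [Group G] (x : W → G) (hx : Function.Injective x)
    (hs : ∀ a b c d, a ≠ b → c ≠ d → (x a)⁻¹ * x b = (x c)⁻¹ * x d →
      (a = c ∧ b = d) ∨ (a = d ∧ b = c))
    (X : SimpleGraph V) (f : V → W) (hf : Function.Injective f) (w0 : W)
    (hw0 : ∀ v, f v ≠ w0) : ∃ S : Set G, IsConnectionSet S ∧ EmbedsInduced X S := by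
  have hne : ∀ a b, a ≠ b → (x a)⁻¹ * x b ≠ 1 := by
    intro a b hab h
    exact hab (hx (inv_mul_eq_one.1 h))
  let S : Set G := {g | g ≠ 1 ∧ ∀ u v, u ≠ v → ¬ X.Adj u v → g ≠ (x (f u))⁻¹ * x (f v)}
  refine ⟨S, ⟨?_, ?_, ?_⟩, fun v => x (f v), hx.comp hf, ?_⟩
  · exact fun h => h.1 rfl
  · rintro s ⟨h1, h2⟩
    refine ⟨inv_ne_one.2 h1, ?_⟩
    intro u v huv hadj heq
    refine h2 v u huv.symm (fun h => hadj h.symm) ?_
    rw [← inv_inv s, heq]
    group
  · rw [eq_top_iff]
    intro g _
    by_cases hg : g ∈ S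
    · exact Subgroup.subset_closure hg
    by_cases hg1 : g = 1
    · rw [hg1]
      exact Subgroup.one_mem _
    have h1 : ∃ u v, u ≠ v ∧ ¬ X.Adj u v ∧ g = (x (f u))⁻¹ * x (f v) := by
      by_contra hcon
      push Not at hcon
      exact hg ⟨hg1, hcon⟩
    obtain ⟨u, v, huv, hadj, rfl⟩ := h1
    have h2 : (x (f u))⁻¹ * x w0 ∈ S := by
      refine ⟨hne _ _ (hw0 u), ?_⟩
      intro u' v' huv' _ heq
      rcases hs _ _ _ _ (hw0 u) (fun h => huv' (hf h)) heq with ⟨-, h⟩ | ⟨-, h⟩
      · exact hw0 v' h.symm
      · exact hw0 u' h.symm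
    have h3 : (x w0)⁻¹ * x (f v) ∈ S := by
      refine ⟨hne _ _ (hw0 v).symm, ?_⟩
      intro u' v' huv' _ heq
      rcases hs _ _ _ _ (hw0 v).symm (fun h => huv' (hf h)) heq with ⟨h, -⟩ | ⟨h, -⟩
      · exact hw0 u' h.symm
      · exact hw0 v' h.symm
    have h4 : (x (f u))⁻¹ * x (f v) = ((x (f u))⁻¹ * x w0) * ((x w0)⁻¹ * x (f v)) := by group
    rw [h4]
    exact Subgroup.mul_mem _ (Subgroup.subset_closure h2) (Subgroup.subset_closure h3)
  · intro u v
    constructor
    · intro huv
      have hne' : u ≠ v := huv.ne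
      refine ⟨hne _ _ (fun h => hne' (hf h)), ?_⟩
      intro u' v' huv' hadj heq
      rcases hs _ _ _ _ (fun h => hne' (hf h)) (fun h => huv' (hf h)) heq with ⟨h, h'⟩ | ⟨h, h'⟩
      · rw [hf h, hf h'] at huv
        exact hadj huv
      · rw [hf h, hf h'] at huv
        exact hadj huv.symm
    · rintro ⟨h1, h2⟩
      by_contra hadj
      by_cases huv : u = v
      · subst huv
        exact h1 (inv_mul_cancel _)
      · exact h2 u v huv hadj rfl

section

variable {I : Type} [LinearOrder I] {G : Type} [Group G]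

/-- The matching attached to a sequence of group elements. -/
def MtG (x : I → G) (α β γ : I) : Prop :=
  β < α ∧ γ < α ∧ β ≠ γ ∧ x α * (x β)⁻¹ * x α = x γ

theorem exists_seq [WellFoundedLT I] (hI : ∀ a : I, (Set.Iio a).Countable)
    (hG : Uncountable G) : ∃ x : I → G, ∀ a, x a ∉ Subgroup.closure (x '' Set.Iio a) := by
  classical
  have h1 : ∀ S : Set G, S.Countable → ∃ g, g ∉ Subgroup.closure S := by
    intro S hS
    by_contra hcon
    push Not at hcon
    have h2 : (Subgroup.closure S : Set G) = Set.univ := by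
      ext g
      simp [hcon g]
    have h3 : (Subgroup.closure S : Set G).Countable := by
      have : Countable S := hS
      have : Countable (FreeGroup S) := by
        change Countable (Quot _)
        infer_instance
      have h4 : (Subgroup.closure S : Set G) = Set.range (FreeGroup.lift (fun s : S => (s : G))) := by
        rw [← MonoidHom.coe_range, FreeGroup.range_lift_eq_closure, Subtype.range_coe]
      rw [h4]
      exact Set.countable_range _
    rw [h2, Set.countable_univ_iff] at h3
    exact not_countable h3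
  have h2 : ∀ S : Set G, ∃ g, S.Countable → g ∉ Subgroup.closure S := by
    intro S
    by_cases hS : S.Countable
    · obtain ⟨g, hg⟩ := h1 S hS
      exact ⟨g, fun _ => hg⟩
    · exact ⟨1, fun h => absurd h hS⟩
  choose ch hch using h2
  let x : I → G := (wellFounded_lt (α := I)).fix
    (fun a ih => ch (Set.range fun b : Set.Iio a => ih b b.2))
  have hx : ∀ a, x a = ch (x '' Set.Iio a) := by
    intro a
    have h3 : x a = ch (Set.range fun b : Set.Iio a => x b) := by
      change (wellFounded_lt (α := I)).fix _ a = _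
      rw [WellFounded.fix_eq]
    rw [h3]
    congr 1
    ext g
    constructor
    · rintro ⟨b, rfl⟩
      exact ⟨b, b.2, rfl⟩
    · rintro ⟨b, hb, rfl⟩
      exact ⟨⟨b, hb⟩, rfl⟩
  refine ⟨x, ?_⟩
  intro a
  rw [hx a]
  exact hch _ ((hI a).image x)

theorem seq_injective {x : I → G} (hx : ∀ a, x a ∉ Subgroup.closure (x '' Set.Iio a)) :
    Function.Injective x := by
  intro a b hab
  rcases lt_trichotomy a b with h | h | h
  · exact absurd (Subgroup.subset_closure (show x b ∈ x '' Set.Iio b from ⟨a, h, hab⟩)) (hx b)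
  · exact h
  · exact absurd (Subgroup.subset_closure (show x a ∈ x '' Set.Iio a from ⟨b, h, hab.symm⟩)) (hx a)

/-- Free sets for the matching are Sidon sets. -/
theorem sidon_of_free {x : I → G} (hx : ∀ a, x a ∉ Subgroup.closure (x '' Set.Iio a))
    (A : Set I) (hA : ∀ α ∈ A, ∀ β ∈ A, ∀ γ ∈ A, ¬ MtG x α β γ) (a b c d : I) (ha : a ∈ A)
    (hb : b ∈ A) (hc : c ∈ A) (hd : d ∈ A) (hab : a ≠ b) (hcd : c ≠ d)
    (h : (x a)⁻¹ * x b = (x c)⁻¹ * x d) : (a = c ∧ b = d) ∨ (a = d ∧ b = c) := by
  have hinj := seq_injective hx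
  -- the element with the largest index is not a product of the others
  have key : ∀ m y₁ y₂ y₃ : I, y₁ < m → y₂ < m → y₃ < m →
      x m ≠ x y₁ * (x y₂)⁻¹ * x y₃ := by
    intro m y₁ y₂ y₃ h1 h2 h3 heq
    refine hx m ?_
    rw [heq]
    exact Subgroup.mul_mem _ (Subgroup.mul_mem _ (Subgroup.subset_closure ⟨y₁, h1, rfl⟩)
      (Subgroup.inv_mem _ (Subgroup.subset_closure ⟨y₂, h2, rfl⟩)))
      (Subgroup.subset_closure ⟨y₃, h3, rfl⟩)
  -- `a` and `d` equal and largest
  have key2 : ∀ m u v : I, m ∈ A → u ∈ A → v ∈ A → u < m → v < m →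
      (x m)⁻¹ * x u = (x v)⁻¹ * x m → u = v := by
    intro m u v hm hu hv h1 h2 heq
    by_contra huv
    refine hA m hm v hv u hu ⟨h2, h1, fun h => huv h.symm, ?_⟩
    rw [mul_assoc, ← heq]
    group
  by_cases hac : a = c
  · subst hac
    refine Or.inl ⟨rfl, hinj (mul_left_cancel h)⟩
  by_cases hbd : b = d
  · subst hbd
    refine Or.inl ⟨hinj (inv_injective (mul_right_cancel h)), rfl⟩
  by_cases had : a = d
  · subst had
    refine Or.inr ⟨rfl, ?_⟩
    rcases lt_trichotomy b a with hba | hba | hba
    · rcases lt_trichotomy c a with hca | hca | hca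
      · exact key2 a b c ha hb hc hba hca h
      · exact absurd hca.symm hac
      · exfalso
        refine key c a b a hca (hba.trans hca) hca ?_
        have : x c = x a * ((x c)⁻¹ * x a)⁻¹ := by group
        rw [this, ← h]
        group
    · exact absurd hba.symm hab
    · rcases lt_trichotomy c b with hcb | hcb | hcb
      · exfalso
        refine key b a c a hba hcb hba ?_
        have : x b = x a * ((x a)⁻¹ * x b) := by group
        rw [this, h]
        group
      · exact hcb.symm
      · exfalso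
        refine key c a b a (hba.trans hcb) hcb (hba.trans hcb) ?_
        have : x c = x a * ((x c)⁻¹ * x a)⁻¹ := by group
        rw [this, ← h]
        group
  by_cases hbc : b = c
  · subst hbc
    refine Or.inr ⟨?_, rfl⟩
    have h' : (x b)⁻¹ * x a = (x d)⁻¹ * x b := by
      have := congrArg (fun g => g⁻¹) h
      simp only [mul_inv_rev, inv_inv] at this
      exact this
    rcases lt_trichotomy a b with hab' | hab' | hab'
    · rcases lt_trichotomy d b with hdb | hdb | hdb
      · exact key2 b a d hb ha hd hab' hdb h'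
      · exact absurd hdb.symm hbd
      · exfalso
        refine key d b a b hdb (hab'.trans hdb) hdb ?_
        have : x d = x b * ((x d)⁻¹ * x b)⁻¹ := by group
        rw [this, ← h']
        group
    · exact absurd hab' hab
    · rcases lt_trichotomy d a with hda | hda | hda
      · exfalso
        refine key a b d b hab' hda hab' ?_
        have : x a = x b * ((x b)⁻¹ * x a) := by group
        rw [this, h']
        group
      · exact hda.symm
      · exfalso
        refine key d b a b (hab'.trans hda) hda (hab'.trans hda) ?_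
        have : x d = x b * ((x d)⁻¹ * x b)⁻¹ := by group
        rw [this, ← h']
        group
  -- all four are different
  exfalso
  have e1 : x a = x b * (x d)⁻¹ * x c := by
    have : x a = x b * ((x a)⁻¹ * x b)⁻¹ := by group
    rw [this, h]
    group
  have e2 : x b = x a * (x c)⁻¹ * x d := by
    have : x b = x a * ((x a)⁻¹ * x b) := by group
    rw [this, h]
    group
  have e3 : x c = x d * (x b)⁻¹ * x a := by
    have : x c = x d * ((x c)⁻¹ * x d)⁻¹ := by group
    rw [this, ← h]
    group
  have e4 : x d = x c * (x a)⁻¹ * x b := by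
    have : x d = x c * ((x c)⁻¹ * x d) := by group
    rw [this, ← h]
    group
  have hmax : ∃ m, (m = a ∨ m = b ∨ m = c ∨ m = d) ∧ a ≤ m ∧ b ≤ m ∧ c ≤ m ∧ d ≤ m := by
    refine ⟨max (max a b) (max c d), ?_, ?_, ?_, ?_, ?_⟩
    · rcases max_choice (max a b) (max c d) with h1 | h1
      · rw [h1]
        rcases max_choice a b with h2 | h2
        · exact Or.inl h2
        · exact Or.inr (Or.inl h2)
      · rw [h1]
        rcases max_choice c d with h2 | h2
        · exact Or.inr (Or.inr (Or.inl h2))
        · exact Or.inr (Or.inr (Or.inr h2))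
    · exact (le_max_left _ _).trans (le_max_left _ _)
    · exact (le_max_right _ _).trans (le_max_left _ _)
    · exact (le_max_left _ _).trans (le_max_right _ _)
    · exact (le_max_right _ _).trans (le_max_right _ _)
  obtain ⟨m, hm, hma, hmb, hmc, hmd⟩ := hmax
  rcases hm with rfl | rfl | rfl | rfl
  · exact key _ b d c (lt_of_le_of_ne hmb hab.symm) (lt_of_le_of_ne hmd (fun h => had h.symm))
      (lt_of_le_of_ne hmc (fun h => hac h.symm)) e1
  · exact key _ a c d (lt_of_le_of_ne hma hab) (lt_of_le_of_ne hmc (fun h => hbc h.symm))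
      (lt_of_le_of_ne hmd (fun h => hbd h.symm)) e2
  · exact key _ d b a (lt_of_le_of_ne hmd hcd.symm) (lt_of_le_of_ne hmb hbc)
      (lt_of_le_of_ne hma hac) e3
  · exact key _ c a b (lt_of_le_of_ne hmc hcd) (lt_of_le_of_ne hma had)
      (lt_of_le_of_ne hmb hbd) e4

end

theorem Omega1_countable (a : Omega1) : (Set.Iio a).Countable := by
  rw [← Set.countable_coe_iff, ← Cardinal.mk_le_aleph0_iff, ← Cardinal.lt_aleph_one_iff]
  exact Cardinal.mk_Iio_toType_ord_lt a

theorem Omega1_card : #Omega1 = Cardinal.aleph 1 := Cardinal.mk_ord_toType _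

theorem Omega1_uncountable : Uncountable Omega1 := by
  rw [← Cardinal.aleph0_lt_mk_iff, Omega1_card, ← Cardinal.aleph_one_le_iff]

/-- The proper forcing axiom implies that aleph one works for aleph one. -/
theorem works_of_pfa (hPFA : PFA) : AlephOneWorks := by
  intro V X hV G _ hG
  have hGu : Uncountable G := by
    rw [← Cardinal.aleph0_lt_mk_iff, ← Cardinal.aleph_one_le_iff]
    exact hG
  obtain ⟨x, hx⟩ := exists_seq (I := Omega1) Omega1_countable hGu
  have hinj := seq_injective hx
  obtain ⟨A, hA1, hA2⟩ := exists_free hPFA (MtG x) Omega1_countable Omega1_uncountable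
    (fun α β γ γ' h h' => hinj (h.2.2.2.symm.trans h'.2.2.2))
    (fun α β β' γ h h' => by
      have h1 := h.2.2.2.trans h'.2.2.2.symm
      exact hinj (inv_injective (mul_left_cancel (mul_right_cancel h1))))
    (fun α β γ h => ⟨h.1, h.2.1, h.2.2.1⟩)
  have hAu : ¬ A.Countable := by
    intro hAc
    obtain ⟨b, hb⟩ := exists_ub Omega1_countable Omega1_uncountable A hAc
    obtain ⟨α, hα, hbα⟩ := hA1 b
    exact absurd (hb α hα) (not_lt.2 hbα)
  have hne : A.Nonempty := by
    by_contra h
    rw [Set.not_nonempty_iff_eq_empty] at h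
    rw [h] at hAu
    exact hAu Set.countable_empty
  obtain ⟨a0, ha0⟩ := hne
  have hA0u : ¬ (A \ {a0}).Countable := by
    intro h
    refine hAu ((h.insert a0).mono ?_)
    intro a ha
    by_cases haa : a = a0
    · exact Or.inl haa
    · exact Or.inr ⟨ha, haa⟩
  have hcard : #V ≤ #(↥(A \ {a0})) := by
    rw [hV, Cardinal.aleph_one_le_iff, Cardinal.aleph0_lt_mk_iff, ← not_countable_iff,
      Set.countable_coe_iff]
    exact hA0u
  obtain ⟨f⟩ := hcard
  refine embed_of_sidon (W := A) (fun a => x a) (hinj.comp Subtype.val_injective) ?_ X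
    (fun v => ⟨(f v : Omega1), (f v).2.1⟩) ?_ ⟨a0, ha0⟩ ?_
  · intro a b c d hab hcd h
    rcases sidon_of_free hx A hA2 a b c d a.2 b.2 c.2 d.2 (fun h => hab (Subtype.ext h))
      (fun h => hcd (Subtype.ext h)) h with ⟨h1, h2⟩ | ⟨h1, h2⟩
    · exact Or.inl ⟨Subtype.ext h1, Subtype.ext h2⟩
    · exact Or.inr ⟨Subtype.ext h1, Subtype.ext h2⟩
  · intro u v huv
    exact f.injective (Subtype.ext (congrArg (fun a : A => (a : Omega1)) huv))
  · intro v h
    exact (f v).2.2 (congrArg (fun a : A => (a : Omega1)) h)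

end Pool.SID
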