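import Pool.Agent.H82.SID.Main

/-!
# The group and the graph from a diamond sequence (MP_fe7b28_co)
-/

set_option autoImplicit false

open Equiv Filter Cardinal

namespace Pool.SID

theorem closure_finite {S : Type} [Group S] (V : Subgroup S) (hV : LF V) (F : Set S)
    (hF : F.Finite) (hFV : F ⊆ V) : (Subgroup.closure F : Set S).Finite := by
  induction F, hF using Set.Finite.induction_on with
  | empty => simp
  | @insert x F _ _ ih =>
    have h1 : Subgroup.closure F ≤ V := by
      rw [Subgroup.closure_le]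
      exact fun y hy => hFV (Or.inr hy)
    have h2 := hV _ h1 (ih fun y hy => hFV (Or.inr hy)) x (hFV (Or.inl rfl))
    have h3 : Subgroup.closure (insert x F) = Subgroup.closure F ⊔ Subgroup.zpowers x := by
      rw [Set.insert_eq, Subgroup.closure_union, ← Subgroup.zpowers_eq_closure, sup_comm]
    rw [h3]
    exact h2

theorem top_theorem (I : Type) [LinearOrder I] [WellFoundedLT I]
    (hI : ∀ a : I, (Set.Iio a).Countable) (hcard : #I = ℵ₁) (A : I → Set I)
    (hA : ∀ X C : Set I, IsClub C → ∃ a ∈ C, A a ∩ Set.Iio a = X ∩ Set.Iio a) :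
    ∃ (G : Type) (_ : Group G) (X : SimpleGraph I), #G = ℵ₁ ∧
      (∀ F : Set G, F.Finite → (Subgroup.closure F : Set G).Finite) ∧
      ∀ S : Set G, ¬ ∃ φ : I → G, Function.Injective φ ∧
        ∀ u v, X.Adj u v ↔ (φ u)⁻¹ * φ v ∈ S := by
  classical
  have hu : Uncountable I := by
    rw [← Cardinal.aleph0_lt_mk_iff, hcard, ← Cardinal.aleph_one_le_iff]
  have hIN : #(I × ℕ) = ℵ₁ := by
    rw [Cardinal.mk_prod, Cardinal.lift_id, Cardinal.lift_id, hcard, Cardinal.mk_nat]
    exact Cardinal.mul_eq_left (Cardinal.aleph0_le_aleph 1) (Cardinal.aleph0_le_aleph 1)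
      Cardinal.aleph0_ne_zero
  have he : ∃ e : I × (I × ℕ) → I, Function.Injective e := by
    have h1 : #(I × (I × ℕ)) = #I := by
      rw [Cardinal.mk_prod, Cardinal.lift_id, Cardinal.lift_id, hIN, hcard]
      exact Cardinal.mul_eq_self (Cardinal.aleph0_le_aleph 1)
    obtain ⟨e⟩ := Cardinal.eq.1 h1
    exact ⟨e, e.injective⟩
  obtain ⟨e, he⟩ := he
  set U := tower hI (BP e A) (BM e A) with hU
  have hready : ∀ a, Ready (BP e A) (BM e A) a U :=
    tower_ready hI (BP e A) (BM e A) (BP_BM e A)
  have hmono : ∀ b c, b ≤ c → U b ≤ U c := fun b c h => (hready c).2.1 b h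
  have hdir : Directed (· ≤ ·) U := by
    intro b c
    exact ⟨max b c, hmono _ _ (le_max_left _ _), hmono _ _ (le_max_right _ _)⟩
  have hne : Nonempty I := by
    by_contra h
    rw [not_nonempty_iff] at h
    exact not_countable (α := I) inferInstance
  have hmem : ∀ x, x ∈ (⨆ a, U a : Subgroup SS) ↔ ∃ a, x ∈ U a :=
    fun x => Subgroup.mem_iSup_of_directed hdir
  let Gr : Subgroup SS := ⨆ a, U a
  let X : SimpleGraph I :=
    { Adj := Adj' e A U
      symm := by
        constructor
        intro a b h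
        rcases h with ⟨h1, h2⟩ | ⟨h1, h2⟩
        · exact Or.inr ⟨h1, h2⟩
        · exact Or.inl ⟨h1, h2⟩
      loopless := by
        constructor
        intro a h
        rcases h with ⟨h1, -⟩ | ⟨h1, -⟩
        · exact lt_irrefl a h1
        · exact lt_irrefl a h1 }
  refine ⟨Gr, inferInstance, X, ?_, ?_, ?_⟩
  · refine le_antisymm ?_ ?_
    · rw [← hIN]
      have hx : ∀ x : Gr, ∃ p : I × ℕ, En (U p.1) p.2 = (x : SS) := by
        intro x
        obtain ⟨a, ha⟩ := (hmem x).1 x.2
        obtain ⟨n, hn⟩ := exists_En (hready a).1.count ha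
        exact ⟨(a, n), hn⟩
      choose g hg using hx
      refine Cardinal.mk_le_of_injective (f := g) ?_
      intro x y hxy
      have h1 := hg x
      rw [hxy, hg y] at h1
      exact Subtype.ext h1.symm
    · rw [Cardinal.aleph_one_le_iff, Cardinal.aleph0_lt_mk_iff]
      by_contra hcon
      rw [not_uncountable_iff] at hcon
      have hx : ∀ x : Gr, ∃ a, (x : SS) ∈ U a := fun x => (hmem x).1 x.2
      choose r hr using hx
      obtain ⟨d, hd⟩ := exists_ub hI hu (Set.range r) (Set.countable_range r)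
      obtain ⟨d', hd'⟩ := exists_ub hI hu {d} (Set.countable_singleton d)
      obtain ⟨x, hx, hxd⟩ := tower_strict hI (BP e A) (BM e A) (BP_BM e A) d d' (hd' d rfl)
      have hxG : x ∈ Gr := (hmem x).2 ⟨d', hx⟩
      exact hxd (hmono _ _ (hd _ ⟨⟨x, hxG⟩, rfl⟩).le (hr ⟨x, hxG⟩))
  · intro F hF
    have h1 : ∃ a, ∀ x ∈ F, (x : SS) ∈ U a := by
      induction F, hF using Set.Finite.induction_on with
      | empty =>
        obtain ⟨a⟩ := hne
        exact ⟨a, fun x hx => absurd hx (Set.notMem_empty x)⟩
      | @insert x F _ _ ih =>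
        obtain ⟨a, ha⟩ := ih
        obtain ⟨b, hb⟩ := (hmem x).1 x.2
        refine ⟨max a b, ?_⟩
        intro y hy
        rcases hy with rfl | hy
        · exact hmono _ _ (le_max_right _ _) hb
        · exact hmono _ _ (le_max_left _ _) (ha y hy)
    obtain ⟨a, ha⟩ := h1
    have h2 : (Subgroup.closure ((fun x : Gr => (x : SS)) '' F) : Set SS).Finite := by
      refine closure_finite (U a) (hready a).1.lf _ (hF.image _) ?_
      rintro _ ⟨x, hx, rfl⟩
      exact ha x hx
    have h3 : (Subgroup.closure ((fun x : Gr => (x : SS)) '' F)) =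
        (Subgroup.closure F).map Gr.subtype := by
      rw [MonoidHom.map_closure]
      rfl
    rw [h3] at h2
    have h4 : ((Subgroup.closure F).map Gr.subtype : Set SS) =
        Gr.subtype '' (Subgroup.closure F : Set Gr) := rfl
    rw [h4] at h2
    exact Set.Finite.of_finite_image h2 (Subgroup.subtype_injective Gr).injOn
  · rintro S ⟨φ, hφ, hX⟩
    refine main hI hu A hA e he (Gr.subtype '' S) (fun ξ => (φ ξ : SS)) ?_ ?_ ?_
    · intro a b hab
      exact hφ (Subtype.ext hab)
    · intro ξ
      exact (hmem _).1 (φ ξ).2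
    · intro u v
      have h1 : Adj' e A U u v ↔ (φ u)⁻¹ * φ v ∈ S := hX u v
      refine h1.trans ?_
      constructor
      · intro h
        exact ⟨_, h, rfl⟩
      · rintro ⟨y, hy, hyx⟩
        have : y = (φ u)⁻¹ * φ v := Subtype.ext hyx
        rw [← this]
        exact hy

end Pool.SID
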