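import Pool.Agent.H82.SID.Ext

/-!
# The tower of countable groups (MP_fe7b28_co)
-/

set_option autoImplicit false

open Equiv Filter

namespace Pool.SID

variable {I : Type} [LinearOrder I] [WellFoundedLT I]

open Classical in
/-- Forget everything above `a`. -/
noncomputable def trunc (a : I) (f : I → Subgroup SS) : I → Subgroup SS :=
  fun b => if b ≤ a then f b else ⊥

theorem trunc_of_le {a b : I} (h : b ≤ a) (f : I → Subgroup SS) : trunc a f b = f b := by
  simp [trunc, h]

theorem trunc_trunc {a b : I} (h : b ≤ a) (f : I → Subgroup SS) :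
    trunc b (trunc a f) = trunc b f := by
  funext c
  by_cases hc : c ≤ b
  · rw [trunc_of_le hc, trunc_of_le hc, trunc_of_le (hc.trans h)]
  · simp [trunc, hc]

/-- The hypothesis of the extension step. -/
def Ready (Bp Bm : I → (I → Subgroup SS) → Set SS) (a : I) (f : I → Subgroup SS) : Prop :=
  Good (f a) ∧ (∀ b, b ≤ a → f b ≤ f a) ∧
    ∀ b, b ≤ a → Seal (f b) (f a) (Bp b (trunc b f)) (Bm b (trunc b f))

theorem exists_step (hI : ∀ a : I, (Set.Iio a).Countable)
    (Bp Bm : I → (I → Subgroup SS) → Set SS) (a : I) (f : I → Subgroup SS)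
    (h : Ready Bp Bm a f) :
    ∃ W : Subgroup SS, Good W ∧ f a ≤ W ∧ f a ≠ W ∧
      ∀ b, b ≤ a → Seal (f b) W (Bp b (trunc b f)) (Bm b (trunc b f)) := by
  have hc : Countable (Set.Iic a) := by
    have : (Set.Iic a).Countable := by
      rw [← Set.Iio_insert]
      exact (hI a).insert a
    exact this
  obtain ⟨W, h1, h2, h3, h4⟩ := extension (f a) h.1 (Set.Iic a) (fun b => f b)
    (fun b => Bp b (trunc b f)) (fun b => Bm b (trunc b f)) (fun b => h.2.1 b b.2)
    (fun b => h.2.2 b b.2)
  exact ⟨W, h1, h2, h3, fun b hb => h4 ⟨b, hb⟩⟩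

open Classical in
/-- The successor step of the tower. -/
noncomputable def step (hI : ∀ a : I, (Set.Iio a).Countable)
    (Bp Bm : I → (I → Subgroup SS) → Set SS) (a : I) (f : I → Subgroup SS) : Subgroup SS :=
  if h : Ready Bp Bm a f then Classical.choose (exists_step hI Bp Bm a f h) else f a

open Classical in
/-- The tower. -/
noncomputable def tower (hI : ∀ a : I, (Set.Iio a).Countable)
    (Bp Bm : I → (I → Subgroup SS) → Set SS) : I → Subgroup SS :=
  (wellFounded_lt (α := I)).fix (fun a ih =>
    ⨆ (b : I) (h : b < a), step hI Bp Bm b (fun c => if hc : c ≤ b then ih c (hc.trans_lt h) else ⊥))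

theorem tower_eq (hI : ∀ a : I, (Set.Iio a).Countable)
    (Bp Bm : I → (I → Subgroup SS) → Set SS) (a : I) :
    tower hI Bp Bm a = ⨆ b : {b : I // b < a},
      step hI Bp Bm b (trunc (b : I) (tower hI Bp Bm)) := by
  rw [tower, WellFounded.fix_eq, iSup_subtype]
  refine iSup_congr fun b => iSup_congr fun h => ?_
  congr 1

/-- All properties of the tower at `a`. -/
theorem tower_ready (hI : ∀ a : I, (Set.Iio a).Countable)
    (Bp Bm : I → (I → Subgroup SS) → Set SS)
    (hB : ∀ a f, Good (f a) → Bp a f ⊆ f a ∧ Bm a f ⊆ f a ∧ Splits (f a) (Bp a f) (Bm a f))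
    (a : I) : Ready Bp Bm a (tower hI Bp Bm) := by
  set U := tower hI Bp Bm with hU
  set S : I → Subgroup SS := fun b => step hI Bp Bm b (trunc b U) with hS
  -- consequences of `Ready b`
  have hstep : ∀ b, Ready Bp Bm b U → Good (S b) ∧ U b ≤ S b ∧
      ∀ c, c ≤ b → Seal (U c) (S b) (Bp c (trunc c U)) (Bm c (trunc c U)) := by
    intro b hb
    have hb' : Ready Bp Bm b (trunc b U) := by
      refine ⟨?_, ?_, ?_⟩
      · rw [trunc_of_le le_rfl]
        exact hb.1
      · intro c hc
        rw [trunc_of_le le_rfl, trunc_of_le hc]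
        exact hb.2.1 c hc
      · intro c hc
        rw [trunc_of_le le_rfl, trunc_of_le hc, trunc_trunc hc]
        exact hb.2.2 c hc
    have h1 := Classical.choose_spec (exists_step hI Bp Bm b (trunc b U) hb')
    have h2 : S b = Classical.choose (exists_step hI Bp Bm b (trunc b U) hb') := by
      simp only [hS, step, hb', dif_pos]
    rw [← h2] at h1
    refine ⟨h1.1, ?_, ?_⟩
    · have := h1.2.1
      rw [trunc_of_le le_rfl] at this
      exact this
    · intro c hc
      have := h1.2.2.2 c hc
      rw [trunc_of_le hc, trunc_trunc hc] at this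
      exact this
  induction a using WellFoundedLT.induction with
  | ind a ih =>
    have hUa : U a = ⨆ b : {b : I // b < a}, S b := tower_eq hI Bp Bm a
    have hSU : ∀ b, b < a → S b ≤ U a := by
      intro b hb
      rw [hUa]
      exact le_iSup (fun b : {b : I // b < a} => S b) ⟨b, hb⟩
    have hSU' : ∀ b b', b < b' → b' < a → S b ≤ S b' := by
      intro b b' h1 h2
      have h3 : S b ≤ U b' := by
        have : U b' = ⨆ b : {b : I // b < b'}, S b := tower_eq hI Bp Bm b'
        rw [this]
        exact le_iSup (fun b : {b : I // b < b'} => S b) ⟨b, h1⟩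
      exact h3.trans (hstep b' (ih b' h2)).2.1
    have hSmono : ∀ b b', b ≤ b' → b' < a → S b ≤ S b' := by
      intro b b' h1 h2
      rcases h1.lt_or_eq with h | rfl
      · exact hSU' b b' h h2
      · exact le_rfl
    have hcc : Countable {b : I // b < a} := hI a
    have hgood : Good (U a) ∧ ∀ K : Subgroup SS, K ≤ U a → (K : Set SS).Finite →
        ∀ c, c < a → ∃ b, b < a ∧ c ≤ b ∧ K ≤ S b := by
      by_cases hne : Nonempty {b : I // b < a}
      · have hdir : Directed (· ≤ ·) (fun b : {b : I // b < a} => S b) := by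
          intro b b'
          refine ⟨⟨max b b', max_lt b.2 b'.2⟩, ?_, ?_⟩
          · exact hSmono _ _ (le_max_left _ _) (max_lt b.2 b'.2)
          · exact hSmono _ _ (le_max_right _ _) (max_lt b.2 b'.2)
        have hmem : ∀ x, x ∈ U a ↔ ∃ b, b < a ∧ x ∈ S b := by
          intro x
          rw [hUa, Subgroup.mem_iSup_of_directed hdir]
          constructor
          · rintro ⟨b, hb⟩
            exact ⟨b, b.2, hb⟩
          · rintro ⟨b, hb, hx⟩
            exact ⟨⟨b, hb⟩, hx⟩
        have hfin : ∀ K : Subgroup SS, K ≤ U a → (K : Set SS).Finite →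
            ∀ c, c < a → ∃ b, b < a ∧ c ≤ b ∧ K ≤ S b := by
          intro K hK hKf c hc
          have h1 : ∀ v : SS, ∃ b, b < a ∧ (v ∈ K → v ∈ S b) := by
            intro v
            by_cases hv : v ∈ K
            · obtain ⟨b, hb, hvb⟩ := (hmem v).1 (hK hv)
              exact ⟨b, hb, fun _ => hvb⟩
            · exact ⟨c, hc, fun h => absurd h hv⟩
          choose t ht1 ht2 using h1
          have h2 : ∀ s : Finset SS, ∃ b, b < a ∧ c ≤ b ∧ ∀ v ∈ s, t v ≤ b := by
            intro s
            classical
            induction s using Finset.induction_on with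
            | empty => exact ⟨c, hc, le_rfl, by simp⟩
            | insert v s _ ih' =>
              obtain ⟨b, hb, hcb, hs⟩ := ih'
              refine ⟨max b (t v), max_lt hb (ht1 v), hcb.trans (le_max_left _ _), ?_⟩
              intro w hw
              rcases Finset.mem_insert.1 hw with rfl | hw
              · exact le_max_right _ _
              · exact (hs w hw).trans (le_max_left _ _)
          obtain ⟨b, hb, hcb, hs⟩ := h2 hKf.toFinset
          refine ⟨b, hb, hcb, ?_⟩
          intro v hv
          exact hSmono _ _ (hs v (hKf.mem_toFinset.2 hv)) hb (ht2 v hv)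
        refine ⟨⟨?_, ?_, ?_⟩, hfin⟩
        · have h1 : (U a : Set SS) = ⋃ b : {b : I // b < a}, (S b : Set SS) := by
            ext x
            rw [Set.mem_iUnion]
            constructor
            · intro hx
              obtain ⟨b, hb, hxb⟩ := (hmem x).1 hx
              exact ⟨⟨b, hb⟩, hxb⟩
            · rintro ⟨b, hxb⟩
              exact (hmem x).2 ⟨b, b.2, hxb⟩
          rw [h1]
          exact Set.countable_iUnion (fun b => (hstep b (ih b b.2)).1.count)
        · intro K hK hKf u hu
          obtain ⟨c, hc, huc⟩ := (hmem u).1 hu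
          obtain ⟨b, hb, hcb, hKb⟩ := hfin K hK hKf c hc
          exact (hstep b (ih b hb)).1.lf K hKb hKf u (hSmono c b hcb hb huc)
        · intro u hu hu1
          obtain ⟨c, hc, huc⟩ := (hmem u).1 hu
          exact (hstep c (ih c hc)).1.free u huc hu1
      · have hemp : IsEmpty {b : I // b < a} := not_nonempty_iff.1 hne
        have hbot : U a = ⊥ := by rw [hUa, iSup_of_empty]
        refine ⟨⟨?_, ?_, ?_⟩, ?_⟩
        · rw [hbot]
          simp
        · intro K hK hKf u hu
          rw [hbot, Subgroup.mem_bot] at hu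
          subst hu
          rw [Subgroup.zpowers_one_eq_bot, sup_bot_eq]
          exact hKf
        · intro u hu hu1
          rw [hbot, Subgroup.mem_bot] at hu
          exact absurd hu hu1
        · intro K _ _ c hc
          exact (hemp.false ⟨c, hc⟩).elim
    refine ⟨hgood.1, ?_, ?_⟩
    · intro b hb
      rcases hb.lt_or_eq with h | rfl
      · exact (hstep b (ih b h)).2.1.trans (hSU b h)
      · exact le_rfl
    · intro c hc
      rcases hc.lt_or_eq with h | rfl
      · intro K hK hKf n i x hi
        obtain ⟨b, hb, hcb, hKb⟩ := hgood.2 K hK hKf c h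
        obtain ⟨K', n', e, k, h1, h2, h3⟩ := (hstep b (ih b hb)).2.2 c hcb K hKb hKf n i x hi
        exact ⟨K', n', e, k, h1, h2.trans (hSU b hb), h3⟩
      · have h1 := hB c (trunc c U) (by rw [trunc_of_le le_rfl]; exact hgood.1)
        rw [trunc_of_le le_rfl] at h1
        exact seal_self (U c) _ _ h1.1 h1.2.1 h1.2.2

/-- The tower is strictly increasing. -/
theorem tower_strict (hI : ∀ a : I, (Set.Iio a).Countable)
    (Bp Bm : I → (I → Subgroup SS) → Set SS)
    (hB : ∀ a f, Good (f a) → Bp a f ⊆ f a ∧ Bm a f ⊆ f a ∧ Splits (f a) (Bp a f) (Bm a f))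
    (a b : I) (hab : a < b) :
    ∃ x, x ∈ tower hI Bp Bm b ∧ x ∉ tower hI Bp Bm a := by
  set U := tower hI Bp Bm with hU
  have hb := tower_ready hI Bp Bm hB a
  have hb' : Ready Bp Bm a (trunc a U) := by
    refine ⟨?_, ?_, ?_⟩
    · rw [trunc_of_le le_rfl]
      exact hb.1
    · intro c hc
      rw [trunc_of_le le_rfl, trunc_of_le hc]
      exact hb.2.1 c hc
    · intro c hc
      rw [trunc_of_le le_rfl, trunc_of_le hc, trunc_trunc hc]
      exact hb.2.2 c hc
  have h1 := Classical.choose_spec (exists_step hI Bp Bm a (trunc a U) hb')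
  have h2 : step hI Bp Bm a (trunc a U) =
      Classical.choose (exists_step hI Bp Bm a (trunc a U) hb') := by
    simp only [step, hb', dif_pos]
  rw [← h2, trunc_of_le le_rfl] at h1
  have h3 : step hI Bp Bm a (trunc a U) ≤ U b := by
    have : U b = ⨆ c : {c : I // c < b}, step hI Bp Bm c (trunc (c : I) U) :=
      tower_eq hI Bp Bm b
    rw [this]
    exact le_iSup (fun c : {c : I // c < b} => step hI Bp Bm c (trunc (c : I) U)) ⟨a, hab⟩
  have h4 : ¬ step hI Bp Bm a (trunc a U) ≤ U a := fun h => h1.2.2.1 (le_antisymm h1.2.1 h)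
  obtain ⟨x, hx, hxa⟩ := SetLike.not_le_iff_exists.1 h4
  exact ⟨x, h3 hx, hxa⟩

end Pool.SID
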